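import Pool.Agent.Gen.F5.X123C2Dm2.S000
import Pool.Agent.Gen.F5.X123C2Dm2.S001
import Pool.Agent.Gen.F5.X123C2Dm2.S002

set_option autoImplicit false
set_option maxRecDepth 100000

namespace Pool.Agent.Gen.F5.X123C2Dm2

open Pool.Agent.Helper72.F5

def n0 : Cl (O (nat_lit 2)) (R (nat_lit 139473))
    (p (nat_lit 0x111) (nat_lit 0) (p (nat_lit 0xb0014) (nat_lit 0) (p (nat_lit 0xb0004) (nat_lit 0) (p (nat_lit 0x20000c) (nat_lit 1) (p (nat_lit 0xc9) (nat_lit 1) (p (nat_lit 0x81) (nat_lit 0) (p (nat_lit 0x101) (nat_lit 1) (p (nat_lit 0x119) (nat_lit 0) (p (nat_lit 0xd1) (nat_lit 0) (p (nat_lit 0x89) (nat_lit 0) (p (nat_lit 0x41) (nat_lit 0) (p (nat_lit 0x89080788869a) (nat_lit 0) (p (nat_lit 0x88878706861a) (nat_lit 0) (p (nat_lit 0x80000000080687858a) (nat_lit 0) (p (nat_lit 0x80000000078605850a) (nat_lit 0) (p (nat_lit 0x8605868482) (nat_lit 0) (p (nat_lit 0x8585048402) (nat_lit 0)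 (p (nat_lit 0x160014) (nat_lit 0) (p (nat_lit 0x160004) (nat_lit 0) (p (nat_lit 0x60592) (nat_lit 0) (p (nat_lit 0x48512) (nat_lit 0) (p (nat_lit 0x50392) (nat_lit 0) (p (nat_lit 0x38312) (nat_lit 0) (p (nat_lit 0x40212) (nat_lit 0) (p (nat_lit 0x28192) (nat_lit 0) (p (nat_lit 0x30092) (nat_lit 0) (p (nat_lit 0x18012) (nat_lit 0) pn))))))))))))))))))))))))))) :=
  Cl.node (nat_lit 0x109) (nat_lit 2) (by decide +kernel) (ClAll.succ (ClAll.succ ClAll.zero s7) s8)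

def n1 : Cl (O (nat_lit 2)) (R (nat_lit 139473))
    (p (nat_lit 0xb0014) (nat_lit 0) (p (nat_lit 0xb0004) (nat_lit 0) (p (nat_lit 0x20000c) (nat_lit 1) (p (nat_lit 0xc9) (nat_lit 1) (p (nat_lit 0xc1) (nat_lit 0) (p (nat_lit 0x81) (nat_lit 1) (p (nat_lit 0x101) (nat_lit 1) (p (nat_lit 0x119) (nat_lit 0) (p (nat_lit 0xd1) (nat_lit 0) (p (nat_lit 0x89) (nat_lit 0) (p (nat_lit 0x41) (nat_lit 0) (p (nat_lit 0x89080788869a) (nat_lit 0) (p (nat_lit 0x88878706861a) (nat_lit 0) (p (nat_lit 0x80000000080687858a) (nat_lit 0) (p (nat_lit 0x80000000078605850a) (nat_lit 0) (p (nat_lit 0x8605868482) (nat_lit 0) (p (nat_lit 0x8585048402) (nat_lit 0) (p (nat_lit 0x160014) (nat_lit 0) (p (nat_lit 0x160004) (nat_lit 0) (p (nat_lit 0x60592) (nat_lit 0) (p (nat_lit 0x48512) (nat_lit 0) (p (nat_lit 0x50392) (nat_lit 0) (p (nat_lit 0x38312) (nat_lit 0) (p (nat_lit 0x40212) (nat_lit 0) (p (nat_lit 0x28192)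 (nat_lit 0) (p (nat_lit 0x30092) (nat_lit 0) (p (nat_lit 0x18012) (nat_lit 0) pn))))))))))))))))))))))))))) :=
  Cl.node (nat_lit 0x109) (nat_lit 2) (by decide +kernel) (ClAll.succ (ClAll.succ ClAll.zero s15) s16)

def n2 : Cl (O (nat_lit 2)) (R (nat_lit 139473))
    (p (nat_lit 0x119) (nat_lit 1) (p (nat_lit 0xb0014) (nat_lit 0) (p (nat_lit 0xb0004) (nat_lit 0) (p (nat_lit 0x20000c) (nat_lit 1) (p (nat_lit 0xc1) (nat_lit 0) (p (nat_lit 0x81) (nat_lit 1) (p (nat_lit 0x101) (nat_lit 1) (p (nat_lit 0x111) (nat_lit 0) (p (nat_lit 0xd1) (nat_lit 1) (p (nat_lit 0x89) (nat_lit 0) (p (nat_lit 0x41) (nat_lit 0) (p (nat_lit 0x89080788869a) (nat_lit 0) (p (nat_lit 0x88878706861a) (nat_lit 0) (p (nat_lit 0x80000000080687858a) (nat_lit 0) (p (nat_lit 0x80000000078605850a) (nat_lit 0) (p (nat_lit 0x8605868482) (nat_lit 0) (p (nat_lit 0x8585048402) (nat_lit 0) (p (nat_lit 0x160014) (nat_lit 0)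 (p (nat_lit 0x160004) (nat_lit 0) (p (nat_lit 0x60592) (nat_lit 0) (p (nat_lit 0x48512) (nat_lit 0) (p (nat_lit 0x50392) (nat_lit 0) (p (nat_lit 0x38312) (nat_lit 0) (p (nat_lit 0x40212) (nat_lit 0) (p (nat_lit 0x28192) (nat_lit 0) (p (nat_lit 0x30092) (nat_lit 0) (p (nat_lit 0x18012) (nat_lit 0) pn))))))))))))))))))))))))))) :=
  Cl.node (nat_lit 0xc9) (nat_lit 2) (by decide +kernel) (ClAll.succ (ClAll.succ ClAll.zero s40) s41)

def n3 : Cl (O (nat_lit 2)) (R (nat_lit 139473))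
    (p (nat_lit 0xb0014) (nat_lit 0) (p (nat_lit 0xb0004) (nat_lit 0) (p (nat_lit 0x20000c) (nat_lit 1) (p (nat_lit 0xc9) (nat_lit 0) (p (nat_lit 0x89) (nat_lit 1) (p (nat_lit 0x109) (nat_lit 1) (p (nat_lit 0x101) (nat_lit 0) (p (nat_lit 0x111) (nat_lit 0) (p (nat_lit 0xd1) (nat_lit 1) (p (nat_lit 0x81) (nat_lit 0) (p (nat_lit 0x41) (nat_lit 1) (p (nat_lit 0x89080788869a) (nat_lit 0) (p (nat_lit 0x88878706861a) (nat_lit 0) (p (nat_lit 0x80000000080687858a) (nat_lit 0) (p (nat_lit 0x80000000078605850a) (nat_lit 0) (p (nat_lit 0x8605868482) (nat_lit 0) (p (nat_lit 0x8585048402) (nat_lit 0) (p (nat_lit 0x160014) (nat_lit 0) (p (nat_lit 0x160004) (nat_lit 0) (p (nat_lit 0x60592) (nat_lit 0) (p (nat_lit 0x48512) (nat_lit 0) (p (nat_lit 0x50392) (nat_lit 0) (p (nat_lit 0x38312) (nat_lit 0) (p (nat_lit 0x40212) (nat_lit 0) (p (nat_lit 0x28192) (nat_lit 0) (p (nat_lit 0x30092) (nat_lit 0)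 (p (nat_lit 0x18012) (nat_lit 0) pn))))))))))))))))))))))))))) :=
  Cl.node (nat_lit 0x119) (nat_lit 2) (by decide +kernel) (ClAll.succ (ClAll.succ ClAll.zero s108) s109)

def n4 : Cl (O (nat_lit 2)) (R (nat_lit 139473))
    (p (nat_lit 0xb0014) (nat_lit 0) (p (nat_lit 0xb0004) (nat_lit 0) (p (nat_lit 0x20000c) (nat_lit 1) (p (nat_lit 0xc9) (nat_lit 1) (p (nat_lit 0x81) (nat_lit 0) (p (nat_lit 0x101) (nat_lit 1) (p (nat_lit 0x119) (nat_lit 0) (p (nat_lit 0xd1) (nat_lit 0) (p (nat_lit 0x89) (nat_lit 0) (p (nat_lit 0x41) (nat_lit 0) (p (nat_lit 0x89080788869a) (nat_lit 0) (p (nat_lit 0x88878706861a) (nat_lit 0) (p (nat_lit 0x80000000080687858a) (nat_lit 0) (p (nat_lit 0x80000000078605850a) (nat_lit 0) (p (nat_lit 0x8605868482) (nat_lit 0) (p (nat_lit 0x8585048402) (nat_lit 0) (p (nat_lit 0x160014) (nat_lit 0) (p (nat_lit 0x160004) (nat_lit 0) (p (nat_lit 0x60592) (nat_lit 0) (p (nat_lit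 0x48512) (nat_lit 0) (p (nat_lit 0x50392) (nat_lit 0) (p (nat_lit 0x38312) (nat_lit 0) (p (nat_lit 0x40212) (nat_lit 0) (p (nat_lit 0x28192) (nat_lit 0) (p (nat_lit 0x30092) (nat_lit 0) (p (nat_lit 0x18012) (nat_lit 0) pn)))))))))))))))))))))))))) :=
  Cl.node (nat_lit 0x111) (nat_lit 2) (by decide +kernel) (ClAll.succ (ClAll.succ ClAll.zero n0) s9)

def n5 : Cl (O (nat_lit 2)) (R (nat_lit 139473))
    (p (nat_lit 0xb0004) (nat_lit 0) (p (nat_lit 0x20000c) (nat_lit 1) (p (nat_lit 0xc9) (nat_lit 1) (p (nat_lit 0xc1) (nat_lit 0) (p (nat_lit 0x81) (nat_lit 1) (p (nat_lit 0x101) (nat_lit 1) (p (nat_lit 0x119) (nat_lit 0) (p (nat_lit 0xd1) (nat_lit 0) (p (nat_lit 0x89) (nat_lit 0) (p (nat_lit 0x41) (nat_lit 0) (p (nat_lit 0x89080788869a) (nat_lit 0) (p (nat_lit 0x88878706861a) (nat_lit 0) (p (nat_lit 0x80000000080687858a) (nat_lit 0) (p (nat_lit 0x80000000078605850a) (nat_lit 0) (p (nat_lit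 0x8605868482) (nat_lit 0) (p (nat_lit 0x8585048402) (nat_lit 0) (p (nat_lit 0x160014) (nat_lit 0) (p (nat_lit 0x160004) (nat_lit 0) (p (nat_lit 0x60592) (nat_lit 0) (p (nat_lit 0x48512) (nat_lit 0) (p (nat_lit 0x50392) (nat_lit 0) (p (nat_lit 0x38312) (nat_lit 0) (p (nat_lit 0x40212) (nat_lit 0) (p (nat_lit 0x28192) (nat_lit 0) (p (nat_lit 0x30092) (nat_lit 0) (p (nat_lit 0x18012) (nat_lit 0) pn)))))))))))))))))))))))))) :=
  Cl.node (nat_lit 0xb0014) (nat_lit 2) (by decide +kernel) (ClAll.succ (ClAll.succ ClAll.zero n1) s17)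

def n6 : Cl (O (nat_lit 2)) (R (nat_lit 139473))
    (p (nat_lit 0xb0014) (nat_lit 0) (p (nat_lit 0xb0004) (nat_lit 0) (p (nat_lit 0x20000c) (nat_lit 1) (p (nat_lit 0xc1) (nat_lit 0) (p (nat_lit 0x81) (nat_lit 1) (p (nat_lit 0x101) (nat_lit 1) (p (nat_lit 0x111) (nat_lit 0) (p (nat_lit 0xd1) (nat_lit 1) (p (nat_lit 0x89) (nat_lit 0) (p (nat_lit 0x41) (nat_lit 0) (p (nat_lit 0x89080788869a) (nat_lit 0) (p (nat_lit 0x88878706861a) (nat_lit 0) (p (nat_lit 0x80000000080687858a) (nat_lit 0) (p (nat_lit 0x80000000078605850a) (nat_lit 0) (p (nat_lit 0x8605868482) (nat_lit 0) (p (nat_lit 0x8585048402) (nat_lit 0) (p (nat_lit 0x160014) (nat_lit 0) (p (nat_lit 0x160004) (nat_lit 0) (p (nat_lit 0x60592) (nat_lit 0) (p (nat_lit 0x48512) (nat_lit 0) (p (nat_lit 0x50392) (nat_lit 0) (p (nat_lit 0x38312) (nat_lit 0) (p (nat_lit 0x40212) (nat_lit 0) (p (nat_lit 0x28192) (nat_lit 0) (p (nat_lit 0x30092)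 (nat_lit 0) (p (nat_lit 0x18012) (nat_lit 0) pn)))))))))))))))))))))))))) :=
  Cl.node (nat_lit 0x119) (nat_lit 2) (by decide +kernel) (ClAll.succ (ClAll.succ ClAll.zero s39) n2)

def n7 : Cl (O (nat_lit 2)) (R (nat_lit 139473))
    (p (nat_lit 0xb0014) (nat_lit 0) (p (nat_lit 0xb0004) (nat_lit 0) (p (nat_lit 0x20000c) (nat_lit 1) (p (nat_lit 0xd1) (nat_lit 1) (p (nat_lit 0x109) (nat_lit 1) (p (nat_lit 0x101) (nat_lit 0) (p (nat_lit 0x119) (nat_lit 0) (p (nat_lit 0xc9) (nat_lit 0) (p (nat_lit 0x89) (nat_lit 1) (p (nat_lit 0x41) (nat_lit 0) (p (nat_lit 0x89080788869a) (nat_lit 0) (p (nat_lit 0x88878706861a) (nat_lit 0) (p (nat_lit 0x80000000080687858a) (nat_lit 0) (p (nat_lit 0x80000000078605850a) (nat_lit 0) (p (nat_lit 0x8605868482) (nat_lit 0) (p (nat_lit 0x8585048402) (nat_lit 0) (p (nat_lit 0x160014) (nat_lit 0) (p (nat_lit 0x160004) (nat_lit 0) (p (nat_lit 0x60592) (nat_lit 0)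 (p (nat_lit 0x48512) (nat_lit 0) (p (nat_lit 0x50392) (nat_lit 0) (p (nat_lit 0x38312) (nat_lit 0) (p (nat_lit 0x40212) (nat_lit 0) (p (nat_lit 0x28192) (nat_lit 0) (p (nat_lit 0x30092) (nat_lit 0) (p (nat_lit 0x18012) (nat_lit 0) pn)))))))))))))))))))))))))) :=
  Cl.node (nat_lit 0x41) (nat_lit 2) (by decide +kernel) (ClAll.succ (ClAll.succ ClAll.zero s53) s54)

def n8 : Cl (O (nat_lit 2)) (R (nat_lit 139473))
    (p (nat_lit 0xb0014) (nat_lit 0) (p (nat_lit 0xb0004) (nat_lit 0) (p (nat_lit 0x20000c) (nat_lit 1) (p (nat_lit 0x89) (nat_lit 1) (p (nat_lit 0xc1) (nat_lit 1) (p (nat_lit 0x101) (nat_lit 1) (p (nat_lit 0x119) (nat_lit 0) (p (nat_lit 0xd1) (nat_lit 0) (p (nat_lit 0x81) (nat_lit 0) (p (nat_lit 0x41) (nat_lit 1) (p (nat_lit 0x89080788869a) (nat_lit 0) (p (nat_lit 0x88878706861a) (nat_lit 0) (p (nat_lit 0x80000000080687858a) (nat_lit 0) (p (nat_lit 0x80000000078605850a) (nat_lit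 0) (p (nat_lit 0x8605868482) (nat_lit 0) (p (nat_lit 0x8585048402) (nat_lit 0) (p (nat_lit 0x160014) (nat_lit 0) (p (nat_lit 0x160004) (nat_lit 0) (p (nat_lit 0x60592) (nat_lit 0) (p (nat_lit 0x48512) (nat_lit 0) (p (nat_lit 0x50392) (nat_lit 0) (p (nat_lit 0x38312) (nat_lit 0) (p (nat_lit 0x40212) (nat_lit 0) (p (nat_lit 0x28192) (nat_lit 0) (p (nat_lit 0x30092) (nat_lit 0) (p (nat_lit 0x18012) (nat_lit 0) pn)))))))))))))))))))))))))) :=
  Cl.node (nat_lit 0x109) (nat_lit 2) (by decide +kernel) (ClAll.succ (ClAll.succ ClAll.zero s84) s85)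

def n9 : Cl (O (nat_lit 2)) (R (nat_lit 139473))
    (p (nat_lit 0xb0004) (nat_lit 0) (p (nat_lit 0x20000c) (nat_lit 0) (p (nat_lit 0x109) (nat_lit 1) (p (nat_lit 0x89) (nat_lit 1) (p (nat_lit 0x101) (nat_lit 0) (p (nat_lit 0xc1) (nat_lit 1) (p (nat_lit 0x119) (nat_lit 1) (p (nat_lit 0xd1) (nat_lit 0) (p (nat_lit 0x81) (nat_lit 0) (p (nat_lit 0x41) (nat_lit 1) (p (nat_lit 0x89080788869a) (nat_lit 0) (p (nat_lit 0x88878706861a) (nat_lit 0) (p (nat_lit 0x80000000080687858a) (nat_lit 0) (p (nat_lit 0x80000000078605850a) (nat_lit 0) (p (nat_lit 0x8605868482) (nat_lit 0) (p (nat_lit 0x8585048402) (nat_lit 0) (p (nat_lit 0x160014) (nat_lit 0) (p (nat_lit 0x160004) (nat_lit 0) (p (nat_lit 0x60592) (nat_lit 0) (p (nat_lit 0x48512) (nat_lit 0) (p (nat_lit 0x50392) (nat_lit 0) (p (nat_lit 0x38312) (nat_lit 0) (p (nat_lit 0x40212) (nat_lit 0) (p (nat_lit 0x28192) (nat_lit 0) (p (nat_lit 0x30092)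 (nat_lit 0) (p (nat_lit 0x18012) (nat_lit 0) pn)))))))))))))))))))))))))) :=
  Cl.node (nat_lit 0xb0014) (nat_lit 2) (by decide +kernel) (ClAll.succ (ClAll.succ ClAll.zero s97) s98)

def n10 : Cl (O (nat_lit 2)) (R (nat_lit 139473))
    (p (nat_lit 0xb0004) (nat_lit 0) (p (nat_lit 0x20000c) (nat_lit 1) (p (nat_lit 0xc9) (nat_lit 0) (p (nat_lit 0x89) (nat_lit 1) (p (nat_lit 0x109) (nat_lit 1) (p (nat_lit 0x101) (nat_lit 0) (p (nat_lit 0x111) (nat_lit 0) (p (nat_lit 0xd1) (nat_lit 1) (p (nat_lit 0x81) (nat_lit 0) (p (nat_lit 0x41) (nat_lit 1) (p (nat_lit 0x89080788869a) (nat_lit 0) (p (nat_lit 0x88878706861a) (nat_lit 0) (p (nat_lit 0x80000000080687858a) (nat_lit 0) (p (nat_lit 0x80000000078605850a) (nat_lit 0) (p (nat_lit 0x8605868482) (nat_lit 0) (p (nat_lit 0x8585048402) (nat_lit 0) (p (nat_lit 0x160014) (nat_lit 0) (p (nat_lit 0x160004) (nat_lit 0) (p (nat_lit 0x60592) (nat_lit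 0) (p (nat_lit 0x48512) (nat_lit 0) (p (nat_lit 0x50392) (nat_lit 0) (p (nat_lit 0x38312) (nat_lit 0) (p (nat_lit 0x40212) (nat_lit 0) (p (nat_lit 0x28192) (nat_lit 0) (p (nat_lit 0x30092) (nat_lit 0) (p (nat_lit 0x18012) (nat_lit 0) pn)))))))))))))))))))))))))) :=
  Cl.node (nat_lit 0xb0014) (nat_lit 2) (by decide +kernel) (ClAll.succ (ClAll.succ ClAll.zero n3) s110)

def n11 : Cl (O (nat_lit 2)) (R (nat_lit 139473))
    (p (nat_lit 0xb0014) (nat_lit 0) (p (nat_lit 0xb0004) (nat_lit 0) (p (nat_lit 0x20000c) (nat_lit 1) (p (nat_lit 0xd1) (nat_lit 0) (p (nat_lit 0xc9) (nat_lit 0) (p (nat_lit 0x101) (nat_lit 1) (p (nat_lit 0x119) (nat_lit 0) (p (nat_lit 0xc1) (nat_lit 0) (p (nat_lit 0x81) (nat_lit 1) (p (nat_lit 0x41) (nat_lit 1) (p (nat_lit 0x89080788869a) (nat_lit 0) (p (nat_lit 0x88878706861a) (nat_lit 0) (p (nat_lit 0x80000000080687858a) (nat_lit 0) (p (nat_lit 0x80000000078605850a)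 (nat_lit 0) (p (nat_lit 0x8605868482) (nat_lit 0) (p (nat_lit 0x8585048402) (nat_lit 0) (p (nat_lit 0x160014) (nat_lit 0) (p (nat_lit 0x160004) (nat_lit 0) (p (nat_lit 0x60592) (nat_lit 0) (p (nat_lit 0x48512) (nat_lit 0) (p (nat_lit 0x50392) (nat_lit 0) (p (nat_lit 0x38312) (nat_lit 0) (p (nat_lit 0x40212) (nat_lit 0) (p (nat_lit 0x28192) (nat_lit 0) (p (nat_lit 0x30092) (nat_lit 0) (p (nat_lit 0x18012) (nat_lit 0) pn)))))))))))))))))))))))))) :=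
  Cl.node (nat_lit 0xc1) (nat_lit 2) (by decide +kernel) (ClAll.succ (ClAll.succ ClAll.zero s133) s134)

def n12 : Cl (O (nat_lit 2)) (R (nat_lit 139473))
    (p (nat_lit 0xb0014) (nat_lit 0) (p (nat_lit 0xb0004) (nat_lit 0) (p (nat_lit 0x20000c) (nat_lit 1) (p (nat_lit 0xd1) (nat_lit 1) (p (nat_lit 0xc9) (nat_lit 0) (p (nat_lit 0x101) (nat_lit 1) (p (nat_lit 0x119) (nat_lit 0) (p (nat_lit 0xc1) (nat_lit 0) (p (nat_lit 0x81) (nat_lit 1) (p (nat_lit 0x41) (nat_lit 1) (p (nat_lit 0x89080788869a) (nat_lit 0) (p (nat_lit 0x88878706861a) (nat_lit 0) (p (nat_lit 0x80000000080687858a) (nat_lit 0) (p (nat_lit 0x80000000078605850a) (nat_lit 0) (p (nat_lit 0x8605868482) (nat_lit 0) (p (nat_lit 0x8585048402) (nat_lit 0) (p (nat_lit 0x160014) (nat_lit 0) (p (nat_lit 0x160004) (nat_lit 0) (p (nat_lit 0x60592) (nat_lit 0) (p (nat_lit 0x48512) (nat_lit 0) (p (nat_lit 0x50392) (nat_lit 0) (p (nat_lit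 0x38312) (nat_lit 0) (p (nat_lit 0x40212) (nat_lit 0) (p (nat_lit 0x28192) (nat_lit 0) (p (nat_lit 0x30092) (nat_lit 0) (p (nat_lit 0x18012) (nat_lit 0) pn)))))))))))))))))))))))))) :=
  Cl.node (nat_lit 0x111) (nat_lit 2) (by decide +kernel) (ClAll.succ (ClAll.succ ClAll.zero s140) s141)

def n13 : Cl (O (nat_lit 2)) (R (nat_lit 139473))
    (p (nat_lit 0xb0004) (nat_lit 0) (p (nat_lit 0x20000c) (nat_lit 1) (p (nat_lit 0xc9) (nat_lit 1) (p (nat_lit 0x81) (nat_lit 0) (p (nat_lit 0x101) (nat_lit 1) (p (nat_lit 0x119) (nat_lit 0) (p (nat_lit 0xd1) (nat_lit 0) (p (nat_lit 0x89) (nat_lit 0) (p (nat_lit 0x41) (nat_lit 0) (p (nat_lit 0x89080788869a) (nat_lit 0) (p (nat_lit 0x88878706861a) (nat_lit 0) (p (nat_lit 0x80000000080687858a) (nat_lit 0) (p (nat_lit 0x80000000078605850a) (nat_lit 0) (p (nat_lit 0x8605868482) (nat_lit 0) (p (nat_lit 0x8585048402) (nat_lit 0) (p (nat_lit 0x160014)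 (nat_lit 0) (p (nat_lit 0x160004) (nat_lit 0) (p (nat_lit 0x60592) (nat_lit 0) (p (nat_lit 0x48512) (nat_lit 0) (p (nat_lit 0x50392) (nat_lit 0) (p (nat_lit 0x38312) (nat_lit 0) (p (nat_lit 0x40212) (nat_lit 0) (p (nat_lit 0x28192) (nat_lit 0) (p (nat_lit 0x30092) (nat_lit 0) (p (nat_lit 0x18012) (nat_lit 0) pn))))))))))))))))))))))))) :=
  Cl.node (nat_lit 0xb0014) (nat_lit 2) (by decide +kernel) (ClAll.succ (ClAll.succ ClAll.zero n4) s10)

def n14 : Cl (O (nat_lit 2)) (R (nat_lit 139473))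
    (p (nat_lit 0x20000c) (nat_lit 1) (p (nat_lit 0xc9) (nat_lit 1) (p (nat_lit 0xc1) (nat_lit 0) (p (nat_lit 0x81) (nat_lit 1) (p (nat_lit 0x101) (nat_lit 1) (p (nat_lit 0x119) (nat_lit 0) (p (nat_lit 0xd1) (nat_lit 0) (p (nat_lit 0x89) (nat_lit 0) (p (nat_lit 0x41) (nat_lit 0) (p (nat_lit 0x89080788869a) (nat_lit 0) (p (nat_lit 0x88878706861a) (nat_lit 0) (p (nat_lit 0x80000000080687858a) (nat_lit 0) (p (nat_lit 0x80000000078605850a) (nat_lit 0) (p (nat_lit 0x8605868482) (nat_lit 0) (p (nat_lit 0x8585048402) (nat_lit 0) (p (nat_lit 0x160014) (nat_lit 0) (p (nat_lit 0x160004) (nat_lit 0) (p (nat_lit 0x60592) (nat_lit 0) (p (nat_lit 0x48512) (nat_lit 0) (p (nat_lit 0x50392) (nat_lit 0) (p (nat_lit 0x38312) (nat_lit 0) (p (nat_lit 0x40212) (nat_lit 0) (p (nat_lit 0x28192) (nat_lit 0) (p (nat_lit 0x30092) (nat_lit 0) (p (nat_lit 0x18012) (nat_lit 0) pn))))))))))))))))))))))))) :=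
  Cl.node (nat_lit 0xb0004) (nat_lit 2) (by decide +kernel) (ClAll.succ (ClAll.succ ClAll.zero n5) s18)

def n15 : Cl (O (nat_lit 2)) (R (nat_lit 139473))
    (p (nat_lit 0xb0014) (nat_lit 0) (p (nat_lit 0xb0004) (nat_lit 0) (p (nat_lit 0x20000c) (nat_lit 1) (p (nat_lit 0x81) (nat_lit 0) (p (nat_lit 0x101) (nat_lit 1) (p (nat_lit 0x111) (nat_lit 0) (p (nat_lit 0xd1) (nat_lit 1) (p (nat_lit 0x89) (nat_lit 0) (p (nat_lit 0x41) (nat_lit 0) (p (nat_lit 0x89080788869a) (nat_lit 0) (p (nat_lit 0x88878706861a) (nat_lit 0) (p (nat_lit 0x80000000080687858a) (nat_lit 0) (p (nat_lit 0x80000000078605850a) (nat_lit 0) (p (nat_lit 0x8605868482) (nat_lit 0) (p (nat_lit 0x8585048402) (nat_lit 0) (p (nat_lit 0x160014) (nat_lit 0) (p (nat_lit 0x160004) (nat_lit 0) (p (nat_lit 0x60592) (nat_lit 0) (p (nat_lit 0x48512) (nat_lit 0) (p (nat_lit 0x50392) (nat_lit 0) (p (nat_lit 0x38312) (nat_lit 0) (p (nat_lit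 0x40212) (nat_lit 0) (p (nat_lit 0x28192) (nat_lit 0) (p (nat_lit 0x30092) (nat_lit 0) (p (nat_lit 0x18012) (nat_lit 0) pn))))))))))))))))))))))))) :=
  Cl.node (nat_lit 0x119) (nat_lit 2) (by decide +kernel) (ClAll.succ (ClAll.succ ClAll.zero s33) s34)

def n16 : Cl (O (nat_lit 2)) (R (nat_lit 139473))
    (p (nat_lit 0xb0004) (nat_lit 0) (p (nat_lit 0x20000c) (nat_lit 1) (p (nat_lit 0xc1) (nat_lit 0) (p (nat_lit 0x81) (nat_lit 1) (p (nat_lit 0x101) (nat_lit 1) (p (nat_lit 0x111) (nat_lit 0) (p (nat_lit 0xd1) (nat_lit 1) (p (nat_lit 0x89) (nat_lit 0) (p (nat_lit 0x41) (nat_lit 0) (p (nat_lit 0x89080788869a) (nat_lit 0) (p (nat_lit 0x88878706861a) (nat_lit 0) (p (nat_lit 0x80000000080687858a) (nat_lit 0) (p (nat_lit 0x80000000078605850a) (nat_lit 0) (p (nat_lit 0x8605868482) (nat_lit 0) (p (nat_lit 0x8585048402) (nat_lit 0) (p (nat_lit 0x160014) (nat_lit 0) (p (nat_lit 0x160004) (nat_lit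 0) (p (nat_lit 0x60592) (nat_lit 0) (p (nat_lit 0x48512) (nat_lit 0) (p (nat_lit 0x50392) (nat_lit 0) (p (nat_lit 0x38312) (nat_lit 0) (p (nat_lit 0x40212) (nat_lit 0) (p (nat_lit 0x28192) (nat_lit 0) (p (nat_lit 0x30092) (nat_lit 0) (p (nat_lit 0x18012) (nat_lit 0) pn))))))))))))))))))))))))) :=
  Cl.node (nat_lit 0xb0014) (nat_lit 2) (by decide +kernel) (ClAll.succ (ClAll.succ ClAll.zero n6) s42)

def n17 : Cl (O (nat_lit 2)) (R (nat_lit 139473))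
    (p (nat_lit 0xb0004) (nat_lit 0) (p (nat_lit 0x20000c) (nat_lit 1) (p (nat_lit 0xd1) (nat_lit 1) (p (nat_lit 0x109) (nat_lit 1) (p (nat_lit 0x101) (nat_lit 0) (p (nat_lit 0x119) (nat_lit 0) (p (nat_lit 0xc9) (nat_lit 0) (p (nat_lit 0x89) (nat_lit 1) (p (nat_lit 0x41) (nat_lit 0) (p (nat_lit 0x89080788869a) (nat_lit 0) (p (nat_lit 0x88878706861a) (nat_lit 0) (p (nat_lit 0x80000000080687858a) (nat_lit 0) (p (nat_lit 0x80000000078605850a) (nat_lit 0) (p (nat_lit 0x8605868482) (nat_lit 0) (p (nat_lit 0x8585048402) (nat_lit 0) (p (nat_lit 0x160014) (nat_lit 0) (p (nat_lit 0x160004) (nat_lit 0) (p (nat_lit 0x60592) (nat_lit 0) (p (nat_lit 0x48512) (nat_lit 0) (p (nat_lit 0x50392) (nat_lit 0) (p (nat_lit 0x38312) (nat_lit 0) (p (nat_lit 0x40212) (nat_lit 0) (p (nat_lit 0x28192) (nat_lit 0) (p (nat_lit 0x30092) (nat_lit 0) (p (nat_lit 0x18012) (nat_lit 0) pn))))))))))))))))))))))))) :=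
  Cl.node (nat_lit 0xb0014) (nat_lit 2) (by decide +kernel) (ClAll.succ (ClAll.succ ClAll.zero n7) s55)

def n18 : Cl (O (nat_lit 2)) (R (nat_lit 139473))
    (p (nat_lit 0xb0004) (nat_lit 0) (p (nat_lit 0x20000c) (nat_lit 1) (p (nat_lit 0x89) (nat_lit 1) (p (nat_lit 0xc1) (nat_lit 1) (p (nat_lit 0x101) (nat_lit 1) (p (nat_lit 0x119) (nat_lit 0) (p (nat_lit 0xd1) (nat_lit 0) (p (nat_lit 0x81) (nat_lit 0) (p (nat_lit 0x41) (nat_lit 1) (p (nat_lit 0x89080788869a) (nat_lit 0) (p (nat_lit 0x88878706861a) (nat_lit 0) (p (nat_lit 0x80000000080687858a) (nat_lit 0) (p (nat_lit 0x80000000078605850a) (nat_lit 0) (p (nat_lit 0x8605868482) (nat_lit 0) (p (nat_lit 0x8585048402) (nat_lit 0) (p (nat_lit 0x160014) (nat_lit 0) (p (nat_lit 0x160004) (nat_lit 0) (p (nat_lit 0x60592) (nat_lit 0) (p (nat_lit 0x48512) (nat_lit 0) (p (nat_lit 0x50392) (nat_lit 0) (p (nat_lit 0x38312) (nat_lit 0) (p (nat_lit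 0x40212) (nat_lit 0) (p (nat_lit 0x28192) (nat_lit 0) (p (nat_lit 0x30092) (nat_lit 0) (p (nat_lit 0x18012) (nat_lit 0) pn))))))))))))))))))))))))) :=
  Cl.node (nat_lit 0xb0014) (nat_lit 2) (by decide +kernel) (ClAll.succ (ClAll.succ ClAll.zero n8) s86)

def n19 : Cl (O (nat_lit 2)) (R (nat_lit 139473))
    (p (nat_lit 0x20000c) (nat_lit 0) (p (nat_lit 0x109) (nat_lit 1) (p (nat_lit 0x89) (nat_lit 1) (p (nat_lit 0xc9) (nat_lit 1) (p (nat_lit 0xc1) (nat_lit 0) (p (nat_lit 0x119) (nat_lit 1) (p (nat_lit 0xd1) (nat_lit 0) (p (nat_lit 0x81) (nat_lit 0) (p (nat_lit 0x41) (nat_lit 1) (p (nat_lit 0x89080788869a) (nat_lit 0) (p (nat_lit 0x88878706861a) (nat_lit 0) (p (nat_lit 0x80000000080687858a) (nat_lit 0) (p (nat_lit 0x80000000078605850a) (nat_lit 0) (p (nat_lit 0x8605868482) (nat_lit 0) (p (nat_lit 0x8585048402) (nat_lit 0) (p (nat_lit 0x160014) (nat_lit 0) (p (nat_lit 0x160004) (nat_lit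 0) (p (nat_lit 0x60592) (nat_lit 0) (p (nat_lit 0x48512) (nat_lit 0) (p (nat_lit 0x50392) (nat_lit 0) (p (nat_lit 0x38312) (nat_lit 0) (p (nat_lit 0x40212) (nat_lit 0) (p (nat_lit 0x28192) (nat_lit 0) (p (nat_lit 0x30092) (nat_lit 0) (p (nat_lit 0x18012) (nat_lit 0) pn))))))))))))))))))))))))) :=
  Cl.node (nat_lit 0xb0004) (nat_lit 2) (by decide +kernel) (ClAll.succ (ClAll.succ ClAll.zero s92) s93)

def n20 : Cl (O (nat_lit 2)) (R (nat_lit 139473))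
    (p (nat_lit 0x20000c) (nat_lit 0) (p (nat_lit 0x109) (nat_lit 1) (p (nat_lit 0x89) (nat_lit 1) (p (nat_lit 0x101) (nat_lit 0) (p (nat_lit 0xc1) (nat_lit 1) (p (nat_lit 0x119) (nat_lit 1) (p (nat_lit 0xd1) (nat_lit 0) (p (nat_lit 0x81) (nat_lit 0) (p (nat_lit 0x41) (nat_lit 1) (p (nat_lit 0x89080788869a) (nat_lit 0) (p (nat_lit 0x88878706861a) (nat_lit 0) (p (nat_lit 0x80000000080687858a) (nat_lit 0) (p (nat_lit 0x80000000078605850a) (nat_lit 0) (p (nat_lit 0x8605868482) (nat_lit 0) (p (nat_lit 0x8585048402) (nat_lit 0) (p (nat_lit 0x160014) (nat_lit 0) (p (nat_lit 0x160004) (nat_lit 0) (p (nat_lit 0x60592) (nat_lit 0) (p (nat_lit 0x48512) (nat_lit 0) (p (nat_lit 0x50392) (nat_lit 0) (p (nat_lit 0x38312) (nat_lit 0) (p (nat_lit 0x40212) (nat_lit 0) (p (nat_lit 0x28192) (nat_lit 0) (p (nat_lit 0x30092) (nat_lit 0) (p (nat_lit 0x18012) (nat_lit 0) pn))))))))))))))))))))))))) :=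
  Cl.node (nat_lit 0xb0004) (nat_lit 2) (by decide +kernel) (ClAll.succ (ClAll.succ ClAll.zero n9) s99)

def n21 : Cl (O (nat_lit 2)) (R (nat_lit 139473))
    (p (nat_lit 0x20000c) (nat_lit 1) (p (nat_lit 0xc9) (nat_lit 0) (p (nat_lit 0x89) (nat_lit 1) (p (nat_lit 0x109) (nat_lit 1) (p (nat_lit 0x101) (nat_lit 0) (p (nat_lit 0x111) (nat_lit 0) (p (nat_lit 0xd1) (nat_lit 1) (p (nat_lit 0x81) (nat_lit 0) (p (nat_lit 0x41) (nat_lit 1) (p (nat_lit 0x89080788869a) (nat_lit 0) (p (nat_lit 0x88878706861a) (nat_lit 0) (p (nat_lit 0x80000000080687858a) (nat_lit 0) (p (nat_lit 0x80000000078605850a) (nat_lit 0) (p (nat_lit 0x8605868482) (nat_lit 0) (p (nat_lit 0x8585048402) (nat_lit 0) (p (nat_lit 0x160014) (nat_lit 0) (p (nat_lit 0x160004) (nat_lit 0) (p (nat_lit 0x60592) (nat_lit 0) (p (nat_lit 0x48512) (nat_lit 0) (p (nat_lit 0x50392) (nat_lit 0) (p (nat_lit 0x38312) (nat_lit 0) (p (nat_lit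 0x40212) (nat_lit 0) (p (nat_lit 0x28192) (nat_lit 0) (p (nat_lit 0x30092) (nat_lit 0) (p (nat_lit 0x18012) (nat_lit 0) pn))))))))))))))))))))))))) :=
  Cl.node (nat_lit 0xb0004) (nat_lit 2) (by decide +kernel) (ClAll.succ (ClAll.succ ClAll.zero n10) s111)

def n22 : Cl (O (nat_lit 2)) (R (nat_lit 139473))
    (p (nat_lit 0xb0014) (nat_lit 0) (p (nat_lit 0xb0004) (nat_lit 0) (p (nat_lit 0x20000c) (nat_lit 1) (p (nat_lit 0x89) (nat_lit 0) (p (nat_lit 0x101) (nat_lit 1) (p (nat_lit 0x111) (nat_lit 0) (p (nat_lit 0xd1) (nat_lit 1) (p (nat_lit 0x81) (nat_lit 0) (p (nat_lit 0x41) (nat_lit 1) (p (nat_lit 0x89080788869a) (nat_lit 0) (p (nat_lit 0x88878706861a) (nat_lit 0) (p (nat_lit 0x80000000080687858a) (nat_lit 0) (p (nat_lit 0x80000000078605850a) (nat_lit 0) (p (nat_lit 0x8605868482) (nat_lit 0) (p (nat_lit 0x8585048402) (nat_lit 0) (p (nat_lit 0x160014) (nat_lit 0) (p (nat_lit 0x160004)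 (nat_lit 0) (p (nat_lit 0x60592) (nat_lit 0) (p (nat_lit 0x48512) (nat_lit 0) (p (nat_lit 0x50392) (nat_lit 0) (p (nat_lit 0x38312) (nat_lit 0) (p (nat_lit 0x40212) (nat_lit 0) (p (nat_lit 0x28192) (nat_lit 0) (p (nat_lit 0x30092) (nat_lit 0) (p (nat_lit 0x18012) (nat_lit 0) pn))))))))))))))))))))))))) :=
  Cl.node (nat_lit 0x119) (nat_lit 2) (by decide +kernel) (ClAll.succ (ClAll.succ ClAll.zero s114) s115)

def n23 : Cl (O (nat_lit 2)) (R (nat_lit 139473))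
    (p (nat_lit 0xb0004) (nat_lit 0) (p (nat_lit 0x20000c) (nat_lit 1) (p (nat_lit 0xd1) (nat_lit 0) (p (nat_lit 0xc9) (nat_lit 0) (p (nat_lit 0x101) (nat_lit 1) (p (nat_lit 0x119) (nat_lit 0) (p (nat_lit 0xc1) (nat_lit 0) (p (nat_lit 0x81) (nat_lit 1) (p (nat_lit 0x41) (nat_lit 1) (p (nat_lit 0x89080788869a) (nat_lit 0) (p (nat_lit 0x88878706861a) (nat_lit 0) (p (nat_lit 0x80000000080687858a) (nat_lit 0) (p (nat_lit 0x80000000078605850a) (nat_lit 0) (p (nat_lit 0x8605868482) (nat_lit 0) (p (nat_lit 0x8585048402) (nat_lit 0) (p (nat_lit 0x160014) (nat_lit 0) (p (nat_lit 0x160004) (nat_lit 0) (p (nat_lit 0x60592) (nat_lit 0) (p (nat_lit 0x48512) (nat_lit 0) (p (nat_lit 0x50392) (nat_lit 0) (p (nat_lit 0x38312) (nat_lit 0) (p (nat_lit 0x40212) (nat_lit 0) (p (nat_lit 0x28192) (nat_lit 0) (p (nat_lit 0x30092) (nat_lit 0) (p (nat_lit 0x18012) (nat_lit 0) pn))))))))))))))))))))))))) :=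
  Cl.node (nat_lit 0xb0014) (nat_lit 2) (by decide +kernel) (ClAll.succ (ClAll.succ ClAll.zero n11) s135)

def n24 : Cl (O (nat_lit 2)) (R (nat_lit 139473))
    (p (nat_lit 0xb0004) (nat_lit 0) (p (nat_lit 0x20000c) (nat_lit 0) (p (nat_lit 0xd1) (nat_lit 1) (p (nat_lit 0xc9) (nat_lit 0) (p (nat_lit 0x101) (nat_lit 1) (p (nat_lit 0x119) (nat_lit 0) (p (nat_lit 0xc1) (nat_lit 0) (p (nat_lit 0x81) (nat_lit 1) (p (nat_lit 0x41) (nat_lit 1) (p (nat_lit 0x89080788869a) (nat_lit 0) (p (nat_lit 0x88878706861a) (nat_lit 0) (p (nat_lit 0x80000000080687858a) (nat_lit 0) (p (nat_lit 0x80000000078605850a) (nat_lit 0) (p (nat_lit 0x8605868482) (nat_lit 0) (p (nat_lit 0x8585048402) (nat_lit 0) (p (nat_lit 0x160014) (nat_lit 0) (p (nat_lit 0x160004) (nat_lit 0) (p (nat_lit 0x60592) (nat_lit 0) (p (nat_lit 0x48512) (nat_lit 0) (p (nat_lit 0x50392) (nat_lit 0) (p (nat_lit 0x38312) (nat_lit 0) (p (nat_lit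 0x40212) (nat_lit 0) (p (nat_lit 0x28192) (nat_lit 0) (p (nat_lit 0x30092) (nat_lit 0) (p (nat_lit 0x18012) (nat_lit 0) pn))))))))))))))))))))))))) :=
  Cl.node (nat_lit 0xb0014) (nat_lit 2) (by decide +kernel) (ClAll.succ (ClAll.succ ClAll.zero s137) s138)

def n25 : Cl (O (nat_lit 2)) (R (nat_lit 139473))
    (p (nat_lit 0xb0004) (nat_lit 0) (p (nat_lit 0x20000c) (nat_lit 1) (p (nat_lit 0xd1) (nat_lit 1) (p (nat_lit 0xc9) (nat_lit 0) (p (nat_lit 0x101) (nat_lit 1) (p (nat_lit 0x119) (nat_lit 0) (p (nat_lit 0xc1) (nat_lit 0) (p (nat_lit 0x81) (nat_lit 1) (p (nat_lit 0x41) (nat_lit 1) (p (nat_lit 0x89080788869a) (nat_lit 0) (p (nat_lit 0x88878706861a) (nat_lit 0) (p (nat_lit 0x80000000080687858a) (nat_lit 0) (p (nat_lit 0x80000000078605850a) (nat_lit 0) (p (nat_lit 0x8605868482) (nat_lit 0) (p (nat_lit 0x8585048402) (nat_lit 0) (p (nat_lit 0x160014) (nat_lit 0) (p (nat_lit 0x160004)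 (nat_lit 0) (p (nat_lit 0x60592) (nat_lit 0) (p (nat_lit 0x48512) (nat_lit 0) (p (nat_lit 0x50392) (nat_lit 0) (p (nat_lit 0x38312) (nat_lit 0) (p (nat_lit 0x40212) (nat_lit 0) (p (nat_lit 0x28192) (nat_lit 0) (p (nat_lit 0x30092) (nat_lit 0) (p (nat_lit 0x18012) (nat_lit 0) pn))))))))))))))))))))))))) :=
  Cl.node (nat_lit 0xb0014) (nat_lit 2) (by decide +kernel) (ClAll.succ (ClAll.succ ClAll.zero n12) s142)

def n26 : Cl (O (nat_lit 2)) (R (nat_lit 139473))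
    (p (nat_lit 0xb0004) (nat_lit 0) (p (nat_lit 0x20000c) (nat_lit 0) (p (nat_lit 0x111) (nat_lit 1) (p (nat_lit 0xd1) (nat_lit 1) (p (nat_lit 0xc9) (nat_lit 0) (p (nat_lit 0x119) (nat_lit 1) (p (nat_lit 0xc1) (nat_lit 0) (p (nat_lit 0x81) (nat_lit 1) (p (nat_lit 0x41) (nat_lit 1) (p (nat_lit 0x89080788869a) (nat_lit 0) (p (nat_lit 0x88878706861a) (nat_lit 0) (p (nat_lit 0x80000000080687858a) (nat_lit 0) (p (nat_lit 0x80000000078605850a) (nat_lit 0) (p (nat_lit 0x8605868482) (nat_lit 0) (p (nat_lit 0x8585048402) (nat_lit 0) (p (nat_lit 0x160014) (nat_lit 0) (p (nat_lit 0x160004) (nat_lit 0) (p (nat_lit 0x60592) (nat_lit 0) (p (nat_lit 0x48512) (nat_lit 0) (p (nat_lit 0x50392) (nat_lit 0) (p (nat_lit 0x38312) (nat_lit 0) (p (nat_lit 0x40212) (nat_lit 0) (p (nat_lit 0x28192) (nat_lit 0) (p (nat_lit 0x30092) (nat_lit 0) (p (nat_lit 0x18012) (nat_lit 0) pn))))))))))))))))))))))))) :=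
  Cl.node (nat_lit 0xb0014) (nat_lit 2) (by decide +kernel) (ClAll.succ (ClAll.succ ClAll.zero s148) s149)

def n27 : Cl (O (nat_lit 2)) (R (nat_lit 139473))
    (p (nat_lit 0x20000c) (nat_lit 1) (p (nat_lit 0xc9) (nat_lit 1) (p (nat_lit 0x81) (nat_lit 0) (p (nat_lit 0x101) (nat_lit 1) (p (nat_lit 0x119) (nat_lit 0) (p (nat_lit 0xd1) (nat_lit 0) (p (nat_lit 0x89) (nat_lit 0) (p (nat_lit 0x41) (nat_lit 0) (p (nat_lit 0x89080788869a) (nat_lit 0) (p (nat_lit 0x88878706861a) (nat_lit 0) (p (nat_lit 0x80000000080687858a) (nat_lit 0) (p (nat_lit 0x80000000078605850a) (nat_lit 0) (p (nat_lit 0x8605868482) (nat_lit 0) (p (nat_lit 0x8585048402) (nat_lit 0) (p (nat_lit 0x160014) (nat_lit 0) (p (nat_lit 0x160004) (nat_lit 0) (p (nat_lit 0x60592) (nat_lit 0) (p (nat_lit 0x48512) (nat_lit 0) (p (nat_lit 0x50392) (nat_lit 0) (p (nat_lit 0x38312) (nat_lit 0) (p (nat_lit 0x40212) (nat_lit 0) (p (nat_lit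 0x28192) (nat_lit 0) (p (nat_lit 0x30092) (nat_lit 0) (p (nat_lit 0x18012) (nat_lit 0) pn)))))))))))))))))))))))) :=
  Cl.node (nat_lit 0xb0004) (nat_lit 2) (by decide +kernel) (ClAll.succ (ClAll.succ ClAll.zero n13) s11)

def n28 : Cl (O (nat_lit 2)) (R (nat_lit 139473))
    (p (nat_lit 0xc9) (nat_lit 0) (p (nat_lit 0xc1) (nat_lit 0) (p (nat_lit 0x81) (nat_lit 1) (p (nat_lit 0x101) (nat_lit 1) (p (nat_lit 0x119) (nat_lit 0) (p (nat_lit 0xd1) (nat_lit 0) (p (nat_lit 0x89) (nat_lit 0) (p (nat_lit 0x41) (nat_lit 0) (p (nat_lit 0x89080788869a) (nat_lit 0) (p (nat_lit 0x88878706861a) (nat_lit 0) (p (nat_lit 0x80000000080687858a) (nat_lit 0) (p (nat_lit 0x80000000078605850a) (nat_lit 0) (p (nat_lit 0x8605868482) (nat_lit 0) (p (nat_lit 0x8585048402) (nat_lit 0) (p (nat_lit 0x160014) (nat_lit 0) (p (nat_lit 0x160004) (nat_lit 0) (p (nat_lit 0x60592) (nat_lit 0) (p (nat_lit 0x48512) (nat_lit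 0) (p (nat_lit 0x50392) (nat_lit 0) (p (nat_lit 0x38312) (nat_lit 0) (p (nat_lit 0x40212) (nat_lit 0) (p (nat_lit 0x28192) (nat_lit 0) (p (nat_lit 0x30092) (nat_lit 0) (p (nat_lit 0x18012) (nat_lit 0) pn)))))))))))))))))))))))) :=
  Cl.node (nat_lit 0x20000c) (nat_lit 2) (by decide +kernel) (ClAll.succ (ClAll.succ ClAll.zero s12) s13)

def n29 : Cl (O (nat_lit 2)) (R (nat_lit 139473))
    (p (nat_lit 0xc9) (nat_lit 1) (p (nat_lit 0xc1) (nat_lit 0) (p (nat_lit 0x81) (nat_lit 1) (p (nat_lit 0x101) (nat_lit 1) (p (nat_lit 0x119) (nat_lit 0) (p (nat_lit 0xd1) (nat_lit 0) (p (nat_lit 0x89) (nat_lit 0) (p (nat_lit 0x41) (nat_lit 0) (p (nat_lit 0x89080788869a) (nat_lit 0) (p (nat_lit 0x88878706861a) (nat_lit 0) (p (nat_lit 0x80000000080687858a) (nat_lit 0) (p (nat_lit 0x80000000078605850a) (nat_lit 0) (p (nat_lit 0x8605868482) (nat_lit 0) (p (nat_lit 0x8585048402) (nat_lit 0) (p (nat_lit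 0x160014) (nat_lit 0) (p (nat_lit 0x160004) (nat_lit 0) (p (nat_lit 0x60592) (nat_lit 0) (p (nat_lit 0x48512) (nat_lit 0) (p (nat_lit 0x50392) (nat_lit 0) (p (nat_lit 0x38312) (nat_lit 0) (p (nat_lit 0x40212) (nat_lit 0) (p (nat_lit 0x28192) (nat_lit 0) (p (nat_lit 0x30092) (nat_lit 0) (p (nat_lit 0x18012) (nat_lit 0) pn)))))))))))))))))))))))) :=
  Cl.node (nat_lit 0x20000c) (nat_lit 2) (by decide +kernel) (ClAll.succ (ClAll.succ ClAll.zero s14) n14)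

def n30 : Cl (O (nat_lit 2)) (R (nat_lit 139473))
    (p (nat_lit 0x109) (nat_lit 0) (p (nat_lit 0x101) (nat_lit 0) (p (nat_lit 0x81) (nat_lit 1) (p (nat_lit 0xc1) (nat_lit 1) (p (nat_lit 0x119) (nat_lit 1) (p (nat_lit 0xd1) (nat_lit 0) (p (nat_lit 0x89) (nat_lit 0) (p (nat_lit 0x41) (nat_lit 0) (p (nat_lit 0x89080788869a) (nat_lit 0) (p (nat_lit 0x88878706861a) (nat_lit 0) (p (nat_lit 0x80000000080687858a) (nat_lit 0) (p (nat_lit 0x80000000078605850a) (nat_lit 0) (p (nat_lit 0x8605868482) (nat_lit 0) (p (nat_lit 0x8585048402) (nat_lit 0) (p (nat_lit 0x160014) (nat_lit 0) (p (nat_lit 0x160004) (nat_lit 0) (p (nat_lit 0x60592) (nat_lit 0) (p (nat_lit 0x48512) (nat_lit 0) (p (nat_lit 0x50392) (nat_lit 0) (p (nat_lit 0x38312) (nat_lit 0) (p (nat_lit 0x40212) (nat_lit 0) (p (nat_lit 0x28192) (nat_lit 0) (p (nat_lit 0x30092) (nat_lit 0) (p (nat_lit 0x18012) (nat_lit 0) pn))))))))))))))))))))))))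 :=
  Cl.node (nat_lit 0x20000c) (nat_lit 2) (by decide +kernel) (ClAll.succ (ClAll.succ ClAll.zero s23) s24)

def n31 : Cl (O (nat_lit 2)) (R (nat_lit 139473))
    (p (nat_lit 0x109) (nat_lit 1) (p (nat_lit 0x101) (nat_lit 0) (p (nat_lit 0x81) (nat_lit 1) (p (nat_lit 0xc1) (nat_lit 1) (p (nat_lit 0x119) (nat_lit 1) (p (nat_lit 0xd1) (nat_lit 0) (p (nat_lit 0x89) (nat_lit 0) (p (nat_lit 0x41) (nat_lit 0) (p (nat_lit 0x89080788869a) (nat_lit 0) (p (nat_lit 0x88878706861a) (nat_lit 0) (p (nat_lit 0x80000000080687858a) (nat_lit 0) (p (nat_lit 0x80000000078605850a) (nat_lit 0) (p (nat_lit 0x8605868482) (nat_lit 0) (p (nat_lit 0x8585048402) (nat_lit 0) (p (nat_lit 0x160014) (nat_lit 0) (p (nat_lit 0x160004) (nat_lit 0) (p (nat_lit 0x60592) (nat_lit 0) (p (nat_lit 0x48512) (nat_lit 0) (p (nat_lit 0x50392) (nat_lit 0) (p (nat_lit 0x38312) (nat_lit 0) (p (nat_lit 0x40212) (nat_lit 0) (p (nat_lit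 0x28192) (nat_lit 0) (p (nat_lit 0x30092) (nat_lit 0) (p (nat_lit 0x18012) (nat_lit 0) pn)))))))))))))))))))))))) :=
  Cl.node (nat_lit 0x20000c) (nat_lit 2) (by decide +kernel) (ClAll.succ (ClAll.succ ClAll.zero s25) s26)

def n32 : Cl (O (nat_lit 2)) (R (nat_lit 139473))
    (p (nat_lit 0xb0004) (nat_lit 0) (p (nat_lit 0x20000c) (nat_lit 1) (p (nat_lit 0x81) (nat_lit 0) (p (nat_lit 0x101) (nat_lit 1) (p (nat_lit 0x111) (nat_lit 0) (p (nat_lit 0xd1) (nat_lit 1) (p (nat_lit 0x89) (nat_lit 0) (p (nat_lit 0x41) (nat_lit 0) (p (nat_lit 0x89080788869a) (nat_lit 0) (p (nat_lit 0x88878706861a) (nat_lit 0) (p (nat_lit 0x80000000080687858a) (nat_lit 0) (p (nat_lit 0x80000000078605850a) (nat_lit 0) (p (nat_lit 0x8605868482) (nat_lit 0) (p (nat_lit 0x8585048402) (nat_lit 0) (p (nat_lit 0x160014) (nat_lit 0) (p (nat_lit 0x160004) (nat_lit 0) (p (nat_lit 0x60592) (nat_lit 0) (p (nat_lit 0x48512)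 (nat_lit 0) (p (nat_lit 0x50392) (nat_lit 0) (p (nat_lit 0x38312) (nat_lit 0) (p (nat_lit 0x40212) (nat_lit 0) (p (nat_lit 0x28192) (nat_lit 0) (p (nat_lit 0x30092) (nat_lit 0) (p (nat_lit 0x18012) (nat_lit 0) pn)))))))))))))))))))))))) :=
  Cl.node (nat_lit 0xb0014) (nat_lit 2) (by decide +kernel) (ClAll.succ (ClAll.succ ClAll.zero n15) s35)

def n33 : Cl (O (nat_lit 2)) (R (nat_lit 139473))
    (p (nat_lit 0x20000c) (nat_lit 0) (p (nat_lit 0xc1) (nat_lit 0) (p (nat_lit 0x81) (nat_lit 1) (p (nat_lit 0x101) (nat_lit 1) (p (nat_lit 0x111) (nat_lit 0) (p (nat_lit 0xd1) (nat_lit 1) (p (nat_lit 0x89) (nat_lit 0) (p (nat_lit 0x41) (nat_lit 0) (p (nat_lit 0x89080788869a) (nat_lit 0) (p (nat_lit 0x88878706861a) (nat_lit 0) (p (nat_lit 0x80000000080687858a) (nat_lit 0) (p (nat_lit 0x80000000078605850a) (nat_lit 0) (p (nat_lit 0x8605868482) (nat_lit 0) (p (nat_lit 0x8585048402) (nat_lit 0)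 (p (nat_lit 0x160014) (nat_lit 0) (p (nat_lit 0x160004) (nat_lit 0) (p (nat_lit 0x60592) (nat_lit 0) (p (nat_lit 0x48512) (nat_lit 0) (p (nat_lit 0x50392) (nat_lit 0) (p (nat_lit 0x38312) (nat_lit 0) (p (nat_lit 0x40212) (nat_lit 0) (p (nat_lit 0x28192) (nat_lit 0) (p (nat_lit 0x30092) (nat_lit 0) (p (nat_lit 0x18012) (nat_lit 0) pn)))))))))))))))))))))))) :=
  Cl.node (nat_lit 0x119) (nat_lit 2) (by decide +kernel) (ClAll.succ (ClAll.succ ClAll.zero s37) s38)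

def n34 : Cl (O (nat_lit 2)) (R (nat_lit 139473))
    (p (nat_lit 0x20000c) (nat_lit 1) (p (nat_lit 0xc1) (nat_lit 0) (p (nat_lit 0x81) (nat_lit 1) (p (nat_lit 0x101) (nat_lit 1) (p (nat_lit 0x111) (nat_lit 0) (p (nat_lit 0xd1) (nat_lit 1) (p (nat_lit 0x89) (nat_lit 0) (p (nat_lit 0x41) (nat_lit 0) (p (nat_lit 0x89080788869a) (nat_lit 0) (p (nat_lit 0x88878706861a) (nat_lit 0) (p (nat_lit 0x80000000080687858a) (nat_lit 0) (p (nat_lit 0x80000000078605850a) (nat_lit 0) (p (nat_lit 0x8605868482) (nat_lit 0) (p (nat_lit 0x8585048402) (nat_lit 0) (p (nat_lit 0x160014) (nat_lit 0) (p (nat_lit 0x160004) (nat_lit 0) (p (nat_lit 0x60592) (nat_lit 0) (p (nat_lit 0x48512) (nat_lit 0) (p (nat_lit 0x50392) (nat_lit 0) (p (nat_lit 0x38312) (nat_lit 0) (p (nat_lit 0x40212) (nat_lit 0) (p (nat_lit 0x28192) (nat_lit 0) (p (nat_lit 0x30092) (nat_lit 0) (p (nat_lit 0x18012) (nat_lit 0) pn))))))))))))))))))))))))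 :=
  Cl.node (nat_lit 0xb0004) (nat_lit 2) (by decide +kernel) (ClAll.succ (ClAll.succ ClAll.zero n16) s43)

def n35 : Cl (O (nat_lit 2)) (R (nat_lit 139473))
    (p (nat_lit 0x20000c) (nat_lit 1) (p (nat_lit 0xd1) (nat_lit 1) (p (nat_lit 0x109) (nat_lit 1) (p (nat_lit 0x101) (nat_lit 0) (p (nat_lit 0x119) (nat_lit 0) (p (nat_lit 0xc9) (nat_lit 0) (p (nat_lit 0x89) (nat_lit 1) (p (nat_lit 0x41) (nat_lit 0) (p (nat_lit 0x89080788869a) (nat_lit 0) (p (nat_lit 0x88878706861a) (nat_lit 0) (p (nat_lit 0x80000000080687858a) (nat_lit 0) (p (nat_lit 0x80000000078605850a) (nat_lit 0) (p (nat_lit 0x8605868482) (nat_lit 0) (p (nat_lit 0x8585048402) (nat_lit 0) (p (nat_lit 0x160014) (nat_lit 0) (p (nat_lit 0x160004) (nat_lit 0) (p (nat_lit 0x60592) (nat_lit 0) (p (nat_lit 0x48512) (nat_lit 0) (p (nat_lit 0x50392) (nat_lit 0) (p (nat_lit 0x38312) (nat_lit 0) (p (nat_lit 0x40212) (nat_lit 0) (p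 (nat_lit 0x28192) (nat_lit 0) (p (nat_lit 0x30092) (nat_lit 0) (p (nat_lit 0x18012) (nat_lit 0) pn)))))))))))))))))))))))) :=
  Cl.node (nat_lit 0xb0004) (nat_lit 2) (by decide +kernel) (ClAll.succ (ClAll.succ ClAll.zero n17) s56)

def n36 : Cl (O (nat_lit 2)) (R (nat_lit 139473))
    (p (nat_lit 0xc9) (nat_lit 0) (p (nat_lit 0x89) (nat_lit 1) (p (nat_lit 0x109) (nat_lit 1) (p (nat_lit 0x101) (nat_lit 0) (p (nat_lit 0x119) (nat_lit 0) (p (nat_lit 0xd1) (nat_lit 0) (p (nat_lit 0x81) (nat_lit 0) (p (nat_lit 0x41) (nat_lit 1) (p (nat_lit 0x89080788869a) (nat_lit 0) (p (nat_lit 0x88878706861a) (nat_lit 0) (p (nat_lit 0x80000000080687858a) (nat_lit 0) (p (nat_lit 0x80000000078605850a) (nat_lit 0) (p (nat_lit 0x8605868482) (nat_lit 0) (p (nat_lit 0x8585048402) (nat_lit 0) (p (nat_lit 0x160014) (nat_lit 0) (p (nat_lit 0x160004) (nat_lit 0) (p (nat_lit 0x60592) (nat_lit 0) (p (nat_lit 0x48512)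 (nat_lit 0) (p (nat_lit 0x50392) (nat_lit 0) (p (nat_lit 0x38312) (nat_lit 0) (p (nat_lit 0x40212) (nat_lit 0) (p (nat_lit 0x28192) (nat_lit 0) (p (nat_lit 0x30092) (nat_lit 0) (p (nat_lit 0x18012) (nat_lit 0) pn)))))))))))))))))))))))) :=
  Cl.node (nat_lit 0x20000c) (nat_lit 2) (by decide +kernel) (ClAll.succ (ClAll.succ ClAll.zero s74) s75)

def n37 : Cl (O (nat_lit 2)) (R (nat_lit 139473))
    (p (nat_lit 0xc9) (nat_lit 0) (p (nat_lit 0x89) (nat_lit 1) (p (nat_lit 0xc1) (nat_lit 0) (p (nat_lit 0x101) (nat_lit 1) (p (nat_lit 0x119) (nat_lit 0) (p (nat_lit 0xd1) (nat_lit 0) (p (nat_lit 0x81) (nat_lit 0) (p (nat_lit 0x41) (nat_lit 1) (p (nat_lit 0x89080788869a) (nat_lit 0) (p (nat_lit 0x88878706861a) (nat_lit 0) (p (nat_lit 0x80000000080687858a) (nat_lit 0) (p (nat_lit 0x80000000078605850a) (nat_lit 0) (p (nat_lit 0x8605868482) (nat_lit 0) (p (nat_lit 0x8585048402) (nat_lit 0) (p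 (nat_lit 0x160014) (nat_lit 0) (p (nat_lit 0x160004) (nat_lit 0) (p (nat_lit 0x60592) (nat_lit 0) (p (nat_lit 0x48512) (nat_lit 0) (p (nat_lit 0x50392) (nat_lit 0) (p (nat_lit 0x38312) (nat_lit 0) (p (nat_lit 0x40212) (nat_lit 0) (p (nat_lit 0x28192) (nat_lit 0) (p (nat_lit 0x30092) (nat_lit 0) (p (nat_lit 0x18012) (nat_lit 0) pn)))))))))))))))))))))))) :=
  Cl.node (nat_lit 0x20000c) (nat_lit 2) (by decide +kernel) (ClAll.succ (ClAll.succ ClAll.zero s79) s80)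

def n38 : Cl (O (nat_lit 2)) (R (nat_lit 139473))
    (p (nat_lit 0x20000c) (nat_lit 1) (p (nat_lit 0x89) (nat_lit 1) (p (nat_lit 0xc1) (nat_lit 1) (p (nat_lit 0x101) (nat_lit 1) (p (nat_lit 0x119) (nat_lit 0) (p (nat_lit 0xd1) (nat_lit 0) (p (nat_lit 0x81) (nat_lit 0) (p (nat_lit 0x41) (nat_lit 1) (p (nat_lit 0x89080788869a) (nat_lit 0) (p (nat_lit 0x88878706861a) (nat_lit 0) (p (nat_lit 0x80000000080687858a) (nat_lit 0) (p (nat_lit 0x80000000078605850a) (nat_lit 0) (p (nat_lit 0x8605868482) (nat_lit 0) (p (nat_lit 0x8585048402) (nat_lit 0) (p (nat_lit 0x160014) (nat_lit 0) (p (nat_lit 0x160004) (nat_lit 0) (p (nat_lit 0x60592) (nat_lit 0) (p (nat_lit 0x48512) (nat_lit 0) (p (nat_lit 0x50392) (nat_lit 0) (p (nat_lit 0x38312) (nat_lit 0) (p (nat_lit 0x40212) (nat_lit 0) (p (nat_lit 0x28192) (nat_lit 0) (p (nat_lit 0x30092) (nat_lit 0) (p (nat_lit 0x18012) (nat_lit 0) pn))))))))))))))))))))))))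 :=
  Cl.node (nat_lit 0xb0004) (nat_lit 2) (by decide +kernel) (ClAll.succ (ClAll.succ ClAll.zero n18) s87)

def n39 : Cl (O (nat_lit 2)) (R (nat_lit 139473))
    (p (nat_lit 0x109) (nat_lit 0) (p (nat_lit 0x89) (nat_lit 1) (p (nat_lit 0xc9) (nat_lit 1) (p (nat_lit 0xc1) (nat_lit 0) (p (nat_lit 0x119) (nat_lit 1) (p (nat_lit 0xd1) (nat_lit 0) (p (nat_lit 0x81) (nat_lit 0) (p (nat_lit 0x41) (nat_lit 1) (p (nat_lit 0x89080788869a) (nat_lit 0) (p (nat_lit 0x88878706861a) (nat_lit 0) (p (nat_lit 0x80000000080687858a) (nat_lit 0) (p (nat_lit 0x80000000078605850a) (nat_lit 0) (p (nat_lit 0x8605868482) (nat_lit 0) (p (nat_lit 0x8585048402) (nat_lit 0) (p (nat_lit 0x160014) (nat_lit 0) (p (nat_lit 0x160004) (nat_lit 0) (p (nat_lit 0x60592) (nat_lit 0) (p (nat_lit 0x48512) (nat_lit 0) (p (nat_lit 0x50392) (nat_lit 0) (p (nat_lit 0x38312) (nat_lit 0) (p (nat_lit 0x40212) (nat_lit 0) (p (nat_lit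 0x28192) (nat_lit 0) (p (nat_lit 0x30092) (nat_lit 0) (p (nat_lit 0x18012) (nat_lit 0) pn)))))))))))))))))))))))) :=
  Cl.node (nat_lit 0x20000c) (nat_lit 2) (by decide +kernel) (ClAll.succ (ClAll.succ ClAll.zero s90) s91)

def n40 : Cl (O (nat_lit 2)) (R (nat_lit 139473))
    (p (nat_lit 0x109) (nat_lit 1) (p (nat_lit 0x89) (nat_lit 1) (p (nat_lit 0xc9) (nat_lit 1) (p (nat_lit 0xc1) (nat_lit 0) (p (nat_lit 0x119) (nat_lit 1) (p (nat_lit 0xd1) (nat_lit 0) (p (nat_lit 0x81) (nat_lit 0) (p (nat_lit 0x41) (nat_lit 1) (p (nat_lit 0x89080788869a) (nat_lit 0) (p (nat_lit 0x88878706861a) (nat_lit 0) (p (nat_lit 0x80000000080687858a) (nat_lit 0) (p (nat_lit 0x80000000078605850a) (nat_lit 0) (p (nat_lit 0x8605868482) (nat_lit 0) (p (nat_lit 0x8585048402) (nat_lit 0) (p (nat_lit 0x160014) (nat_lit 0) (p (nat_lit 0x160004) (nat_lit 0) (p (nat_lit 0x60592) (nat_lit 0) (p (nat_lit 0x48512) (nat_lit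 0) (p (nat_lit 0x50392) (nat_lit 0) (p (nat_lit 0x38312) (nat_lit 0) (p (nat_lit 0x40212) (nat_lit 0) (p (nat_lit 0x28192) (nat_lit 0) (p (nat_lit 0x30092) (nat_lit 0) (p (nat_lit 0x18012) (nat_lit 0) pn)))))))))))))))))))))))) :=
  Cl.node (nat_lit 0x20000c) (nat_lit 2) (by decide +kernel) (ClAll.succ (ClAll.succ ClAll.zero n19) s94)

def n41 : Cl (O (nat_lit 2)) (R (nat_lit 139473))
    (p (nat_lit 0x109) (nat_lit 1) (p (nat_lit 0x89) (nat_lit 1) (p (nat_lit 0x101) (nat_lit 0) (p (nat_lit 0xc1) (nat_lit 1) (p (nat_lit 0x119) (nat_lit 1) (p (nat_lit 0xd1) (nat_lit 0) (p (nat_lit 0x81) (nat_lit 0) (p (nat_lit 0x41) (nat_lit 1) (p (nat_lit 0x89080788869a) (nat_lit 0) (p (nat_lit 0x88878706861a) (nat_lit 0) (p (nat_lit 0x80000000080687858a) (nat_lit 0) (p (nat_lit 0x80000000078605850a) (nat_lit 0) (p (nat_lit 0x8605868482) (nat_lit 0) (p (nat_lit 0x8585048402) (nat_lit 0) (p (nat_lit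 0x160014) (nat_lit 0) (p (nat_lit 0x160004) (nat_lit 0) (p (nat_lit 0x60592) (nat_lit 0) (p (nat_lit 0x48512) (nat_lit 0) (p (nat_lit 0x50392) (nat_lit 0) (p (nat_lit 0x38312) (nat_lit 0) (p (nat_lit 0x40212) (nat_lit 0) (p (nat_lit 0x28192) (nat_lit 0) (p (nat_lit 0x30092) (nat_lit 0) (p (nat_lit 0x18012) (nat_lit 0) pn)))))))))))))))))))))))) :=
  Cl.node (nat_lit 0x20000c) (nat_lit 2) (by decide +kernel) (ClAll.succ (ClAll.succ ClAll.zero n20) s100)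

def n42 : Cl (O (nat_lit 2)) (R (nat_lit 139473))
    (p (nat_lit 0x20000c) (nat_lit 0) (p (nat_lit 0x89) (nat_lit 1) (p (nat_lit 0x101) (nat_lit 1) (p (nat_lit 0xc1) (nat_lit 1) (p (nat_lit 0x119) (nat_lit 1) (p (nat_lit 0xd1) (nat_lit 0) (p (nat_lit 0x81) (nat_lit 0) (p (nat_lit 0x41) (nat_lit 1) (p (nat_lit 0x89080788869a) (nat_lit 0) (p (nat_lit 0x88878706861a) (nat_lit 0) (p (nat_lit 0x80000000080687858a) (nat_lit 0) (p (nat_lit 0x80000000078605850a) (nat_lit 0) (p (nat_lit 0x8605868482) (nat_lit 0) (p (nat_lit 0x8585048402) (nat_lit 0) (p (nat_lit 0x160014) (nat_lit 0) (p (nat_lit 0x160004) (nat_lit 0) (p (nat_lit 0x60592) (nat_lit 0) (p (nat_lit 0x48512) (nat_lit 0) (p (nat_lit 0x50392) (nat_lit 0) (p (nat_lit 0x38312) (nat_lit 0) (p (nat_lit 0x40212) (nat_lit 0) (p (nat_lit 0x28192) (nat_lit 0) (p (nat_lit 0x30092) (nat_lit 0) (p (nat_lit 0x18012) (nat_lit 0) pn))))))))))))))))))))))))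 :=
  Cl.node (nat_lit 0xb0004) (nat_lit 2) (by decide +kernel) (ClAll.succ (ClAll.succ ClAll.zero s102) s103)

def n43 : Cl (O (nat_lit 2)) (R (nat_lit 139473))
    (p (nat_lit 0xc9) (nat_lit 0) (p (nat_lit 0x89) (nat_lit 1) (p (nat_lit 0x109) (nat_lit 1) (p (nat_lit 0x101) (nat_lit 0) (p (nat_lit 0x111) (nat_lit 0) (p (nat_lit 0xd1) (nat_lit 1) (p (nat_lit 0x81) (nat_lit 0) (p (nat_lit 0x41) (nat_lit 1) (p (nat_lit 0x89080788869a) (nat_lit 0) (p (nat_lit 0x88878706861a) (nat_lit 0) (p (nat_lit 0x80000000080687858a) (nat_lit 0) (p (nat_lit 0x80000000078605850a) (nat_lit 0) (p (nat_lit 0x8605868482) (nat_lit 0) (p (nat_lit 0x8585048402) (nat_lit 0) (p (nat_lit 0x160014) (nat_lit 0) (p (nat_lit 0x160004) (nat_lit 0) (p (nat_lit 0x60592) (nat_lit 0) (p (nat_lit 0x48512) (nat_lit 0) (p (nat_lit 0x50392) (nat_lit 0) (p (nat_lit 0x38312) (nat_lit 0) (p (nat_lit 0x40212) (nat_lit 0) (p (nat_lit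 0x28192) (nat_lit 0) (p (nat_lit 0x30092) (nat_lit 0) (p (nat_lit 0x18012) (nat_lit 0) pn)))))))))))))))))))))))) :=
  Cl.node (nat_lit 0x20000c) (nat_lit 2) (by decide +kernel) (ClAll.succ (ClAll.succ ClAll.zero s107) n21)

def n44 : Cl (O (nat_lit 2)) (R (nat_lit 139473))
    (p (nat_lit 0xb0004) (nat_lit 0) (p (nat_lit 0x20000c) (nat_lit 1) (p (nat_lit 0x89) (nat_lit 0) (p (nat_lit 0x101) (nat_lit 1) (p (nat_lit 0x111) (nat_lit 0) (p (nat_lit 0xd1) (nat_lit 1) (p (nat_lit 0x81) (nat_lit 0) (p (nat_lit 0x41) (nat_lit 1) (p (nat_lit 0x89080788869a) (nat_lit 0) (p (nat_lit 0x88878706861a) (nat_lit 0) (p (nat_lit 0x80000000080687858a) (nat_lit 0) (p (nat_lit 0x80000000078605850a) (nat_lit 0) (p (nat_lit 0x8605868482) (nat_lit 0) (p (nat_lit 0x8585048402) (nat_lit 0) (p (nat_lit 0x160014) (nat_lit 0) (p (nat_lit 0x160004) (nat_lit 0) (p (nat_lit 0x60592) (nat_lit 0) (p (nat_lit 0x48512)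 (nat_lit 0) (p (nat_lit 0x50392) (nat_lit 0) (p (nat_lit 0x38312) (nat_lit 0) (p (nat_lit 0x40212) (nat_lit 0) (p (nat_lit 0x28192) (nat_lit 0) (p (nat_lit 0x30092) (nat_lit 0) (p (nat_lit 0x18012) (nat_lit 0) pn)))))))))))))))))))))))) :=
  Cl.node (nat_lit 0xb0014) (nat_lit 2) (by decide +kernel) (ClAll.succ (ClAll.succ ClAll.zero n22) s116)

def n45 : Cl (O (nat_lit 2)) (R (nat_lit 139473))
    (p (nat_lit 0xd1) (nat_lit 1) (p (nat_lit 0x111) (nat_lit 1) (p (nat_lit 0x109) (nat_lit 0) (p (nat_lit 0x101) (nat_lit 0) (p (nat_lit 0x119) (nat_lit 0) (p (nat_lit 0xc1) (nat_lit 0) (p (nat_lit 0x81) (nat_lit 1) (p (nat_lit 0x41) (nat_lit 1) (p (nat_lit 0x89080788869a) (nat_lit 0) (p (nat_lit 0x88878706861a) (nat_lit 0) (p (nat_lit 0x80000000080687858a) (nat_lit 0) (p (nat_lit 0x80000000078605850a) (nat_lit 0) (p (nat_lit 0x8605868482) (nat_lit 0) (p (nat_lit 0x8585048402) (nat_lit 0)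 (p (nat_lit 0x160014) (nat_lit 0) (p (nat_lit 0x160004) (nat_lit 0) (p (nat_lit 0x60592) (nat_lit 0) (p (nat_lit 0x48512) (nat_lit 0) (p (nat_lit 0x50392) (nat_lit 0) (p (nat_lit 0x38312) (nat_lit 0) (p (nat_lit 0x40212) (nat_lit 0) (p (nat_lit 0x28192) (nat_lit 0) (p (nat_lit 0x30092) (nat_lit 0) (p (nat_lit 0x18012) (nat_lit 0) pn)))))))))))))))))))))))) :=
  Cl.node (nat_lit 0x20000c) (nat_lit 2) (by decide +kernel) (ClAll.succ (ClAll.succ ClAll.zero s125) s126)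

def n46 : Cl (O (nat_lit 2)) (R (nat_lit 139473))
    (p (nat_lit 0xd1) (nat_lit 1) (p (nat_lit 0xc9) (nat_lit 0) (p (nat_lit 0x109) (nat_lit 1) (p (nat_lit 0x101) (nat_lit 0) (p (nat_lit 0x119) (nat_lit 0) (p (nat_lit 0xc1) (nat_lit 0) (p (nat_lit 0x81) (nat_lit 1) (p (nat_lit 0x41) (nat_lit 1) (p (nat_lit 0x89080788869a) (nat_lit 0) (p (nat_lit 0x88878706861a) (nat_lit 0) (p (nat_lit 0x80000000080687858a) (nat_lit 0) (p (nat_lit 0x80000000078605850a) (nat_lit 0) (p (nat_lit 0x8605868482) (nat_lit 0) (p (nat_lit 0x8585048402) (nat_lit 0) (p (nat_lit 0x160014) (nat_lit 0) (p (nat_lit 0x160004) (nat_lit 0) (p (nat_lit 0x60592) (nat_lit 0) (p (nat_lit 0x48512) (nat_lit 0) (p (nat_lit 0x50392) (nat_lit 0) (p (nat_lit 0x38312) (nat_lit 0) (p (nat_lit 0x40212) (nat_lit 0) (p (nat_lit 0x28192) (nat_lit 0) (p (nat_lit 0x30092) (nat_lit 0) (p (nat_lit 0x18012) (nat_lit 0) pn))))))))))))))))))))))))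 :=
  Cl.node (nat_lit 0x20000c) (nat_lit 2) (by decide +kernel) (ClAll.succ (ClAll.succ ClAll.zero s128) s129)

def n47 : Cl (O (nat_lit 2)) (R (nat_lit 139473))
    (p (nat_lit 0x20000c) (nat_lit 0) (p (nat_lit 0xd1) (nat_lit 0) (p (nat_lit 0xc9) (nat_lit 0) (p (nat_lit 0x101) (nat_lit 1) (p (nat_lit 0x119) (nat_lit 0) (p (nat_lit 0xc1) (nat_lit 0) (p (nat_lit 0x81) (nat_lit 1) (p (nat_lit 0x41) (nat_lit 1) (p (nat_lit 0x89080788869a) (nat_lit 0) (p (nat_lit 0x88878706861a) (nat_lit 0) (p (nat_lit 0x80000000080687858a) (nat_lit 0) (p (nat_lit 0x80000000078605850a) (nat_lit 0) (p (nat_lit 0x8605868482) (nat_lit 0) (p (nat_lit 0x8585048402) (nat_lit 0) (p (nat_lit 0x160014) (nat_lit 0) (p (nat_lit 0x160004) (nat_lit 0) (p (nat_lit 0x60592) (nat_lit 0) (p (nat_lit 0x48512) (nat_lit 0) (p (nat_lit 0x50392) (nat_lit 0) (p (nat_lit 0x38312) (nat_lit 0) (p (nat_lit 0x40212) (nat_lit 0)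 (p (nat_lit 0x28192) (nat_lit 0) (p (nat_lit 0x30092) (nat_lit 0) (p (nat_lit 0x18012) (nat_lit 0) pn)))))))))))))))))))))))) :=
  Cl.node (nat_lit 0xb0004) (nat_lit 2) (by decide +kernel) (ClAll.succ (ClAll.succ ClAll.zero s131) s132)

def n48 : Cl (O (nat_lit 2)) (R (nat_lit 139473))
    (p (nat_lit 0x20000c) (nat_lit 1) (p (nat_lit 0xd1) (nat_lit 0) (p (nat_lit 0xc9) (nat_lit 0) (p (nat_lit 0x101) (nat_lit 1) (p (nat_lit 0x119) (nat_lit 0) (p (nat_lit 0xc1) (nat_lit 0) (p (nat_lit 0x81) (nat_lit 1) (p (nat_lit 0x41) (nat_lit 1) (p (nat_lit 0x89080788869a) (nat_lit 0) (p (nat_lit 0x88878706861a) (nat_lit 0) (p (nat_lit 0x80000000080687858a) (nat_lit 0) (p (nat_lit 0x80000000078605850a) (nat_lit 0) (p (nat_lit 0x8605868482) (nat_lit 0) (p (nat_lit 0x8585048402) (nat_lit 0) (p (nat_lit 0x160014) (nat_lit 0) (p (nat_lit 0x160004) (nat_lit 0) (p (nat_lit 0x60592) (nat_lit 0) (p (nat_lit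 0x48512) (nat_lit 0) (p (nat_lit 0x50392) (nat_lit 0) (p (nat_lit 0x38312) (nat_lit 0) (p (nat_lit 0x40212) (nat_lit 0) (p (nat_lit 0x28192) (nat_lit 0) (p (nat_lit 0x30092) (nat_lit 0) (p (nat_lit 0x18012) (nat_lit 0) pn)))))))))))))))))))))))) :=
  Cl.node (nat_lit 0xb0004) (nat_lit 2) (by decide +kernel) (ClAll.succ (ClAll.succ ClAll.zero n23) s136)

def n49 : Cl (O (nat_lit 2)) (R (nat_lit 139473))
    (p (nat_lit 0x20000c) (nat_lit 0) (p (nat_lit 0xd1) (nat_lit 1) (p (nat_lit 0xc9) (nat_lit 0) (p (nat_lit 0x101) (nat_lit 1) (p (nat_lit 0x119) (nat_lit 0) (p (nat_lit 0xc1) (nat_lit 0) (p (nat_lit 0x81) (nat_lit 1) (p (nat_lit 0x41) (nat_lit 1) (p (nat_lit 0x89080788869a) (nat_lit 0) (p (nat_lit 0x88878706861a) (nat_lit 0) (p (nat_lit 0x80000000080687858a) (nat_lit 0) (p (nat_lit 0x80000000078605850a) (nat_lit 0) (p (nat_lit 0x8605868482) (nat_lit 0) (p (nat_lit 0x8585048402) (nat_lit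 0) (p (nat_lit 0x160014) (nat_lit 0) (p (nat_lit 0x160004) (nat_lit 0) (p (nat_lit 0x60592) (nat_lit 0) (p (nat_lit 0x48512) (nat_lit 0) (p (nat_lit 0x50392) (nat_lit 0) (p (nat_lit 0x38312) (nat_lit 0) (p (nat_lit 0x40212) (nat_lit 0) (p (nat_lit 0x28192) (nat_lit 0) (p (nat_lit 0x30092) (nat_lit 0) (p (nat_lit 0x18012) (nat_lit 0) pn)))))))))))))))))))))))) :=
  Cl.node (nat_lit 0xb0004) (nat_lit 2) (by decide +kernel) (ClAll.succ (ClAll.succ ClAll.zero n24) s139)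

def n50 : Cl (O (nat_lit 2)) (R (nat_lit 139473))
    (p (nat_lit 0x20000c) (nat_lit 1) (p (nat_lit 0xd1) (nat_lit 1) (p (nat_lit 0xc9) (nat_lit 0) (p (nat_lit 0x101) (nat_lit 1) (p (nat_lit 0x119) (nat_lit 0) (p (nat_lit 0xc1) (nat_lit 0) (p (nat_lit 0x81) (nat_lit 1) (p (nat_lit 0x41) (nat_lit 1) (p (nat_lit 0x89080788869a) (nat_lit 0) (p (nat_lit 0x88878706861a) (nat_lit 0) (p (nat_lit 0x80000000080687858a) (nat_lit 0) (p (nat_lit 0x80000000078605850a) (nat_lit 0) (p (nat_lit 0x8605868482) (nat_lit 0) (p (nat_lit 0x8585048402) (nat_lit 0) (p (nat_lit 0x160014) (nat_lit 0) (p (nat_lit 0x160004) (nat_lit 0) (p (nat_lit 0x60592) (nat_lit 0) (p (nat_lit 0x48512) (nat_lit 0) (p (nat_lit 0x50392) (nat_lit 0) (p (nat_lit 0x38312) (nat_lit 0) (p (nat_lit 0x40212) (nat_lit 0) (p (nat_lit 0x28192) (nat_lit 0) (p (nat_lit 0x30092) (nat_lit 0) (p (nat_lit 0x18012) (nat_lit 0) pn))))))))))))))))))))))))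 :=
  Cl.node (nat_lit 0xb0004) (nat_lit 2) (by decide +kernel) (ClAll.succ (ClAll.succ ClAll.zero n25) s143)

def n51 : Cl (O (nat_lit 2)) (R (nat_lit 139473))
    (p (nat_lit 0x20000c) (nat_lit 0) (p (nat_lit 0x111) (nat_lit 1) (p (nat_lit 0xd1) (nat_lit 1) (p (nat_lit 0xc9) (nat_lit 0) (p (nat_lit 0x119) (nat_lit 1) (p (nat_lit 0xc1) (nat_lit 0) (p (nat_lit 0x81) (nat_lit 1) (p (nat_lit 0x41) (nat_lit 1) (p (nat_lit 0x89080788869a) (nat_lit 0) (p (nat_lit 0x88878706861a) (nat_lit 0) (p (nat_lit 0x80000000080687858a) (nat_lit 0) (p (nat_lit 0x80000000078605850a) (nat_lit 0) (p (nat_lit 0x8605868482) (nat_lit 0) (p (nat_lit 0x8585048402) (nat_lit 0) (p (nat_lit 0x160014) (nat_lit 0) (p (nat_lit 0x160004) (nat_lit 0) (p (nat_lit 0x60592) (nat_lit 0) (p (nat_lit 0x48512) (nat_lit 0) (p (nat_lit 0x50392) (nat_lit 0) (p (nat_lit 0x38312) (nat_lit 0) (p (nat_lit 0x40212) (nat_lit 0) (p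 (nat_lit 0x28192) (nat_lit 0) (p (nat_lit 0x30092) (nat_lit 0) (p (nat_lit 0x18012) (nat_lit 0) pn)))))))))))))))))))))))) :=
  Cl.node (nat_lit 0xb0004) (nat_lit 2) (by decide +kernel) (ClAll.succ (ClAll.succ ClAll.zero n26) s150)

def n52 : Cl (O (nat_lit 2)) (R (nat_lit 139473))
    (p (nat_lit 0x20000c) (nat_lit 0) (p (nat_lit 0x111) (nat_lit 1) (p (nat_lit 0x109) (nat_lit 0) (p (nat_lit 0xc9) (nat_lit 1) (p (nat_lit 0x119) (nat_lit 1) (p (nat_lit 0xc1) (nat_lit 0) (p (nat_lit 0x81) (nat_lit 1) (p (nat_lit 0x41) (nat_lit 1) (p (nat_lit 0x89080788869a) (nat_lit 0) (p (nat_lit 0x88878706861a) (nat_lit 0) (p (nat_lit 0x80000000080687858a) (nat_lit 0) (p (nat_lit 0x80000000078605850a) (nat_lit 0) (p (nat_lit 0x8605868482) (nat_lit 0) (p (nat_lit 0x8585048402) (nat_lit 0) (p (nat_lit 0x160014) (nat_lit 0) (p (nat_lit 0x160004) (nat_lit 0) (p (nat_lit 0x60592) (nat_lit 0) (p (nat_lit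 0x48512) (nat_lit 0) (p (nat_lit 0x50392) (nat_lit 0) (p (nat_lit 0x38312) (nat_lit 0) (p (nat_lit 0x40212) (nat_lit 0) (p (nat_lit 0x28192) (nat_lit 0) (p (nat_lit 0x30092) (nat_lit 0) (p (nat_lit 0x18012) (nat_lit 0) pn)))))))))))))))))))))))) :=
  Cl.node (nat_lit 0xb0004) (nat_lit 2) (by decide +kernel) (ClAll.succ (ClAll.succ ClAll.zero s153) s154)

def n53 : Cl (O (nat_lit 2)) (R (nat_lit 139473))
    (p (nat_lit 0xc9) (nat_lit 1) (p (nat_lit 0x109) (nat_lit 1) (p (nat_lit 0x101) (nat_lit 0) (p (nat_lit 0x119) (nat_lit 0) (p (nat_lit 0xd1) (nat_lit 0) (p (nat_lit 0x89) (nat_lit 0) (p (nat_lit 0x41) (nat_lit 0) (p (nat_lit 0x89080788869a) (nat_lit 0) (p (nat_lit 0x88878706861a) (nat_lit 0) (p (nat_lit 0x80000000080687858a) (nat_lit 0) (p (nat_lit 0x80000000078605850a) (nat_lit 0) (p (nat_lit 0x8605868482) (nat_lit 0) (p (nat_lit 0x8585048402) (nat_lit 0) (p (nat_lit 0x160014)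 (nat_lit 0) (p (nat_lit 0x160004) (nat_lit 0) (p (nat_lit 0x60592) (nat_lit 0) (p (nat_lit 0x48512) (nat_lit 0) (p (nat_lit 0x50392) (nat_lit 0) (p (nat_lit 0x38312) (nat_lit 0) (p (nat_lit 0x40212) (nat_lit 0) (p (nat_lit 0x28192) (nat_lit 0) (p (nat_lit 0x30092) (nat_lit 0) (p (nat_lit 0x18012) (nat_lit 0) pn))))))))))))))))))))))) :=
  Cl.node (nat_lit 0x20000c) (nat_lit 2) (by decide +kernel) (ClAll.succ (ClAll.succ ClAll.zero s2) s3)

def n54 : Cl (O (nat_lit 2)) (R (nat_lit 139473))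
    (p (nat_lit 0xc9) (nat_lit 0) (p (nat_lit 0x81) (nat_lit 0) (p (nat_lit 0x101) (nat_lit 1) (p (nat_lit 0x119) (nat_lit 0) (p (nat_lit 0xd1) (nat_lit 0) (p (nat_lit 0x89) (nat_lit 0) (p (nat_lit 0x41) (nat_lit 0) (p (nat_lit 0x89080788869a) (nat_lit 0) (p (nat_lit 0x88878706861a) (nat_lit 0) (p (nat_lit 0x80000000080687858a) (nat_lit 0) (p (nat_lit 0x80000000078605850a) (nat_lit 0) (p (nat_lit 0x8605868482) (nat_lit 0) (p (nat_lit 0x8585048402) (nat_lit 0) (p (nat_lit 0x160014) (nat_lit 0) (p (nat_lit 0x160004) (nat_lit 0) (p (nat_lit 0x60592) (nat_lit 0) (p (nat_lit 0x48512) (nat_lit 0) (p (nat_lit 0x50392) (nat_lit 0) (p (nat_lit 0x38312) (nat_lit 0) (p (nat_lit 0x40212) (nat_lit 0) (p (nat_lit 0x28192) (nat_lit 0) (p (nat_lit 0x30092) (nat_lit 0) (p (nat_lit 0x18012) (nat_lit 0) pn))))))))))))))))))))))) :=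
  Cl.node (nat_lit 0x20000c) (nat_lit 2) (by decide +kernel) (ClAll.succ (ClAll.succ ClAll.zero s4) s5)

def n55 : Cl (O (nat_lit 2)) (R (nat_lit 139473))
    (p (nat_lit 0xc9) (nat_lit 1) (p (nat_lit 0x81) (nat_lit 0) (p (nat_lit 0x101) (nat_lit 1) (p (nat_lit 0x119) (nat_lit 0) (p (nat_lit 0xd1) (nat_lit 0) (p (nat_lit 0x89) (nat_lit 0) (p (nat_lit 0x41) (nat_lit 0) (p (nat_lit 0x89080788869a) (nat_lit 0) (p (nat_lit 0x88878706861a) (nat_lit 0) (p (nat_lit 0x80000000080687858a) (nat_lit 0) (p (nat_lit 0x80000000078605850a) (nat_lit 0) (p (nat_lit 0x8605868482) (nat_lit 0) (p (nat_lit 0x8585048402) (nat_lit 0) (p (nat_lit 0x160014) (nat_lit 0) (p (nat_lit 0x160004) (nat_lit 0) (p (nat_lit 0x60592) (nat_lit 0) (p (nat_lit 0x48512) (nat_lit 0) (p (nat_lit 0x50392) (nat_lit 0) (p (nat_lit 0x38312) (nat_lit 0) (p (nat_lit 0x40212) (nat_lit 0) (p (nat_lit 0x28192) (nat_lit 0) (p (nat_lit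 0x30092) (nat_lit 0) (p (nat_lit 0x18012) (nat_lit 0) pn))))))))))))))))))))))) :=
  Cl.node (nat_lit 0x20000c) (nat_lit 2) (by decide +kernel) (ClAll.succ (ClAll.succ ClAll.zero s6) n27)

def n56 : Cl (O (nat_lit 2)) (R (nat_lit 139473))
    (p (nat_lit 0xc1) (nat_lit 0) (p (nat_lit 0x81) (nat_lit 1) (p (nat_lit 0x101) (nat_lit 1) (p (nat_lit 0x119) (nat_lit 0) (p (nat_lit 0xd1) (nat_lit 0) (p (nat_lit 0x89) (nat_lit 0) (p (nat_lit 0x41) (nat_lit 0) (p (nat_lit 0x89080788869a) (nat_lit 0) (p (nat_lit 0x88878706861a) (nat_lit 0) (p (nat_lit 0x80000000080687858a) (nat_lit 0) (p (nat_lit 0x80000000078605850a) (nat_lit 0) (p (nat_lit 0x8605868482) (nat_lit 0) (p (nat_lit 0x8585048402) (nat_lit 0) (p (nat_lit 0x160014) (nat_lit 0) (p (nat_lit 0x160004) (nat_lit 0) (p (nat_lit 0x60592) (nat_lit 0) (p (nat_lit 0x48512) (nat_lit 0) (p (nat_lit 0x50392) (nat_lit 0) (p (nat_lit 0x38312) (nat_lit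 0) (p (nat_lit 0x40212) (nat_lit 0) (p (nat_lit 0x28192) (nat_lit 0) (p (nat_lit 0x30092) (nat_lit 0) (p (nat_lit 0x18012) (nat_lit 0) pn))))))))))))))))))))))) :=
  Cl.node (nat_lit 0xc9) (nat_lit 2) (by decide +kernel) (ClAll.succ (ClAll.succ ClAll.zero n28) n29)

def n57 : Cl (O (nat_lit 2)) (R (nat_lit 139473))
    (p (nat_lit 0x101) (nat_lit 0) (p (nat_lit 0x81) (nat_lit 1) (p (nat_lit 0xc1) (nat_lit 1) (p (nat_lit 0x119) (nat_lit 1) (p (nat_lit 0xd1) (nat_lit 0) (p (nat_lit 0x89) (nat_lit 0) (p (nat_lit 0x41) (nat_lit 0) (p (nat_lit 0x89080788869a) (nat_lit 0) (p (nat_lit 0x88878706861a) (nat_lit 0) (p (nat_lit 0x80000000080687858a) (nat_lit 0) (p (nat_lit 0x80000000078605850a) (nat_lit 0) (p (nat_lit 0x8605868482) (nat_lit 0) (p (nat_lit 0x8585048402) (nat_lit 0) (p (nat_lit 0x160014) (nat_lit 0) (p (nat_lit 0x160004) (nat_lit 0) (p (nat_lit 0x60592) (nat_lit 0) (p (nat_lit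 0x48512) (nat_lit 0) (p (nat_lit 0x50392) (nat_lit 0) (p (nat_lit 0x38312) (nat_lit 0) (p (nat_lit 0x40212) (nat_lit 0) (p (nat_lit 0x28192) (nat_lit 0) (p (nat_lit 0x30092) (nat_lit 0) (p (nat_lit 0x18012) (nat_lit 0) pn))))))))))))))))))))))) :=
  Cl.node (nat_lit 0x109) (nat_lit 2) (by decide +kernel) (ClAll.succ (ClAll.succ ClAll.zero n30) n31)

def n58 : Cl (O (nat_lit 2)) (R (nat_lit 139473))
    (p (nat_lit 0x101) (nat_lit 1) (p (nat_lit 0x81) (nat_lit 1) (p (nat_lit 0xc1) (nat_lit 1) (p (nat_lit 0x119) (nat_lit 1) (p (nat_lit 0xd1) (nat_lit 0) (p (nat_lit 0x89) (nat_lit 0) (p (nat_lit 0x41) (nat_lit 0) (p (nat_lit 0x89080788869a) (nat_lit 0) (p (nat_lit 0x88878706861a) (nat_lit 0) (p (nat_lit 0x80000000080687858a) (nat_lit 0) (p (nat_lit 0x80000000078605850a) (nat_lit 0) (p (nat_lit 0x8605868482) (nat_lit 0) (p (nat_lit 0x8585048402) (nat_lit 0) (p (nat_lit 0x160014) (nat_lit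 0) (p (nat_lit 0x160004) (nat_lit 0) (p (nat_lit 0x60592) (nat_lit 0) (p (nat_lit 0x48512) (nat_lit 0) (p (nat_lit 0x50392) (nat_lit 0) (p (nat_lit 0x38312) (nat_lit 0) (p (nat_lit 0x40212) (nat_lit 0) (p (nat_lit 0x28192) (nat_lit 0) (p (nat_lit 0x30092) (nat_lit 0) (p (nat_lit 0x18012) (nat_lit 0) pn))))))))))))))))))))))) :=
  Cl.node (nat_lit 0x20000c) (nat_lit 2) (by decide +kernel) (ClAll.succ (ClAll.succ ClAll.zero s27) s28)

def n59 : Cl (O (nat_lit 2)) (R (nat_lit 139473))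
    (p (nat_lit 0x20000c) (nat_lit 1) (p (nat_lit 0x81) (nat_lit 0) (p (nat_lit 0x101) (nat_lit 1) (p (nat_lit 0x111) (nat_lit 0) (p (nat_lit 0xd1) (nat_lit 1) (p (nat_lit 0x89) (nat_lit 0) (p (nat_lit 0x41) (nat_lit 0) (p (nat_lit 0x89080788869a) (nat_lit 0) (p (nat_lit 0x88878706861a) (nat_lit 0) (p (nat_lit 0x80000000080687858a) (nat_lit 0) (p (nat_lit 0x80000000078605850a) (nat_lit 0) (p (nat_lit 0x8605868482) (nat_lit 0) (p (nat_lit 0x8585048402) (nat_lit 0) (p (nat_lit 0x160014) (nat_lit 0) (p (nat_lit 0x160004) (nat_lit 0) (p (nat_lit 0x60592) (nat_lit 0) (p (nat_lit 0x48512) (nat_lit 0) (p (nat_lit 0x50392) (nat_lit 0) (p (nat_lit 0x38312) (nat_lit 0) (p (nat_lit 0x40212) (nat_lit 0) (p (nat_lit 0x28192) (nat_lit 0) (p (nat_lit 0x30092) (nat_lit 0) (p (nat_lit 0x18012) (nat_lit 0) pn))))))))))))))))))))))) :=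
  Cl.node (nat_lit 0xb0004) (nat_lit 2) (by decide +kernel) (ClAll.succ (ClAll.succ ClAll.zero n32) s36)

def n60 : Cl (O (nat_lit 2)) (R (nat_lit 139473))
    (p (nat_lit 0xc1) (nat_lit 0) (p (nat_lit 0x81) (nat_lit 1) (p (nat_lit 0x101) (nat_lit 1) (p (nat_lit 0x111) (nat_lit 0) (p (nat_lit 0xd1) (nat_lit 1) (p (nat_lit 0x89) (nat_lit 0) (p (nat_lit 0x41) (nat_lit 0) (p (nat_lit 0x89080788869a) (nat_lit 0) (p (nat_lit 0x88878706861a) (nat_lit 0) (p (nat_lit 0x80000000080687858a) (nat_lit 0) (p (nat_lit 0x80000000078605850a) (nat_lit 0) (p (nat_lit 0x8605868482) (nat_lit 0) (p (nat_lit 0x8585048402) (nat_lit 0) (p (nat_lit 0x160014) (nat_lit 0) (p (nat_lit 0x160004) (nat_lit 0) (p (nat_lit 0x60592) (nat_lit 0) (p (nat_lit 0x48512) (nat_lit 0) (p (nat_lit 0x50392) (nat_lit 0) (p (nat_lit 0x38312) (nat_lit 0) (p (nat_lit 0x40212) (nat_lit 0) (p (nat_lit 0x28192) (nat_lit 0) (p (nat_lit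 0x30092) (nat_lit 0) (p (nat_lit 0x18012) (nat_lit 0) pn))))))))))))))))))))))) :=
  Cl.node (nat_lit 0x20000c) (nat_lit 2) (by decide +kernel) (ClAll.succ (ClAll.succ ClAll.zero n33) n34)

def n61 : Cl (O (nat_lit 2)) (R (nat_lit 139473))
    (p (nat_lit 0x101) (nat_lit 0) (p (nat_lit 0xc1) (nat_lit 1) (p (nat_lit 0x81) (nat_lit 1) (p (nat_lit 0x111) (nat_lit 1) (p (nat_lit 0xd1) (nat_lit 1) (p (nat_lit 0x89) (nat_lit 0) (p (nat_lit 0x41) (nat_lit 0) (p (nat_lit 0x89080788869a) (nat_lit 0) (p (nat_lit 0x88878706861a) (nat_lit 0) (p (nat_lit 0x80000000080687858a) (nat_lit 0) (p (nat_lit 0x80000000078605850a) (nat_lit 0) (p (nat_lit 0x8605868482) (nat_lit 0) (p (nat_lit 0x8585048402) (nat_lit 0) (p (nat_lit 0x160014) (nat_lit 0) (p (nat_lit 0x160004) (nat_lit 0) (p (nat_lit 0x60592) (nat_lit 0) (p (nat_lit 0x48512) (nat_lit 0) (p (nat_lit 0x50392) (nat_lit 0) (p (nat_lit 0x38312) (nat_lit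 0) (p (nat_lit 0x40212) (nat_lit 0) (p (nat_lit 0x28192) (nat_lit 0) (p (nat_lit 0x30092) (nat_lit 0) (p (nat_lit 0x18012) (nat_lit 0) pn))))))))))))))))))))))) :=
  Cl.node (nat_lit 0x20000c) (nat_lit 2) (by decide +kernel) (ClAll.succ (ClAll.succ ClAll.zero s47) s48)

def n62 : Cl (O (nat_lit 2)) (R (nat_lit 139473))
    (p (nat_lit 0xd1) (nat_lit 1) (p (nat_lit 0x109) (nat_lit 1) (p (nat_lit 0x101) (nat_lit 0) (p (nat_lit 0x119) (nat_lit 0) (p (nat_lit 0xc9) (nat_lit 0) (p (nat_lit 0x89) (nat_lit 1) (p (nat_lit 0x41) (nat_lit 0) (p (nat_lit 0x89080788869a) (nat_lit 0) (p (nat_lit 0x88878706861a) (nat_lit 0) (p (nat_lit 0x80000000080687858a) (nat_lit 0) (p (nat_lit 0x80000000078605850a) (nat_lit 0) (p (nat_lit 0x8605868482) (nat_lit 0) (p (nat_lit 0x8585048402) (nat_lit 0) (p (nat_lit 0x160014) (nat_lit 0) (p (nat_lit 0x160004) (nat_lit 0) (p (nat_lit 0x60592) (nat_lit 0) (p (nat_lit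 0x48512) (nat_lit 0) (p (nat_lit 0x50392) (nat_lit 0) (p (nat_lit 0x38312) (nat_lit 0) (p (nat_lit 0x40212) (nat_lit 0) (p (nat_lit 0x28192) (nat_lit 0) (p (nat_lit 0x30092) (nat_lit 0) (p (nat_lit 0x18012) (nat_lit 0) pn))))))))))))))))))))))) :=
  Cl.node (nat_lit 0x20000c) (nat_lit 2) (by decide +kernel) (ClAll.succ (ClAll.succ ClAll.zero s52) n35)

def n63 : Cl (O (nat_lit 2)) (R (nat_lit 139473))
    (p (nat_lit 0xd1) (nat_lit 0) (p (nat_lit 0xc1) (nat_lit 0) (p (nat_lit 0x101) (nat_lit 1) (p (nat_lit 0x119) (nat_lit 0) (p (nat_lit 0xc9) (nat_lit 0) (p (nat_lit 0x89) (nat_lit 1) (p (nat_lit 0x41) (nat_lit 0) (p (nat_lit 0x89080788869a) (nat_lit 0) (p (nat_lit 0x88878706861a) (nat_lit 0) (p (nat_lit 0x80000000080687858a) (nat_lit 0) (p (nat_lit 0x80000000078605850a) (nat_lit 0) (p (nat_lit 0x8605868482) (nat_lit 0) (p (nat_lit 0x8585048402) (nat_lit 0) (p (nat_lit 0x160014) (nat_lit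 0) (p (nat_lit 0x160004) (nat_lit 0) (p (nat_lit 0x60592) (nat_lit 0) (p (nat_lit 0x48512) (nat_lit 0) (p (nat_lit 0x50392) (nat_lit 0) (p (nat_lit 0x38312) (nat_lit 0) (p (nat_lit 0x40212) (nat_lit 0) (p (nat_lit 0x28192) (nat_lit 0) (p (nat_lit 0x30092) (nat_lit 0) (p (nat_lit 0x18012) (nat_lit 0) pn))))))))))))))))))))))) :=
  Cl.node (nat_lit 0x20000c) (nat_lit 2) (by decide +kernel) (ClAll.succ (ClAll.succ ClAll.zero s57) s58)

def n64 : Cl (O (nat_lit 2)) (R (nat_lit 139473))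
    (p (nat_lit 0xd1) (nat_lit 1) (p (nat_lit 0xc1) (nat_lit 0) (p (nat_lit 0x101) (nat_lit 1) (p (nat_lit 0x119) (nat_lit 0) (p (nat_lit 0xc9) (nat_lit 0) (p (nat_lit 0x89) (nat_lit 1) (p (nat_lit 0x41) (nat_lit 0) (p (nat_lit 0x89080788869a) (nat_lit 0) (p (nat_lit 0x88878706861a) (nat_lit 0) (p (nat_lit 0x80000000080687858a) (nat_lit 0) (p (nat_lit 0x80000000078605850a) (nat_lit 0) (p (nat_lit 0x8605868482) (nat_lit 0) (p (nat_lit 0x8585048402) (nat_lit 0) (p (nat_lit 0x160014) (nat_lit 0) (p (nat_lit 0x160004) (nat_lit 0) (p (nat_lit 0x60592) (nat_lit 0) (p (nat_lit 0x48512) (nat_lit 0) (p (nat_lit 0x50392) (nat_lit 0) (p (nat_lit 0x38312) (nat_lit 0) (p (nat_lit 0x40212) (nat_lit 0) (p (nat_lit 0x28192) (nat_lit 0) (p (nat_lit 0x30092) (nat_lit 0) (p (nat_lit 0x18012) (nat_lit 0) pn))))))))))))))))))))))) :=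
  Cl.node (nat_lit 0x20000c) (nat_lit 2) (by decide +kernel) (ClAll.succ (ClAll.succ ClAll.zero s59) s60)

def n65 : Cl (O (nat_lit 2)) (R (nat_lit 139473))
    (p (nat_lit 0x89) (nat_lit 0) (p (nat_lit 0x109) (nat_lit 1) (p (nat_lit 0x101) (nat_lit 0) (p (nat_lit 0x119) (nat_lit 0) (p (nat_lit 0xd1) (nat_lit 0) (p (nat_lit 0x81) (nat_lit 0) (p (nat_lit 0x41) (nat_lit 1) (p (nat_lit 0x89080788869a) (nat_lit 0) (p (nat_lit 0x88878706861a) (nat_lit 0) (p (nat_lit 0x80000000080687858a) (nat_lit 0) (p (nat_lit 0x80000000078605850a) (nat_lit 0) (p (nat_lit 0x8605868482) (nat_lit 0) (p (nat_lit 0x8585048402) (nat_lit 0) (p (nat_lit 0x160014) (nat_lit 0) (p (nat_lit 0x160004) (nat_lit 0) (p (nat_lit 0x60592) (nat_lit 0) (p (nat_lit 0x48512) (nat_lit 0) (p (nat_lit 0x50392) (nat_lit 0) (p (nat_lit 0x38312) (nat_lit 0) (p (nat_lit 0x40212) (nat_lit 0) (p (nat_lit 0x28192) (nat_lit 0) (p (nat_lit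 0x30092) (nat_lit 0) (p (nat_lit 0x18012) (nat_lit 0) pn))))))))))))))))))))))) :=
  Cl.node (nat_lit 0x20000c) (nat_lit 2) (by decide +kernel) (ClAll.succ (ClAll.succ ClAll.zero s72) s73)

def n66 : Cl (O (nat_lit 2)) (R (nat_lit 139473))
    (p (nat_lit 0x89) (nat_lit 1) (p (nat_lit 0x109) (nat_lit 1) (p (nat_lit 0x101) (nat_lit 0) (p (nat_lit 0x119) (nat_lit 0) (p (nat_lit 0xd1) (nat_lit 0) (p (nat_lit 0x81) (nat_lit 0) (p (nat_lit 0x41) (nat_lit 1) (p (nat_lit 0x89080788869a) (nat_lit 0) (p (nat_lit 0x88878706861a) (nat_lit 0) (p (nat_lit 0x80000000080687858a) (nat_lit 0) (p (nat_lit 0x80000000078605850a) (nat_lit 0) (p (nat_lit 0x8605868482) (nat_lit 0) (p (nat_lit 0x8585048402) (nat_lit 0) (p (nat_lit 0x160014) (nat_lit 0) (p (nat_lit 0x160004) (nat_lit 0) (p (nat_lit 0x60592) (nat_lit 0) (p (nat_lit 0x48512) (nat_lit 0) (p (nat_lit 0x50392) (nat_lit 0) (p (nat_lit 0x38312)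 (nat_lit 0) (p (nat_lit 0x40212) (nat_lit 0) (p (nat_lit 0x28192) (nat_lit 0) (p (nat_lit 0x30092) (nat_lit 0) (p (nat_lit 0x18012) (nat_lit 0) pn))))))))))))))))))))))) :=
  Cl.node (nat_lit 0xc9) (nat_lit 2) (by decide +kernel) (ClAll.succ (ClAll.succ ClAll.zero n36) s76)

def n67 : Cl (O (nat_lit 2)) (R (nat_lit 139473))
    (p (nat_lit 0x89) (nat_lit 0) (p (nat_lit 0xc1) (nat_lit 0) (p (nat_lit 0x101) (nat_lit 1) (p (nat_lit 0x119) (nat_lit 0) (p (nat_lit 0xd1) (nat_lit 0) (p (nat_lit 0x81) (nat_lit 0) (p (nat_lit 0x41) (nat_lit 1) (p (nat_lit 0x89080788869a) (nat_lit 0) (p (nat_lit 0x88878706861a) (nat_lit 0) (p (nat_lit 0x80000000080687858a) (nat_lit 0) (p (nat_lit 0x80000000078605850a) (nat_lit 0) (p (nat_lit 0x8605868482) (nat_lit 0) (p (nat_lit 0x8585048402) (nat_lit 0) (p (nat_lit 0x160014) (nat_lit 0) (p (nat_lit 0x160004) (nat_lit 0) (p (nat_lit 0x60592) (nat_lit 0) (p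 (nat_lit 0x48512) (nat_lit 0) (p (nat_lit 0x50392) (nat_lit 0) (p (nat_lit 0x38312) (nat_lit 0) (p (nat_lit 0x40212) (nat_lit 0) (p (nat_lit 0x28192) (nat_lit 0) (p (nat_lit 0x30092) (nat_lit 0) (p (nat_lit 0x18012) (nat_lit 0) pn))))))))))))))))))))))) :=
  Cl.node (nat_lit 0x20000c) (nat_lit 2) (by decide +kernel) (ClAll.succ (ClAll.succ ClAll.zero s77) s78)

def n68 : Cl (O (nat_lit 2)) (R (nat_lit 139473))
    (p (nat_lit 0x89) (nat_lit 1) (p (nat_lit 0xc1) (nat_lit 0) (p (nat_lit 0x101) (nat_lit 1) (p (nat_lit 0x119) (nat_lit 0) (p (nat_lit 0xd1) (nat_lit 0) (p (nat_lit 0x81) (nat_lit 0) (p (nat_lit 0x41) (nat_lit 1) (p (nat_lit 0x89080788869a) (nat_lit 0) (p (nat_lit 0x88878706861a) (nat_lit 0) (p (nat_lit 0x80000000080687858a) (nat_lit 0) (p (nat_lit 0x80000000078605850a) (nat_lit 0) (p (nat_lit 0x8605868482) (nat_lit 0) (p (nat_lit 0x8585048402) (nat_lit 0) (p (nat_lit 0x160014)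 (nat_lit 0) (p (nat_lit 0x160004) (nat_lit 0) (p (nat_lit 0x60592) (nat_lit 0) (p (nat_lit 0x48512) (nat_lit 0) (p (nat_lit 0x50392) (nat_lit 0) (p (nat_lit 0x38312) (nat_lit 0) (p (nat_lit 0x40212) (nat_lit 0) (p (nat_lit 0x28192) (nat_lit 0) (p (nat_lit 0x30092) (nat_lit 0) (p (nat_lit 0x18012) (nat_lit 0) pn))))))))))))))))))))))) :=
  Cl.node (nat_lit 0xc9) (nat_lit 2) (by decide +kernel) (ClAll.succ (ClAll.succ ClAll.zero n37) s81)

def n69 : Cl (O (nat_lit 2)) (R (nat_lit 139473))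
    (p (nat_lit 0x89) (nat_lit 1) (p (nat_lit 0xc1) (nat_lit 1) (p (nat_lit 0x101) (nat_lit 1) (p (nat_lit 0x119) (nat_lit 0) (p (nat_lit 0xd1) (nat_lit 0) (p (nat_lit 0x81) (nat_lit 0) (p (nat_lit 0x41) (nat_lit 1) (p (nat_lit 0x89080788869a) (nat_lit 0) (p (nat_lit 0x88878706861a) (nat_lit 0) (p (nat_lit 0x80000000080687858a) (nat_lit 0) (p (nat_lit 0x80000000078605850a) (nat_lit 0) (p (nat_lit 0x8605868482) (nat_lit 0) (p (nat_lit 0x8585048402) (nat_lit 0) (p (nat_lit 0x160014) (nat_lit 0) (p (nat_lit 0x160004) (nat_lit 0) (p (nat_lit 0x60592) (nat_lit 0) (p (nat_lit 0x48512) (nat_lit 0) (p (nat_lit 0x50392) (nat_lit 0) (p (nat_lit 0x38312) (nat_lit 0) (p (nat_lit 0x40212) (nat_lit 0) (p (nat_lit 0x28192) (nat_lit 0) (p (nat_lit 0x30092) (nat_lit 0) (p (nat_lit 0x18012) (nat_lit 0) pn))))))))))))))))))))))) :=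
  Cl.node (nat_lit 0x20000c) (nat_lit 2) (by decide +kernel) (ClAll.succ (ClAll.succ ClAll.zero s83) n38)

def n70 : Cl (O (nat_lit 2)) (R (nat_lit 139473))
    (p (nat_lit 0x89) (nat_lit 1) (p (nat_lit 0xc9) (nat_lit 1) (p (nat_lit 0xc1) (nat_lit 0) (p (nat_lit 0x119) (nat_lit 1) (p (nat_lit 0xd1) (nat_lit 0) (p (nat_lit 0x81) (nat_lit 0) (p (nat_lit 0x41) (nat_lit 1) (p (nat_lit 0x89080788869a) (nat_lit 0) (p (nat_lit 0x88878706861a) (nat_lit 0) (p (nat_lit 0x80000000080687858a) (nat_lit 0) (p (nat_lit 0x80000000078605850a) (nat_lit 0) (p (nat_lit 0x8605868482) (nat_lit 0) (p (nat_lit 0x8585048402) (nat_lit 0) (p (nat_lit 0x160014) (nat_lit 0) (p (nat_lit 0x160004) (nat_lit 0) (p (nat_lit 0x60592) (nat_lit 0) (p (nat_lit 0x48512) (nat_lit 0) (p (nat_lit 0x50392) (nat_lit 0) (p (nat_lit 0x38312) (nat_lit 0) (p (nat_lit 0x40212) (nat_lit 0) (p (nat_lit 0x28192) (nat_lit 0) (p (nat_lit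 0x30092) (nat_lit 0) (p (nat_lit 0x18012) (nat_lit 0) pn))))))))))))))))))))))) :=
  Cl.node (nat_lit 0x109) (nat_lit 2) (by decide +kernel) (ClAll.succ (ClAll.succ ClAll.zero n39) n40)

def n71 : Cl (O (nat_lit 2)) (R (nat_lit 139473))
    (p (nat_lit 0x89) (nat_lit 1) (p (nat_lit 0x101) (nat_lit 0) (p (nat_lit 0xc1) (nat_lit 1) (p (nat_lit 0x119) (nat_lit 1) (p (nat_lit 0xd1) (nat_lit 0) (p (nat_lit 0x81) (nat_lit 0) (p (nat_lit 0x41) (nat_lit 1) (p (nat_lit 0x89080788869a) (nat_lit 0) (p (nat_lit 0x88878706861a) (nat_lit 0) (p (nat_lit 0x80000000080687858a) (nat_lit 0) (p (nat_lit 0x80000000078605850a) (nat_lit 0) (p (nat_lit 0x8605868482) (nat_lit 0) (p (nat_lit 0x8585048402) (nat_lit 0) (p (nat_lit 0x160014) (nat_lit 0) (p (nat_lit 0x160004) (nat_lit 0) (p (nat_lit 0x60592) (nat_lit 0) (p (nat_lit 0x48512) (nat_lit 0) (p (nat_lit 0x50392) (nat_lit 0) (p (nat_lit 0x38312) (nat_lit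 0) (p (nat_lit 0x40212) (nat_lit 0) (p (nat_lit 0x28192) (nat_lit 0) (p (nat_lit 0x30092) (nat_lit 0) (p (nat_lit 0x18012) (nat_lit 0) pn))))))))))))))))))))))) :=
  Cl.node (nat_lit 0x109) (nat_lit 2) (by decide +kernel) (ClAll.succ (ClAll.succ ClAll.zero s96) n41)

def n72 : Cl (O (nat_lit 2)) (R (nat_lit 139473))
    (p (nat_lit 0x89) (nat_lit 1) (p (nat_lit 0x101) (nat_lit 1) (p (nat_lit 0xc1) (nat_lit 1) (p (nat_lit 0x119) (nat_lit 1) (p (nat_lit 0xd1) (nat_lit 0) (p (nat_lit 0x81) (nat_lit 0) (p (nat_lit 0x41) (nat_lit 1) (p (nat_lit 0x89080788869a) (nat_lit 0) (p (nat_lit 0x88878706861a) (nat_lit 0) (p (nat_lit 0x80000000080687858a) (nat_lit 0) (p (nat_lit 0x80000000078605850a) (nat_lit 0) (p (nat_lit 0x8605868482) (nat_lit 0) (p (nat_lit 0x8585048402) (nat_lit 0) (p (nat_lit 0x160014) (nat_lit 0) (p (nat_lit 0x160004) (nat_lit 0) (p (nat_lit 0x60592) (nat_lit 0) (p (nat_lit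 0x48512) (nat_lit 0) (p (nat_lit 0x50392) (nat_lit 0) (p (nat_lit 0x38312) (nat_lit 0) (p (nat_lit 0x40212) (nat_lit 0) (p (nat_lit 0x28192) (nat_lit 0) (p (nat_lit 0x30092) (nat_lit 0) (p (nat_lit 0x18012) (nat_lit 0) pn))))))))))))))))))))))) :=
  Cl.node (nat_lit 0x20000c) (nat_lit 2) (by decide +kernel) (ClAll.succ (ClAll.succ ClAll.zero n42) s104)

def n73 : Cl (O (nat_lit 2)) (R (nat_lit 139473))
    (p (nat_lit 0x89) (nat_lit 1) (p (nat_lit 0x109) (nat_lit 1) (p (nat_lit 0x101) (nat_lit 0) (p (nat_lit 0x111) (nat_lit 0) (p (nat_lit 0xd1) (nat_lit 1) (p (nat_lit 0x81) (nat_lit 0) (p (nat_lit 0x41) (nat_lit 1) (p (nat_lit 0x89080788869a) (nat_lit 0) (p (nat_lit 0x88878706861a) (nat_lit 0) (p (nat_lit 0x80000000080687858a) (nat_lit 0) (p (nat_lit 0x80000000078605850a) (nat_lit 0) (p (nat_lit 0x8605868482) (nat_lit 0) (p (nat_lit 0x8585048402) (nat_lit 0) (p (nat_lit 0x160014)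 (nat_lit 0) (p (nat_lit 0x160004) (nat_lit 0) (p (nat_lit 0x60592) (nat_lit 0) (p (nat_lit 0x48512) (nat_lit 0) (p (nat_lit 0x50392) (nat_lit 0) (p (nat_lit 0x38312) (nat_lit 0) (p (nat_lit 0x40212) (nat_lit 0) (p (nat_lit 0x28192) (nat_lit 0) (p (nat_lit 0x30092) (nat_lit 0) (p (nat_lit 0x18012) (nat_lit 0) pn))))))))))))))))))))))) :=
  Cl.node (nat_lit 0xc9) (nat_lit 2) (by decide +kernel) (ClAll.succ (ClAll.succ ClAll.zero n43) s112)

def n74 : Cl (O (nat_lit 2)) (R (nat_lit 139473))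
    (p (nat_lit 0x20000c) (nat_lit 1) (p (nat_lit 0x89) (nat_lit 0) (p (nat_lit 0x101) (nat_lit 1) (p (nat_lit 0x111) (nat_lit 0) (p (nat_lit 0xd1) (nat_lit 1) (p (nat_lit 0x81) (nat_lit 0) (p (nat_lit 0x41) (nat_lit 1) (p (nat_lit 0x89080788869a) (nat_lit 0) (p (nat_lit 0x88878706861a) (nat_lit 0) (p (nat_lit 0x80000000080687858a) (nat_lit 0) (p (nat_lit 0x80000000078605850a) (nat_lit 0) (p (nat_lit 0x8605868482) (nat_lit 0) (p (nat_lit 0x8585048402) (nat_lit 0) (p (nat_lit 0x160014) (nat_lit 0) (p (nat_lit 0x160004) (nat_lit 0) (p (nat_lit 0x60592) (nat_lit 0) (p (nat_lit 0x48512) (nat_lit 0) (p (nat_lit 0x50392) (nat_lit 0) (p (nat_lit 0x38312) (nat_lit 0) (p (nat_lit 0x40212) (nat_lit 0) (p (nat_lit 0x28192) (nat_lit 0) (p (nat_lit 0x30092) (nat_lit 0) (p (nat_lit 0x18012) (nat_lit 0) pn))))))))))))))))))))))) :=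
  Cl.node (nat_lit 0xb0004) (nat_lit 2) (by decide +kernel) (ClAll.succ (ClAll.succ ClAll.zero n44) s117)

def n75 : Cl (O (nat_lit 2)) (R (nat_lit 139473))
    (p (nat_lit 0xc9) (nat_lit 0) (p (nat_lit 0x89) (nat_lit 1) (p (nat_lit 0x101) (nat_lit 1) (p (nat_lit 0x111) (nat_lit 0) (p (nat_lit 0xd1) (nat_lit 1) (p (nat_lit 0x81) (nat_lit 0) (p (nat_lit 0x41) (nat_lit 1) (p (nat_lit 0x89080788869a) (nat_lit 0) (p (nat_lit 0x88878706861a) (nat_lit 0) (p (nat_lit 0x80000000080687858a) (nat_lit 0) (p (nat_lit 0x80000000078605850a) (nat_lit 0) (p (nat_lit 0x8605868482) (nat_lit 0) (p (nat_lit 0x8585048402) (nat_lit 0) (p (nat_lit 0x160014) (nat_lit 0) (p (nat_lit 0x160004) (nat_lit 0) (p (nat_lit 0x60592) (nat_lit 0) (p (nat_lit 0x48512) (nat_lit 0) (p (nat_lit 0x50392) (nat_lit 0) (p (nat_lit 0x38312) (nat_lit 0) (p (nat_lit 0x40212) (nat_lit 0) (p (nat_lit 0x28192) (nat_lit 0) (p (nat_lit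 0x30092) (nat_lit 0) (p (nat_lit 0x18012) (nat_lit 0) pn))))))))))))))))))))))) :=
  Cl.node (nat_lit 0x20000c) (nat_lit 2) (by decide +kernel) (ClAll.succ (ClAll.succ ClAll.zero s118) s119)

def n76 : Cl (O (nat_lit 2)) (R (nat_lit 139473))
    (p (nat_lit 0x111) (nat_lit 1) (p (nat_lit 0x109) (nat_lit 0) (p (nat_lit 0x101) (nat_lit 0) (p (nat_lit 0x119) (nat_lit 0) (p (nat_lit 0xc1) (nat_lit 0) (p (nat_lit 0x81) (nat_lit 1) (p (nat_lit 0x41) (nat_lit 1) (p (nat_lit 0x89080788869a) (nat_lit 0) (p (nat_lit 0x88878706861a) (nat_lit 0) (p (nat_lit 0x80000000080687858a) (nat_lit 0) (p (nat_lit 0x80000000078605850a) (nat_lit 0) (p (nat_lit 0x8605868482) (nat_lit 0) (p (nat_lit 0x8585048402) (nat_lit 0) (p (nat_lit 0x160014) (nat_lit 0) (p (nat_lit 0x160004) (nat_lit 0) (p (nat_lit 0x60592) (nat_lit 0) (p (nat_lit 0x48512) (nat_lit 0) (p (nat_lit 0x50392) (nat_lit 0) (p (nat_lit 0x38312)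 (nat_lit 0) (p (nat_lit 0x40212) (nat_lit 0) (p (nat_lit 0x28192) (nat_lit 0) (p (nat_lit 0x30092) (nat_lit 0) (p (nat_lit 0x18012) (nat_lit 0) pn))))))))))))))))))))))) :=
  Cl.node (nat_lit 0xd1) (nat_lit 2) (by decide +kernel) (ClAll.succ (ClAll.succ ClAll.zero s124) n45)

def n77 : Cl (O (nat_lit 2)) (R (nat_lit 139473))
    (p (nat_lit 0xc9) (nat_lit 0) (p (nat_lit 0x109) (nat_lit 1) (p (nat_lit 0x101) (nat_lit 0) (p (nat_lit 0x119) (nat_lit 0) (p (nat_lit 0xc1) (nat_lit 0) (p (nat_lit 0x81) (nat_lit 1) (p (nat_lit 0x41) (nat_lit 1) (p (nat_lit 0x89080788869a) (nat_lit 0) (p (nat_lit 0x88878706861a) (nat_lit 0) (p (nat_lit 0x80000000080687858a) (nat_lit 0) (p (nat_lit 0x80000000078605850a) (nat_lit 0) (p (nat_lit 0x8605868482) (nat_lit 0) (p (nat_lit 0x8585048402) (nat_lit 0) (p (nat_lit 0x160014) (nat_lit 0) (p (nat_lit 0x160004) (nat_lit 0) (p (nat_lit 0x60592) (nat_lit 0)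 (p (nat_lit 0x48512) (nat_lit 0) (p (nat_lit 0x50392) (nat_lit 0) (p (nat_lit 0x38312) (nat_lit 0) (p (nat_lit 0x40212) (nat_lit 0) (p (nat_lit 0x28192) (nat_lit 0) (p (nat_lit 0x30092) (nat_lit 0) (p (nat_lit 0x18012) (nat_lit 0) pn))))))))))))))))))))))) :=
  Cl.node (nat_lit 0xd1) (nat_lit 2) (by decide +kernel) (ClAll.succ (ClAll.succ ClAll.zero s127) n46)

def n78 : Cl (O (nat_lit 2)) (R (nat_lit 139473))
    (p (nat_lit 0xd1) (nat_lit 0) (p (nat_lit 0xc9) (nat_lit 0) (p (nat_lit 0x101) (nat_lit 1) (p (nat_lit 0x119) (nat_lit 0) (p (nat_lit 0xc1) (nat_lit 0) (p (nat_lit 0x81) (nat_lit 1) (p (nat_lit 0x41) (nat_lit 1) (p (nat_lit 0x89080788869a) (nat_lit 0) (p (nat_lit 0x88878706861a) (nat_lit 0) (p (nat_lit 0x80000000080687858a) (nat_lit 0) (p (nat_lit 0x80000000078605850a) (nat_lit 0) (p (nat_lit 0x8605868482) (nat_lit 0) (p (nat_lit 0x8585048402) (nat_lit 0) (p (nat_lit 0x160014)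 (nat_lit 0) (p (nat_lit 0x160004) (nat_lit 0) (p (nat_lit 0x60592) (nat_lit 0) (p (nat_lit 0x48512) (nat_lit 0) (p (nat_lit 0x50392) (nat_lit 0) (p (nat_lit 0x38312) (nat_lit 0) (p (nat_lit 0x40212) (nat_lit 0) (p (nat_lit 0x28192) (nat_lit 0) (p (nat_lit 0x30092) (nat_lit 0) (p (nat_lit 0x18012) (nat_lit 0) pn))))))))))))))))))))))) :=
  Cl.node (nat_lit 0x20000c) (nat_lit 2) (by decide +kernel) (ClAll.succ (ClAll.succ ClAll.zero n47) n48)

def n79 : Cl (O (nat_lit 2)) (R (nat_lit 139473))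
    (p (nat_lit 0xd1) (nat_lit 1) (p (nat_lit 0xc9) (nat_lit 0) (p (nat_lit 0x101) (nat_lit 1) (p (nat_lit 0x119) (nat_lit 0) (p (nat_lit 0xc1) (nat_lit 0) (p (nat_lit 0x81) (nat_lit 1) (p (nat_lit 0x41) (nat_lit 1) (p (nat_lit 0x89080788869a) (nat_lit 0) (p (nat_lit 0x88878706861a) (nat_lit 0) (p (nat_lit 0x80000000080687858a) (nat_lit 0) (p (nat_lit 0x80000000078605850a) (nat_lit 0) (p (nat_lit 0x8605868482) (nat_lit 0) (p (nat_lit 0x8585048402) (nat_lit 0) (p (nat_lit 0x160014) (nat_lit 0) (p (nat_lit 0x160004) (nat_lit 0) (p (nat_lit 0x60592) (nat_lit 0) (p (nat_lit 0x48512) (nat_lit 0) (p (nat_lit 0x50392) (nat_lit 0) (p (nat_lit 0x38312) (nat_lit 0) (p (nat_lit 0x40212) (nat_lit 0) (p (nat_lit 0x28192) (nat_lit 0) (p (nat_lit 0x30092) (nat_lit 0) (p (nat_lit 0x18012) (nat_lit 0) pn))))))))))))))))))))))) :=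
  Cl.node (nat_lit 0x20000c) (nat_lit 2) (by decide +kernel) (ClAll.succ (ClAll.succ ClAll.zero n49) n50)

def n80 : Cl (O (nat_lit 2)) (R (nat_lit 139473))
    (p (nat_lit 0x111) (nat_lit 1) (p (nat_lit 0xd1) (nat_lit 1) (p (nat_lit 0xc9) (nat_lit 0) (p (nat_lit 0x119) (nat_lit 1) (p (nat_lit 0xc1) (nat_lit 0) (p (nat_lit 0x81) (nat_lit 1) (p (nat_lit 0x41) (nat_lit 1) (p (nat_lit 0x89080788869a) (nat_lit 0) (p (nat_lit 0x88878706861a) (nat_lit 0) (p (nat_lit 0x80000000080687858a) (nat_lit 0) (p (nat_lit 0x80000000078605850a) (nat_lit 0) (p (nat_lit 0x8605868482) (nat_lit 0) (p (nat_lit 0x8585048402) (nat_lit 0) (p (nat_lit 0x160014) (nat_lit 0) (p (nat_lit 0x160004) (nat_lit 0) (p (nat_lit 0x60592) (nat_lit 0) (p (nat_lit 0x48512) (nat_lit 0) (p (nat_lit 0x50392) (nat_lit 0) (p (nat_lit 0x38312) (nat_lit 0) (p (nat_lit 0x40212) (nat_lit 0) (p (nat_lit 0x28192) (nat_lit 0) (p (nat_lit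 0x30092) (nat_lit 0) (p (nat_lit 0x18012) (nat_lit 0) pn))))))))))))))))))))))) :=
  Cl.node (nat_lit 0x20000c) (nat_lit 2) (by decide +kernel) (ClAll.succ (ClAll.succ ClAll.zero n51) s151)

def n81 : Cl (O (nat_lit 2)) (R (nat_lit 139473))
    (p (nat_lit 0x111) (nat_lit 1) (p (nat_lit 0x109) (nat_lit 0) (p (nat_lit 0xc9) (nat_lit 1) (p (nat_lit 0x119) (nat_lit 1) (p (nat_lit 0xc1) (nat_lit 0) (p (nat_lit 0x81) (nat_lit 1) (p (nat_lit 0x41) (nat_lit 1) (p (nat_lit 0x89080788869a) (nat_lit 0) (p (nat_lit 0x88878706861a) (nat_lit 0) (p (nat_lit 0x80000000080687858a) (nat_lit 0) (p (nat_lit 0x80000000078605850a) (nat_lit 0) (p (nat_lit 0x8605868482) (nat_lit 0) (p (nat_lit 0x8585048402) (nat_lit 0) (p (nat_lit 0x160014) (nat_lit 0) (p (nat_lit 0x160004) (nat_lit 0) (p (nat_lit 0x60592) (nat_lit 0) (p (nat_lit 0x48512) (nat_lit 0) (p (nat_lit 0x50392) (nat_lit 0) (p (nat_lit 0x38312)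 (nat_lit 0) (p (nat_lit 0x40212) (nat_lit 0) (p (nat_lit 0x28192) (nat_lit 0) (p (nat_lit 0x30092) (nat_lit 0) (p (nat_lit 0x18012) (nat_lit 0) pn))))))))))))))))))))))) :=
  Cl.node (nat_lit 0x20000c) (nat_lit 2) (by decide +kernel) (ClAll.succ (ClAll.succ ClAll.zero n52) s155)

def n82 : Cl (O (nat_lit 2)) (R (nat_lit 139473))
    (p (nat_lit 0x119) (nat_lit 1) (p (nat_lit 0x111) (nat_lit 0) (p (nat_lit 0x109) (nat_lit 0) (p (nat_lit 0x101) (nat_lit 0) (p (nat_lit 0xc1) (nat_lit 1) (p (nat_lit 0x81) (nat_lit 1) (p (nat_lit 0x41) (nat_lit 1) (p (nat_lit 0x89080788869a) (nat_lit 0) (p (nat_lit 0x88878706861a) (nat_lit 0) (p (nat_lit 0x80000000080687858a) (nat_lit 0) (p (nat_lit 0x80000000078605850a) (nat_lit 0) (p (nat_lit 0x8605868482) (nat_lit 0) (p (nat_lit 0x8585048402) (nat_lit 0) (p (nat_lit 0x160014) (nat_lit 0) (p (nat_lit 0x160004) (nat_lit 0) (p (nat_lit 0x60592) (nat_lit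 0) (p (nat_lit 0x48512) (nat_lit 0) (p (nat_lit 0x50392) (nat_lit 0) (p (nat_lit 0x38312) (nat_lit 0) (p (nat_lit 0x40212) (nat_lit 0) (p (nat_lit 0x28192) (nat_lit 0) (p (nat_lit 0x30092) (nat_lit 0) (p (nat_lit 0x18012) (nat_lit 0) pn))))))))))))))))))))))) :=
  Cl.node (nat_lit 0x20000c) (nat_lit 2) (by decide +kernel) (ClAll.succ (ClAll.succ ClAll.zero s159) s160)

def n83 : Cl (O (nat_lit 2)) (R (nat_lit 139473))
    (p (nat_lit 0x109) (nat_lit 1) (p (nat_lit 0x101) (nat_lit 0) (p (nat_lit 0x119) (nat_lit 0) (p (nat_lit 0xd1) (nat_lit 0) (p (nat_lit 0x89) (nat_lit 0) (p (nat_lit 0x41) (nat_lit 0) (p (nat_lit 0x89080788869a) (nat_lit 0) (p (nat_lit 0x88878706861a) (nat_lit 0) (p (nat_lit 0x80000000080687858a) (nat_lit 0) (p (nat_lit 0x80000000078605850a) (nat_lit 0) (p (nat_lit 0x8605868482) (nat_lit 0) (p (nat_lit 0x8585048402) (nat_lit 0) (p (nat_lit 0x160014) (nat_lit 0) (p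 (nat_lit 0x160004) (nat_lit 0) (p (nat_lit 0x60592) (nat_lit 0) (p (nat_lit 0x48512) (nat_lit 0) (p (nat_lit 0x50392) (nat_lit 0) (p (nat_lit 0x38312) (nat_lit 0) (p (nat_lit 0x40212) (nat_lit 0) (p (nat_lit 0x28192) (nat_lit 0) (p (nat_lit 0x30092) (nat_lit 0) (p (nat_lit 0x18012) (nat_lit 0) pn)))))))))))))))))))))) :=
  Cl.node (nat_lit 0xc9) (nat_lit 2) (by decide +kernel) (ClAll.succ (ClAll.succ ClAll.zero s1) n53)

def n84 : Cl (O (nat_lit 2)) (R (nat_lit 139473))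
    (p (nat_lit 0x81) (nat_lit 0) (p (nat_lit 0x101) (nat_lit 1) (p (nat_lit 0x119) (nat_lit 0) (p (nat_lit 0xd1) (nat_lit 0) (p (nat_lit 0x89) (nat_lit 0) (p (nat_lit 0x41) (nat_lit 0) (p (nat_lit 0x89080788869a) (nat_lit 0) (p (nat_lit 0x88878706861a) (nat_lit 0) (p (nat_lit 0x80000000080687858a) (nat_lit 0) (p (nat_lit 0x80000000078605850a) (nat_lit 0) (p (nat_lit 0x8605868482) (nat_lit 0) (p (nat_lit 0x8585048402) (nat_lit 0) (p (nat_lit 0x160014) (nat_lit 0) (p (nat_lit 0x160004) (nat_lit 0) (p (nat_lit 0x60592) (nat_lit 0) (p (nat_lit 0x48512) (nat_lit 0) (p (nat_lit 0x50392) (nat_lit 0) (p (nat_lit 0x38312) (nat_lit 0) (p (nat_lit 0x40212) (nat_lit 0) (p (nat_lit 0x28192) (nat_lit 0) (p (nat_lit 0x30092) (nat_lit 0) (p (nat_lit 0x18012) (nat_lit 0) pn)))))))))))))))))))))) :=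
  Cl.node (nat_lit 0xc9) (nat_lit 2) (by decide +kernel) (ClAll.succ (ClAll.succ ClAll.zero n54) n55)

def n85 : Cl (O (nat_lit 2)) (R (nat_lit 139473))
    (p (nat_lit 0x81) (nat_lit 1) (p (nat_lit 0x101) (nat_lit 1) (p (nat_lit 0x119) (nat_lit 0) (p (nat_lit 0xd1) (nat_lit 0) (p (nat_lit 0x89) (nat_lit 0) (p (nat_lit 0x41) (nat_lit 0) (p (nat_lit 0x89080788869a) (nat_lit 0) (p (nat_lit 0x88878706861a) (nat_lit 0) (p (nat_lit 0x80000000080687858a) (nat_lit 0) (p (nat_lit 0x80000000078605850a) (nat_lit 0) (p (nat_lit 0x8605868482) (nat_lit 0) (p (nat_lit 0x8585048402) (nat_lit 0) (p (nat_lit 0x160014) (nat_lit 0) (p (nat_lit 0x160004) (nat_lit 0) (p (nat_lit 0x60592) (nat_lit 0) (p (nat_lit 0x48512) (nat_lit 0) (p (nat_lit 0x50392) (nat_lit 0) (p (nat_lit 0x38312) (nat_lit 0) (p (nat_lit 0x40212) (nat_lit 0) (p (nat_lit 0x28192) (nat_lit 0) (p (nat_lit 0x30092) (nat_lit 0) (p (nat_lit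 0x18012) (nat_lit 0) pn)))))))))))))))))))))) :=
  Cl.node (nat_lit 0xc1) (nat_lit 2) (by decide +kernel) (ClAll.succ (ClAll.succ ClAll.zero n56) s19)

def n86 : Cl (O (nat_lit 2)) (R (nat_lit 139473))
    (p (nat_lit 0x81) (nat_lit 1) (p (nat_lit 0xc1) (nat_lit 1) (p (nat_lit 0x119) (nat_lit 1) (p (nat_lit 0xd1) (nat_lit 0) (p (nat_lit 0x89) (nat_lit 0) (p (nat_lit 0x41) (nat_lit 0) (p (nat_lit 0x89080788869a) (nat_lit 0) (p (nat_lit 0x88878706861a) (nat_lit 0) (p (nat_lit 0x80000000080687858a) (nat_lit 0) (p (nat_lit 0x80000000078605850a) (nat_lit 0) (p (nat_lit 0x8605868482) (nat_lit 0) (p (nat_lit 0x8585048402) (nat_lit 0) (p (nat_lit 0x160014) (nat_lit 0) (p (nat_lit 0x160004) (nat_lit 0) (p (nat_lit 0x60592) (nat_lit 0) (p (nat_lit 0x48512) (nat_lit 0) (p (nat_lit 0x50392) (nat_lit 0) (p (nat_lit 0x38312) (nat_lit 0) (p (nat_lit 0x40212) (nat_lit 0) (p (nat_lit 0x28192) (nat_lit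 0) (p (nat_lit 0x30092) (nat_lit 0) (p (nat_lit 0x18012) (nat_lit 0) pn)))))))))))))))))))))) :=
  Cl.node (nat_lit 0x101) (nat_lit 2) (by decide +kernel) (ClAll.succ (ClAll.succ ClAll.zero n57) n58)

def n87 : Cl (O (nat_lit 2)) (R (nat_lit 139473))
    (p (nat_lit 0x109) (nat_lit 1) (p (nat_lit 0x101) (nat_lit 0) (p (nat_lit 0x111) (nat_lit 0) (p (nat_lit 0xd1) (nat_lit 1) (p (nat_lit 0x89) (nat_lit 0) (p (nat_lit 0x41) (nat_lit 0) (p (nat_lit 0x89080788869a) (nat_lit 0) (p (nat_lit 0x88878706861a) (nat_lit 0) (p (nat_lit 0x80000000080687858a) (nat_lit 0) (p (nat_lit 0x80000000078605850a) (nat_lit 0) (p (nat_lit 0x8605868482) (nat_lit 0) (p (nat_lit 0x8585048402) (nat_lit 0) (p (nat_lit 0x160014) (nat_lit 0) (p (nat_lit 0x160004) (nat_lit 0) (p (nat_lit 0x60592) (nat_lit 0) (p (nat_lit 0x48512) (nat_lit 0) (p (nat_lit 0x50392) (nat_lit 0) (p (nat_lit 0x38312) (nat_lit 0) (p (nat_lit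 0x40212) (nat_lit 0) (p (nat_lit 0x28192) (nat_lit 0) (p (nat_lit 0x30092) (nat_lit 0) (p (nat_lit 0x18012) (nat_lit 0) pn)))))))))))))))))))))) :=
  Cl.node (nat_lit 0x20000c) (nat_lit 2) (by decide +kernel) (ClAll.succ (ClAll.succ ClAll.zero s30) s31)

def n88 : Cl (O (nat_lit 2)) (R (nat_lit 139473))
    (p (nat_lit 0x81) (nat_lit 0) (p (nat_lit 0x101) (nat_lit 1) (p (nat_lit 0x111) (nat_lit 0) (p (nat_lit 0xd1) (nat_lit 1) (p (nat_lit 0x89) (nat_lit 0) (p (nat_lit 0x41) (nat_lit 0) (p (nat_lit 0x89080788869a) (nat_lit 0) (p (nat_lit 0x88878706861a) (nat_lit 0) (p (nat_lit 0x80000000080687858a) (nat_lit 0) (p (nat_lit 0x80000000078605850a) (nat_lit 0) (p (nat_lit 0x8605868482) (nat_lit 0) (p (nat_lit 0x8585048402) (nat_lit 0) (p (nat_lit 0x160014) (nat_lit 0) (p (nat_lit 0x160004) (nat_lit 0) (p (nat_lit 0x60592) (nat_lit 0) (p (nat_lit 0x48512) (nat_lit 0) (p (nat_lit 0x50392)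 (nat_lit 0) (p (nat_lit 0x38312) (nat_lit 0) (p (nat_lit 0x40212) (nat_lit 0) (p (nat_lit 0x28192) (nat_lit 0) (p (nat_lit 0x30092) (nat_lit 0) (p (nat_lit 0x18012) (nat_lit 0) pn)))))))))))))))))))))) :=
  Cl.node (nat_lit 0x20000c) (nat_lit 2) (by decide +kernel) (ClAll.succ (ClAll.succ ClAll.zero s32) n59)

def n89 : Cl (O (nat_lit 2)) (R (nat_lit 139473))
    (p (nat_lit 0x81) (nat_lit 1) (p (nat_lit 0x101) (nat_lit 1) (p (nat_lit 0x111) (nat_lit 0) (p (nat_lit 0xd1) (nat_lit 1) (p (nat_lit 0x89) (nat_lit 0) (p (nat_lit 0x41) (nat_lit 0) (p (nat_lit 0x89080788869a) (nat_lit 0) (p (nat_lit 0x88878706861a) (nat_lit 0) (p (nat_lit 0x80000000080687858a) (nat_lit 0) (p (nat_lit 0x80000000078605850a) (nat_lit 0) (p (nat_lit 0x8605868482) (nat_lit 0) (p (nat_lit 0x8585048402) (nat_lit 0) (p (nat_lit 0x160014) (nat_lit 0) (p (nat_lit 0x160004) (nat_lit 0) (p (nat_lit 0x60592) (nat_lit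 0) (p (nat_lit 0x48512) (nat_lit 0) (p (nat_lit 0x50392) (nat_lit 0) (p (nat_lit 0x38312) (nat_lit 0) (p (nat_lit 0x40212) (nat_lit 0) (p (nat_lit 0x28192) (nat_lit 0) (p (nat_lit 0x30092) (nat_lit 0) (p (nat_lit 0x18012) (nat_lit 0) pn)))))))))))))))))))))) :=
  Cl.node (nat_lit 0xc1) (nat_lit 2) (by decide +kernel) (ClAll.succ (ClAll.succ ClAll.zero n60) s44)

def n90 : Cl (O (nat_lit 2)) (R (nat_lit 139473))
    (p (nat_lit 0xc1) (nat_lit 1) (p (nat_lit 0x81) (nat_lit 1) (p (nat_lit 0x111) (nat_lit 1) (p (nat_lit 0xd1) (nat_lit 1) (p (nat_lit 0x89) (nat_lit 0) (p (nat_lit 0x41) (nat_lit 0) (p (nat_lit 0x89080788869a) (nat_lit 0) (p (nat_lit 0x88878706861a) (nat_lit 0) (p (nat_lit 0x80000000080687858a) (nat_lit 0) (p (nat_lit 0x80000000078605850a) (nat_lit 0) (p (nat_lit 0x8605868482) (nat_lit 0) (p (nat_lit 0x8585048402) (nat_lit 0) (p (nat_lit 0x160014) (nat_lit 0) (p (nat_lit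 0x160004) (nat_lit 0) (p (nat_lit 0x60592) (nat_lit 0) (p (nat_lit 0x48512) (nat_lit 0) (p (nat_lit 0x50392) (nat_lit 0) (p (nat_lit 0x38312) (nat_lit 0) (p (nat_lit 0x40212) (nat_lit 0) (p (nat_lit 0x28192) (nat_lit 0) (p (nat_lit 0x30092) (nat_lit 0) (p (nat_lit 0x18012) (nat_lit 0) pn)))))))))))))))))))))) :=
  Cl.node (nat_lit 0x101) (nat_lit 2) (by decide +kernel) (ClAll.succ (ClAll.succ ClAll.zero n61) s49)

def n91 : Cl (O (nat_lit 2)) (R (nat_lit 139473))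
    (p (nat_lit 0x109) (nat_lit 1) (p (nat_lit 0x101) (nat_lit 0) (p (nat_lit 0x119) (nat_lit 0) (p (nat_lit 0xc9) (nat_lit 0) (p (nat_lit 0x89) (nat_lit 1) (p (nat_lit 0x41) (nat_lit 0) (p (nat_lit 0x89080788869a) (nat_lit 0) (p (nat_lit 0x88878706861a) (nat_lit 0) (p (nat_lit 0x80000000080687858a) (nat_lit 0) (p (nat_lit 0x80000000078605850a) (nat_lit 0) (p (nat_lit 0x8605868482) (nat_lit 0) (p (nat_lit 0x8585048402) (nat_lit 0) (p (nat_lit 0x160014) (nat_lit 0) (p (nat_lit 0x160004) (nat_lit 0) (p (nat_lit 0x60592) (nat_lit 0) (p (nat_lit 0x48512) (nat_lit 0) (p (nat_lit 0x50392) (nat_lit 0) (p (nat_lit 0x38312) (nat_lit 0) (p (nat_lit 0x40212) (nat_lit 0) (p (nat_lit 0x28192) (nat_lit 0) (p (nat_lit 0x30092) (nat_lit 0) (p (nat_lit 0x18012) (nat_lit 0) pn)))))))))))))))))))))) :=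
  Cl.node (nat_lit 0xd1) (nat_lit 2) (by decide +kernel) (ClAll.succ (ClAll.succ ClAll.zero s51) n62)

def n92 : Cl (O (nat_lit 2)) (R (nat_lit 139473))
    (p (nat_lit 0xc1) (nat_lit 0) (p (nat_lit 0x101) (nat_lit 1) (p (nat_lit 0x119) (nat_lit 0) (p (nat_lit 0xc9) (nat_lit 0) (p (nat_lit 0x89) (nat_lit 1) (p (nat_lit 0x41) (nat_lit 0) (p (nat_lit 0x89080788869a) (nat_lit 0) (p (nat_lit 0x88878706861a) (nat_lit 0) (p (nat_lit 0x80000000080687858a) (nat_lit 0) (p (nat_lit 0x80000000078605850a) (nat_lit 0) (p (nat_lit 0x8605868482) (nat_lit 0) (p (nat_lit 0x8585048402) (nat_lit 0) (p (nat_lit 0x160014) (nat_lit 0) (p (nat_lit 0x160004) (nat_lit 0) (p (nat_lit 0x60592) (nat_lit 0) (p (nat_lit 0x48512) (nat_lit 0) (p (nat_lit 0x50392) (nat_lit 0) (p (nat_lit 0x38312) (nat_lit 0) (p (nat_lit 0x40212) (nat_lit 0) (p (nat_lit 0x28192) (nat_lit 0) (p (nat_lit 0x30092) (nat_lit 0) (p (nat_lit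 0x18012) (nat_lit 0) pn)))))))))))))))))))))) :=
  Cl.node (nat_lit 0xd1) (nat_lit 2) (by decide +kernel) (ClAll.succ (ClAll.succ ClAll.zero n63) n64)

def n93 : Cl (O (nat_lit 2)) (R (nat_lit 139473))
    (p (nat_lit 0x101) (nat_lit 0) (p (nat_lit 0xc1) (nat_lit 1) (p (nat_lit 0x119) (nat_lit 1) (p (nat_lit 0xc9) (nat_lit 0) (p (nat_lit 0x89) (nat_lit 1) (p (nat_lit 0x41) (nat_lit 0) (p (nat_lit 0x89080788869a) (nat_lit 0) (p (nat_lit 0x88878706861a) (nat_lit 0) (p (nat_lit 0x80000000080687858a) (nat_lit 0) (p (nat_lit 0x80000000078605850a) (nat_lit 0) (p (nat_lit 0x8605868482) (nat_lit 0) (p (nat_lit 0x8585048402) (nat_lit 0) (p (nat_lit 0x160014) (nat_lit 0) (p (nat_lit 0x160004) (nat_lit 0) (p (nat_lit 0x60592) (nat_lit 0) (p (nat_lit 0x48512) (nat_lit 0) (p (nat_lit 0x50392) (nat_lit 0) (p (nat_lit 0x38312) (nat_lit 0) (p (nat_lit 0x40212) (nat_lit 0) (p (nat_lit 0x28192) (nat_lit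 0) (p (nat_lit 0x30092) (nat_lit 0) (p (nat_lit 0x18012) (nat_lit 0) pn)))))))))))))))))))))) :=
  Cl.node (nat_lit 0x111) (nat_lit 2) (by decide +kernel) (ClAll.succ (ClAll.succ ClAll.zero s64) s65)

def n94 : Cl (O (nat_lit 2)) (R (nat_lit 139473))
    (p (nat_lit 0x109) (nat_lit 1) (p (nat_lit 0x101) (nat_lit 0) (p (nat_lit 0x119) (nat_lit 0) (p (nat_lit 0xd1) (nat_lit 0) (p (nat_lit 0x81) (nat_lit 0) (p (nat_lit 0x41) (nat_lit 1) (p (nat_lit 0x89080788869a) (nat_lit 0) (p (nat_lit 0x88878706861a) (nat_lit 0) (p (nat_lit 0x80000000080687858a) (nat_lit 0) (p (nat_lit 0x80000000078605850a) (nat_lit 0) (p (nat_lit 0x8605868482) (nat_lit 0) (p (nat_lit 0x8585048402) (nat_lit 0) (p (nat_lit 0x160014) (nat_lit 0) (p (nat_lit 0x160004) (nat_lit 0) (p (nat_lit 0x60592) (nat_lit 0) (p (nat_lit 0x48512) (nat_lit 0) (p (nat_lit 0x50392) (nat_lit 0) (p (nat_lit 0x38312) (nat_lit 0) (p (nat_lit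 0x40212) (nat_lit 0) (p (nat_lit 0x28192) (nat_lit 0) (p (nat_lit 0x30092) (nat_lit 0) (p (nat_lit 0x18012) (nat_lit 0) pn)))))))))))))))))))))) :=
  Cl.node (nat_lit 0x89) (nat_lit 2) (by decide +kernel) (ClAll.succ (ClAll.succ ClAll.zero n65) n66)

def n95 : Cl (O (nat_lit 2)) (R (nat_lit 139473))
    (p (nat_lit 0xc1) (nat_lit 0) (p (nat_lit 0x101) (nat_lit 1) (p (nat_lit 0x119) (nat_lit 0) (p (nat_lit 0xd1) (nat_lit 0) (p (nat_lit 0x81) (nat_lit 0) (p (nat_lit 0x41) (nat_lit 1) (p (nat_lit 0x89080788869a) (nat_lit 0) (p (nat_lit 0x88878706861a) (nat_lit 0) (p (nat_lit 0x80000000080687858a) (nat_lit 0) (p (nat_lit 0x80000000078605850a) (nat_lit 0) (p (nat_lit 0x8605868482) (nat_lit 0) (p (nat_lit 0x8585048402) (nat_lit 0) (p (nat_lit 0x160014) (nat_lit 0) (p (nat_lit 0x160004) (nat_lit 0) (p (nat_lit 0x60592) (nat_lit 0) (p (nat_lit 0x48512) (nat_lit 0) (p (nat_lit 0x50392) (nat_lit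 0) (p (nat_lit 0x38312) (nat_lit 0) (p (nat_lit 0x40212) (nat_lit 0) (p (nat_lit 0x28192) (nat_lit 0) (p (nat_lit 0x30092) (nat_lit 0) (p (nat_lit 0x18012) (nat_lit 0) pn)))))))))))))))))))))) :=
  Cl.node (nat_lit 0x89) (nat_lit 2) (by decide +kernel) (ClAll.succ (ClAll.succ ClAll.zero n67) n68)

def n96 : Cl (O (nat_lit 2)) (R (nat_lit 139473))
    (p (nat_lit 0xc1) (nat_lit 1) (p (nat_lit 0x101) (nat_lit 1) (p (nat_lit 0x119) (nat_lit 0) (p (nat_lit 0xd1) (nat_lit 0) (p (nat_lit 0x81) (nat_lit 0) (p (nat_lit 0x41) (nat_lit 1) (p (nat_lit 0x89080788869a) (nat_lit 0) (p (nat_lit 0x88878706861a) (nat_lit 0) (p (nat_lit 0x80000000080687858a) (nat_lit 0) (p (nat_lit 0x80000000078605850a) (nat_lit 0) (p (nat_lit 0x8605868482) (nat_lit 0) (p (nat_lit 0x8585048402) (nat_lit 0) (p (nat_lit 0x160014) (nat_lit 0) (p (nat_lit 0x160004) (nat_lit 0) (p (nat_lit 0x60592) (nat_lit 0) (p (nat_lit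 0x48512) (nat_lit 0) (p (nat_lit 0x50392) (nat_lit 0) (p (nat_lit 0x38312) (nat_lit 0) (p (nat_lit 0x40212) (nat_lit 0) (p (nat_lit 0x28192) (nat_lit 0) (p (nat_lit 0x30092) (nat_lit 0) (p (nat_lit 0x18012) (nat_lit 0) pn)))))))))))))))))))))) :=
  Cl.node (nat_lit 0x89) (nat_lit 2) (by decide +kernel) (ClAll.succ (ClAll.succ ClAll.zero s82) n69)

def n97 : Cl (O (nat_lit 2)) (R (nat_lit 139473))
    (p (nat_lit 0xc9) (nat_lit 1) (p (nat_lit 0xc1) (nat_lit 0) (p (nat_lit 0x119) (nat_lit 1) (p (nat_lit 0xd1) (nat_lit 0) (p (nat_lit 0x81) (nat_lit 0) (p (nat_lit 0x41) (nat_lit 1) (p (nat_lit 0x89080788869a) (nat_lit 0) (p (nat_lit 0x88878706861a) (nat_lit 0) (p (nat_lit 0x80000000080687858a) (nat_lit 0) (p (nat_lit 0x80000000078605850a) (nat_lit 0) (p (nat_lit 0x8605868482) (nat_lit 0) (p (nat_lit 0x8585048402) (nat_lit 0) (p (nat_lit 0x160014) (nat_lit 0) (p (nat_lit 0x160004) (nat_lit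 0) (p (nat_lit 0x60592) (nat_lit 0) (p (nat_lit 0x48512) (nat_lit 0) (p (nat_lit 0x50392) (nat_lit 0) (p (nat_lit 0x38312) (nat_lit 0) (p (nat_lit 0x40212) (nat_lit 0) (p (nat_lit 0x28192) (nat_lit 0) (p (nat_lit 0x30092) (nat_lit 0) (p (nat_lit 0x18012) (nat_lit 0) pn)))))))))))))))))))))) :=
  Cl.node (nat_lit 0x89) (nat_lit 2) (by decide +kernel) (ClAll.succ (ClAll.succ ClAll.zero s89) n70)

def n98 : Cl (O (nat_lit 2)) (R (nat_lit 139473))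
    (p (nat_lit 0x101) (nat_lit 0) (p (nat_lit 0xc1) (nat_lit 1) (p (nat_lit 0x119) (nat_lit 1) (p (nat_lit 0xd1) (nat_lit 0) (p (nat_lit 0x81) (nat_lit 0) (p (nat_lit 0x41) (nat_lit 1) (p (nat_lit 0x89080788869a) (nat_lit 0) (p (nat_lit 0x88878706861a) (nat_lit 0) (p (nat_lit 0x80000000080687858a) (nat_lit 0) (p (nat_lit 0x80000000078605850a) (nat_lit 0) (p (nat_lit 0x8605868482) (nat_lit 0) (p (nat_lit 0x8585048402) (nat_lit 0) (p (nat_lit 0x160014) (nat_lit 0) (p (nat_lit 0x160004) (nat_lit 0) (p (nat_lit 0x60592) (nat_lit 0) (p (nat_lit 0x48512) (nat_lit 0) (p (nat_lit 0x50392) (nat_lit 0) (p (nat_lit 0x38312) (nat_lit 0) (p (nat_lit 0x40212) (nat_lit 0) (p (nat_lit 0x28192) (nat_lit 0) (p (nat_lit 0x30092) (nat_lit 0) (p (nat_lit 0x18012) (nat_lit 0) pn)))))))))))))))))))))) :=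
  Cl.node (nat_lit 0x89) (nat_lit 2) (by decide +kernel) (ClAll.succ (ClAll.succ ClAll.zero s95) n71)

def n99 : Cl (O (nat_lit 2)) (R (nat_lit 139473))
    (p (nat_lit 0x101) (nat_lit 1) (p (nat_lit 0xc1) (nat_lit 1) (p (nat_lit 0x119) (nat_lit 1) (p (nat_lit 0xd1) (nat_lit 0) (p (nat_lit 0x81) (nat_lit 0) (p (nat_lit 0x41) (nat_lit 1) (p (nat_lit 0x89080788869a) (nat_lit 0) (p (nat_lit 0x88878706861a) (nat_lit 0) (p (nat_lit 0x80000000080687858a) (nat_lit 0) (p (nat_lit 0x80000000078605850a) (nat_lit 0) (p (nat_lit 0x8605868482) (nat_lit 0) (p (nat_lit 0x8585048402) (nat_lit 0) (p (nat_lit 0x160014) (nat_lit 0) (p (nat_lit 0x160004) (nat_lit 0) (p (nat_lit 0x60592) (nat_lit 0) (p (nat_lit 0x48512) (nat_lit 0) (p (nat_lit 0x50392) (nat_lit 0) (p (nat_lit 0x38312) (nat_lit 0) (p (nat_lit 0x40212) (nat_lit 0) (p (nat_lit 0x28192) (nat_lit 0) (p (nat_lit 0x30092) (nat_lit 0) (p (nat_lit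 0x18012) (nat_lit 0) pn)))))))))))))))))))))) :=
  Cl.node (nat_lit 0x89) (nat_lit 2) (by decide +kernel) (ClAll.succ (ClAll.succ ClAll.zero s101) n72)

def n100 : Cl (O (nat_lit 2)) (R (nat_lit 139473))
    (p (nat_lit 0x109) (nat_lit 1) (p (nat_lit 0x101) (nat_lit 0) (p (nat_lit 0x111) (nat_lit 0) (p (nat_lit 0xd1) (nat_lit 1) (p (nat_lit 0x81) (nat_lit 0) (p (nat_lit 0x41) (nat_lit 1) (p (nat_lit 0x89080788869a) (nat_lit 0) (p (nat_lit 0x88878706861a) (nat_lit 0) (p (nat_lit 0x80000000080687858a) (nat_lit 0) (p (nat_lit 0x80000000078605850a) (nat_lit 0) (p (nat_lit 0x8605868482) (nat_lit 0) (p (nat_lit 0x8585048402) (nat_lit 0) (p (nat_lit 0x160014) (nat_lit 0) (p (nat_lit 0x160004) (nat_lit 0) (p (nat_lit 0x60592) (nat_lit 0) (p (nat_lit 0x48512) (nat_lit 0) (p (nat_lit 0x50392) (nat_lit 0) (p (nat_lit 0x38312) (nat_lit 0) (p (nat_lit 0x40212) (nat_lit 0) (p (nat_lit 0x28192)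 (nat_lit 0) (p (nat_lit 0x30092) (nat_lit 0) (p (nat_lit 0x18012) (nat_lit 0) pn)))))))))))))))))))))) :=
  Cl.node (nat_lit 0x89) (nat_lit 2) (by decide +kernel) (ClAll.succ (ClAll.succ ClAll.zero s106) n73)

def n101 : Cl (O (nat_lit 2)) (R (nat_lit 139473))
    (p (nat_lit 0x89) (nat_lit 0) (p (nat_lit 0x101) (nat_lit 1) (p (nat_lit 0x111) (nat_lit 0) (p (nat_lit 0xd1) (nat_lit 1) (p (nat_lit 0x81) (nat_lit 0) (p (nat_lit 0x41) (nat_lit 1) (p (nat_lit 0x89080788869a) (nat_lit 0) (p (nat_lit 0x88878706861a) (nat_lit 0) (p (nat_lit 0x80000000080687858a) (nat_lit 0) (p (nat_lit 0x80000000078605850a) (nat_lit 0) (p (nat_lit 0x8605868482) (nat_lit 0) (p (nat_lit 0x8585048402) (nat_lit 0) (p (nat_lit 0x160014) (nat_lit 0) (p (nat_lit 0x160004) (nat_lit 0) (p (nat_lit 0x60592) (nat_lit 0) (p (nat_lit 0x48512) (nat_lit 0) (p (nat_lit 0x50392) (nat_lit 0) (p (nat_lit 0x38312) (nat_lit 0)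 (p (nat_lit 0x40212) (nat_lit 0) (p (nat_lit 0x28192) (nat_lit 0) (p (nat_lit 0x30092) (nat_lit 0) (p (nat_lit 0x18012) (nat_lit 0) pn)))))))))))))))))))))) :=
  Cl.node (nat_lit 0x20000c) (nat_lit 2) (by decide +kernel) (ClAll.succ (ClAll.succ ClAll.zero s113) n74)

def n102 : Cl (O (nat_lit 2)) (R (nat_lit 139473))
    (p (nat_lit 0x89) (nat_lit 1) (p (nat_lit 0x101) (nat_lit 1) (p (nat_lit 0x111) (nat_lit 0) (p (nat_lit 0xd1) (nat_lit 1) (p (nat_lit 0x81) (nat_lit 0) (p (nat_lit 0x41) (nat_lit 1) (p (nat_lit 0x89080788869a) (nat_lit 0) (p (nat_lit 0x88878706861a) (nat_lit 0) (p (nat_lit 0x80000000080687858a) (nat_lit 0) (p (nat_lit 0x80000000078605850a) (nat_lit 0) (p (nat_lit 0x8605868482) (nat_lit 0) (p (nat_lit 0x8585048402) (nat_lit 0) (p (nat_lit 0x160014) (nat_lit 0) (p (nat_lit 0x160004) (nat_lit 0) (p (nat_lit 0x60592) (nat_lit 0) (p (nat_lit 0x48512) (nat_lit 0) (p (nat_lit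 0x50392) (nat_lit 0) (p (nat_lit 0x38312) (nat_lit 0) (p (nat_lit 0x40212) (nat_lit 0) (p (nat_lit 0x28192) (nat_lit 0) (p (nat_lit 0x30092) (nat_lit 0) (p (nat_lit 0x18012) (nat_lit 0) pn)))))))))))))))))))))) :=
  Cl.node (nat_lit 0xc9) (nat_lit 2) (by decide +kernel) (ClAll.succ (ClAll.succ ClAll.zero n75) s120)

def n103 : Cl (O (nat_lit 2)) (R (nat_lit 139473))
    (p (nat_lit 0x109) (nat_lit 0) (p (nat_lit 0x101) (nat_lit 0) (p (nat_lit 0x119) (nat_lit 0) (p (nat_lit 0xc1) (nat_lit 0) (p (nat_lit 0x81) (nat_lit 1) (p (nat_lit 0x41) (nat_lit 1) (p (nat_lit 0x89080788869a) (nat_lit 0) (p (nat_lit 0x88878706861a) (nat_lit 0) (p (nat_lit 0x80000000080687858a) (nat_lit 0) (p (nat_lit 0x80000000078605850a) (nat_lit 0) (p (nat_lit 0x8605868482) (nat_lit 0) (p (nat_lit 0x8585048402) (nat_lit 0) (p (nat_lit 0x160014) (nat_lit 0) (p (nat_lit 0x160004) (nat_lit 0) (p (nat_lit 0x60592)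 (nat_lit 0) (p (nat_lit 0x48512) (nat_lit 0) (p (nat_lit 0x50392) (nat_lit 0) (p (nat_lit 0x38312) (nat_lit 0) (p (nat_lit 0x40212) (nat_lit 0) (p (nat_lit 0x28192) (nat_lit 0) (p (nat_lit 0x30092) (nat_lit 0) (p (nat_lit 0x18012) (nat_lit 0) pn)))))))))))))))))))))) :=
  Cl.node (nat_lit 0x111) (nat_lit 2) (by decide +kernel) (ClAll.succ (ClAll.succ ClAll.zero s123) n76)

def n104 : Cl (O (nat_lit 2)) (R (nat_lit 139473))
    (p (nat_lit 0x109) (nat_lit 1) (p (nat_lit 0x101) (nat_lit 0) (p (nat_lit 0x119) (nat_lit 0) (p (nat_lit 0xc1) (nat_lit 0) (p (nat_lit 0x81) (nat_lit 1) (p (nat_lit 0x41) (nat_lit 1) (p (nat_lit 0x89080788869a) (nat_lit 0) (p (nat_lit 0x88878706861a) (nat_lit 0) (p (nat_lit 0x80000000080687858a) (nat_lit 0) (p (nat_lit 0x80000000078605850a) (nat_lit 0) (p (nat_lit 0x8605868482) (nat_lit 0) (p (nat_lit 0x8585048402) (nat_lit 0) (p (nat_lit 0x160014) (nat_lit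 0) (p (nat_lit 0x160004) (nat_lit 0) (p (nat_lit 0x60592) (nat_lit 0) (p (nat_lit 0x48512) (nat_lit 0) (p (nat_lit 0x50392) (nat_lit 0) (p (nat_lit 0x38312) (nat_lit 0) (p (nat_lit 0x40212) (nat_lit 0) (p (nat_lit 0x28192) (nat_lit 0) (p (nat_lit 0x30092) (nat_lit 0) (p (nat_lit 0x18012) (nat_lit 0) pn)))))))))))))))))))))) :=
  Cl.node (nat_lit 0xc9) (nat_lit 2) (by decide +kernel) (ClAll.succ (ClAll.succ ClAll.zero n77) s130)

def n105 : Cl (O (nat_lit 2)) (R (nat_lit 139473))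
    (p (nat_lit 0xc9) (nat_lit 0) (p (nat_lit 0x101) (nat_lit 1) (p (nat_lit 0x119) (nat_lit 0) (p (nat_lit 0xc1) (nat_lit 0) (p (nat_lit 0x81) (nat_lit 1) (p (nat_lit 0x41) (nat_lit 1) (p (nat_lit 0x89080788869a) (nat_lit 0) (p (nat_lit 0x88878706861a) (nat_lit 0) (p (nat_lit 0x80000000080687858a) (nat_lit 0) (p (nat_lit 0x80000000078605850a) (nat_lit 0) (p (nat_lit 0x8605868482) (nat_lit 0) (p (nat_lit 0x8585048402) (nat_lit 0) (p (nat_lit 0x160014) (nat_lit 0) (p (nat_lit 0x160004) (nat_lit 0) (p (nat_lit 0x60592) (nat_lit 0) (p (nat_lit 0x48512) (nat_lit 0) (p (nat_lit 0x50392) (nat_lit 0) (p (nat_lit 0x38312) (nat_lit 0) (p (nat_lit 0x40212) (nat_lit 0) (p (nat_lit 0x28192) (nat_lit 0) (p (nat_lit 0x30092) (nat_lit 0) (p (nat_lit 0x18012) (nat_lit 0) pn)))))))))))))))))))))) :=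
  Cl.node (nat_lit 0xd1) (nat_lit 2) (by decide +kernel) (ClAll.succ (ClAll.succ ClAll.zero n78) n79)

def n106 : Cl (O (nat_lit 2)) (R (nat_lit 139473))
    (p (nat_lit 0xc9) (nat_lit 1) (p (nat_lit 0x101) (nat_lit 1) (p (nat_lit 0x119) (nat_lit 0) (p (nat_lit 0xc1) (nat_lit 0) (p (nat_lit 0x81) (nat_lit 1) (p (nat_lit 0x41) (nat_lit 1) (p (nat_lit 0x89080788869a) (nat_lit 0) (p (nat_lit 0x88878706861a) (nat_lit 0) (p (nat_lit 0x80000000080687858a) (nat_lit 0) (p (nat_lit 0x80000000078605850a) (nat_lit 0) (p (nat_lit 0x8605868482) (nat_lit 0) (p (nat_lit 0x8585048402) (nat_lit 0) (p (nat_lit 0x160014) (nat_lit 0) (p (nat_lit 0x160004) (nat_lit 0) (p (nat_lit 0x60592) (nat_lit 0) (p (nat_lit 0x48512) (nat_lit 0) (p (nat_lit 0x50392) (nat_lit 0) (p (nat_lit 0x38312) (nat_lit 0) (p (nat_lit 0x40212) (nat_lit 0) (p (nat_lit 0x28192) (nat_lit 0) (p (nat_lit 0x30092) (nat_lit 0) (p (nat_lit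 0x18012) (nat_lit 0) pn)))))))))))))))))))))) :=
  Cl.node (nat_lit 0x20000c) (nat_lit 2) (by decide +kernel) (ClAll.succ (ClAll.succ ClAll.zero s144) s145)

def n107 : Cl (O (nat_lit 2)) (R (nat_lit 139473))
    (p (nat_lit 0xd1) (nat_lit 1) (p (nat_lit 0xc9) (nat_lit 0) (p (nat_lit 0x119) (nat_lit 1) (p (nat_lit 0xc1) (nat_lit 0) (p (nat_lit 0x81) (nat_lit 1) (p (nat_lit 0x41) (nat_lit 1) (p (nat_lit 0x89080788869a) (nat_lit 0) (p (nat_lit 0x88878706861a) (nat_lit 0) (p (nat_lit 0x80000000080687858a) (nat_lit 0) (p (nat_lit 0x80000000078605850a) (nat_lit 0) (p (nat_lit 0x8605868482) (nat_lit 0) (p (nat_lit 0x8585048402) (nat_lit 0) (p (nat_lit 0x160014) (nat_lit 0) (p (nat_lit 0x160004) (nat_lit 0) (p (nat_lit 0x60592) (nat_lit 0) (p (nat_lit 0x48512) (nat_lit 0) (p (nat_lit 0x50392) (nat_lit 0) (p (nat_lit 0x38312) (nat_lit 0) (p (nat_lit 0x40212) (nat_lit 0) (p (nat_lit 0x28192)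 (nat_lit 0) (p (nat_lit 0x30092) (nat_lit 0) (p (nat_lit 0x18012) (nat_lit 0) pn)))))))))))))))))))))) :=
  Cl.node (nat_lit 0x111) (nat_lit 2) (by decide +kernel) (ClAll.succ (ClAll.succ ClAll.zero s147) n80)

def n108 : Cl (O (nat_lit 2)) (R (nat_lit 139473))
    (p (nat_lit 0x109) (nat_lit 0) (p (nat_lit 0xc9) (nat_lit 1) (p (nat_lit 0x119) (nat_lit 1) (p (nat_lit 0xc1) (nat_lit 0) (p (nat_lit 0x81) (nat_lit 1) (p (nat_lit 0x41) (nat_lit 1) (p (nat_lit 0x89080788869a) (nat_lit 0) (p (nat_lit 0x88878706861a) (nat_lit 0) (p (nat_lit 0x80000000080687858a) (nat_lit 0) (p (nat_lit 0x80000000078605850a) (nat_lit 0) (p (nat_lit 0x8605868482) (nat_lit 0) (p (nat_lit 0x8585048402) (nat_lit 0) (p (nat_lit 0x160014) (nat_lit 0) (p (nat_lit 0x160004) (nat_lit 0) (p (nat_lit 0x60592) (nat_lit 0) (p (nat_lit 0x48512) (nat_lit 0) (p (nat_lit 0x50392) (nat_lit 0) (p (nat_lit 0x38312) (nat_lit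 0) (p (nat_lit 0x40212) (nat_lit 0) (p (nat_lit 0x28192) (nat_lit 0) (p (nat_lit 0x30092) (nat_lit 0) (p (nat_lit 0x18012) (nat_lit 0) pn)))))))))))))))))))))) :=
  Cl.node (nat_lit 0x111) (nat_lit 2) (by decide +kernel) (ClAll.succ (ClAll.succ ClAll.zero s152) n81)

def n109 : Cl (O (nat_lit 2)) (R (nat_lit 139473))
    (p (nat_lit 0x109) (nat_lit 1) (p (nat_lit 0xc9) (nat_lit 1) (p (nat_lit 0x119) (nat_lit 1) (p (nat_lit 0xc1) (nat_lit 0) (p (nat_lit 0x81) (nat_lit 1) (p (nat_lit 0x41) (nat_lit 1) (p (nat_lit 0x89080788869a) (nat_lit 0) (p (nat_lit 0x88878706861a) (nat_lit 0) (p (nat_lit 0x80000000080687858a) (nat_lit 0) (p (nat_lit 0x80000000078605850a) (nat_lit 0) (p (nat_lit 0x8605868482) (nat_lit 0) (p (nat_lit 0x8585048402) (nat_lit 0) (p (nat_lit 0x160014) (nat_lit 0) (p (nat_lit 0x160004) (nat_lit 0) (p (nat_lit 0x60592) (nat_lit 0) (p (nat_lit 0x48512) (nat_lit 0) (p (nat_lit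 0x50392) (nat_lit 0) (p (nat_lit 0x38312) (nat_lit 0) (p (nat_lit 0x40212) (nat_lit 0) (p (nat_lit 0x28192) (nat_lit 0) (p (nat_lit 0x30092) (nat_lit 0) (p (nat_lit 0x18012) (nat_lit 0) pn)))))))))))))))))))))) :=
  Cl.node (nat_lit 0x20000c) (nat_lit 2) (by decide +kernel) (ClAll.succ (ClAll.succ ClAll.zero s156) s157)

def n110 : Cl (O (nat_lit 2)) (R (nat_lit 139473))
    (p (nat_lit 0x111) (nat_lit 0) (p (nat_lit 0x109) (nat_lit 0) (p (nat_lit 0x101) (nat_lit 0) (p (nat_lit 0xc1) (nat_lit 1) (p (nat_lit 0x81) (nat_lit 1) (p (nat_lit 0x41) (nat_lit 1) (p (nat_lit 0x89080788869a) (nat_lit 0) (p (nat_lit 0x88878706861a) (nat_lit 0) (p (nat_lit 0x80000000080687858a) (nat_lit 0) (p (nat_lit 0x80000000078605850a) (nat_lit 0) (p (nat_lit 0x8605868482) (nat_lit 0) (p (nat_lit 0x8585048402) (nat_lit 0) (p (nat_lit 0x160014) (nat_lit 0) (p (nat_lit 0x160004) (nat_lit 0) (p (nat_lit 0x60592)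 (nat_lit 0) (p (nat_lit 0x48512) (nat_lit 0) (p (nat_lit 0x50392) (nat_lit 0) (p (nat_lit 0x38312) (nat_lit 0) (p (nat_lit 0x40212) (nat_lit 0) (p (nat_lit 0x28192) (nat_lit 0) (p (nat_lit 0x30092) (nat_lit 0) (p (nat_lit 0x18012) (nat_lit 0) pn)))))))))))))))))))))) :=
  Cl.node (nat_lit 0x119) (nat_lit 2) (by decide +kernel) (ClAll.succ (ClAll.succ ClAll.zero s158) n82)

def n111 : Cl (O (nat_lit 2)) (R (nat_lit 139473))
    (p (nat_lit 0x101) (nat_lit 0) (p (nat_lit 0x119) (nat_lit 0) (p (nat_lit 0xd1) (nat_lit 0) (p (nat_lit 0x89) (nat_lit 0) (p (nat_lit 0x41) (nat_lit 0) (p (nat_lit 0x89080788869a) (nat_lit 0) (p (nat_lit 0x88878706861a) (nat_lit 0) (p (nat_lit 0x80000000080687858a) (nat_lit 0) (p (nat_lit 0x80000000078605850a) (nat_lit 0) (p (nat_lit 0x8605868482) (nat_lit 0) (p (nat_lit 0x8585048402) (nat_lit 0) (p (nat_lit 0x160014) (nat_lit 0) (p (nat_lit 0x160004) (nat_lit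 0) (p (nat_lit 0x60592) (nat_lit 0) (p (nat_lit 0x48512) (nat_lit 0) (p (nat_lit 0x50392) (nat_lit 0) (p (nat_lit 0x38312) (nat_lit 0) (p (nat_lit 0x40212) (nat_lit 0) (p (nat_lit 0x28192) (nat_lit 0) (p (nat_lit 0x30092) (nat_lit 0) (p (nat_lit 0x18012) (nat_lit 0) pn))))))))))))))))))))) :=
  Cl.node (nat_lit 0x109) (nat_lit 2) (by decide +kernel) (ClAll.succ (ClAll.succ ClAll.zero s0) n83)

def n112 : Cl (O (nat_lit 2)) (R (nat_lit 139473))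
    (p (nat_lit 0x101) (nat_lit 1) (p (nat_lit 0x119) (nat_lit 0) (p (nat_lit 0xd1) (nat_lit 0) (p (nat_lit 0x89) (nat_lit 0) (p (nat_lit 0x41) (nat_lit 0) (p (nat_lit 0x89080788869a) (nat_lit 0) (p (nat_lit 0x88878706861a) (nat_lit 0) (p (nat_lit 0x80000000080687858a) (nat_lit 0) (p (nat_lit 0x80000000078605850a) (nat_lit 0) (p (nat_lit 0x8605868482) (nat_lit 0) (p (nat_lit 0x8585048402) (nat_lit 0) (p (nat_lit 0x160014) (nat_lit 0) (p (nat_lit 0x160004) (nat_lit 0) (p (nat_lit 0x60592) (nat_lit 0) (p (nat_lit 0x48512) (nat_lit 0) (p (nat_lit 0x50392) (nat_lit 0) (p (nat_lit 0x38312) (nat_lit 0) (p (nat_lit 0x40212) (nat_lit 0) (p (nat_lit 0x28192) (nat_lit 0) (p (nat_lit 0x30092) (nat_lit 0) (p (nat_lit 0x18012) (nat_lit 0) pn))))))))))))))))))))) :=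
  Cl.node (nat_lit 0x81) (nat_lit 2) (by decide +kernel) (ClAll.succ (ClAll.succ ClAll.zero n84) n85)

def n113 : Cl (O (nat_lit 2)) (R (nat_lit 139473))
    (p (nat_lit 0xc1) (nat_lit 0) (p (nat_lit 0x119) (nat_lit 1) (p (nat_lit 0xd1) (nat_lit 0) (p (nat_lit 0x89) (nat_lit 0) (p (nat_lit 0x41) (nat_lit 0) (p (nat_lit 0x89080788869a) (nat_lit 0) (p (nat_lit 0x88878706861a) (nat_lit 0) (p (nat_lit 0x80000000080687858a) (nat_lit 0) (p (nat_lit 0x80000000078605850a) (nat_lit 0) (p (nat_lit 0x8605868482) (nat_lit 0) (p (nat_lit 0x8585048402) (nat_lit 0) (p (nat_lit 0x160014) (nat_lit 0) (p (nat_lit 0x160004) (nat_lit 0) (p (nat_lit 0x60592) (nat_lit 0) (p (nat_lit 0x48512) (nat_lit 0) (p (nat_lit 0x50392) (nat_lit 0) (p (nat_lit 0x38312) (nat_lit 0) (p (nat_lit 0x40212) (nat_lit 0) (p (nat_lit 0x28192) (nat_lit 0) (p (nat_lit 0x30092) (nat_lit 0) (p (nat_lit 0x18012) (nat_lit 0) pn)))))))))))))))))))))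 :=
  Cl.node (nat_lit 0xc9) (nat_lit 2) (by decide +kernel) (ClAll.succ (ClAll.succ ClAll.zero s20) s21)

def n114 : Cl (O (nat_lit 2)) (R (nat_lit 139473))
    (p (nat_lit 0xc1) (nat_lit 1) (p (nat_lit 0x119) (nat_lit 1) (p (nat_lit 0xd1) (nat_lit 0) (p (nat_lit 0x89) (nat_lit 0) (p (nat_lit 0x41) (nat_lit 0) (p (nat_lit 0x89080788869a) (nat_lit 0) (p (nat_lit 0x88878706861a) (nat_lit 0) (p (nat_lit 0x80000000080687858a) (nat_lit 0) (p (nat_lit 0x80000000078605850a) (nat_lit 0) (p (nat_lit 0x8605868482) (nat_lit 0) (p (nat_lit 0x8585048402) (nat_lit 0) (p (nat_lit 0x160014) (nat_lit 0) (p (nat_lit 0x160004) (nat_lit 0) (p (nat_lit 0x60592) (nat_lit 0) (p (nat_lit 0x48512) (nat_lit 0) (p (nat_lit 0x50392) (nat_lit 0) (p (nat_lit 0x38312) (nat_lit 0) (p (nat_lit 0x40212) (nat_lit 0) (p (nat_lit 0x28192) (nat_lit 0) (p (nat_lit 0x30092) (nat_lit 0) (p (nat_lit 0x18012) (nat_lit 0) pn)))))))))))))))))))))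 :=
  Cl.node (nat_lit 0x81) (nat_lit 2) (by decide +kernel) (ClAll.succ (ClAll.succ ClAll.zero s22) n86)

def n115 : Cl (O (nat_lit 2)) (R (nat_lit 139473))
    (p (nat_lit 0x101) (nat_lit 0) (p (nat_lit 0x111) (nat_lit 0) (p (nat_lit 0xd1) (nat_lit 1) (p (nat_lit 0x89) (nat_lit 0) (p (nat_lit 0x41) (nat_lit 0) (p (nat_lit 0x89080788869a) (nat_lit 0) (p (nat_lit 0x88878706861a) (nat_lit 0) (p (nat_lit 0x80000000080687858a) (nat_lit 0) (p (nat_lit 0x80000000078605850a) (nat_lit 0) (p (nat_lit 0x8605868482) (nat_lit 0) (p (nat_lit 0x8585048402) (nat_lit 0) (p (nat_lit 0x160014) (nat_lit 0) (p (nat_lit 0x160004) (nat_lit 0) (p (nat_lit 0x60592) (nat_lit 0) (p (nat_lit 0x48512) (nat_lit 0) (p (nat_lit 0x50392) (nat_lit 0) (p (nat_lit 0x38312) (nat_lit 0) (p (nat_lit 0x40212) (nat_lit 0) (p (nat_lit 0x28192) (nat_lit 0) (p (nat_lit 0x30092) (nat_lit 0) (p (nat_lit 0x18012) (nat_lit 0)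 pn))))))))))))))))))))) :=
  Cl.node (nat_lit 0x109) (nat_lit 2) (by decide +kernel) (ClAll.succ (ClAll.succ ClAll.zero s29) n87)

def n116 : Cl (O (nat_lit 2)) (R (nat_lit 139473))
    (p (nat_lit 0x101) (nat_lit 1) (p (nat_lit 0x111) (nat_lit 0) (p (nat_lit 0xd1) (nat_lit 1) (p (nat_lit 0x89) (nat_lit 0) (p (nat_lit 0x41) (nat_lit 0) (p (nat_lit 0x89080788869a) (nat_lit 0) (p (nat_lit 0x88878706861a) (nat_lit 0) (p (nat_lit 0x80000000080687858a) (nat_lit 0) (p (nat_lit 0x80000000078605850a) (nat_lit 0) (p (nat_lit 0x8605868482) (nat_lit 0) (p (nat_lit 0x8585048402) (nat_lit 0) (p (nat_lit 0x160014) (nat_lit 0) (p (nat_lit 0x160004) (nat_lit 0) (p (nat_lit 0x60592) (nat_lit 0) (p (nat_lit 0x48512) (nat_lit 0) (p (nat_lit 0x50392) (nat_lit 0) (p (nat_lit 0x38312) (nat_lit 0) (p (nat_lit 0x40212) (nat_lit 0) (p (nat_lit 0x28192) (nat_lit 0) (p (nat_lit 0x30092) (nat_lit 0) (p (nat_lit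 0x18012) (nat_lit 0) pn))))))))))))))))))))) :=
  Cl.node (nat_lit 0x81) (nat_lit 2) (by decide +kernel) (ClAll.succ (ClAll.succ ClAll.zero n88) n89)

def n117 : Cl (O (nat_lit 2)) (R (nat_lit 139473))
    (p (nat_lit 0x81) (nat_lit 1) (p (nat_lit 0x111) (nat_lit 1) (p (nat_lit 0xd1) (nat_lit 1) (p (nat_lit 0x89) (nat_lit 0) (p (nat_lit 0x41) (nat_lit 0) (p (nat_lit 0x89080788869a) (nat_lit 0) (p (nat_lit 0x88878706861a) (nat_lit 0) (p (nat_lit 0x80000000080687858a) (nat_lit 0) (p (nat_lit 0x80000000078605850a) (nat_lit 0) (p (nat_lit 0x8605868482) (nat_lit 0) (p (nat_lit 0x8585048402) (nat_lit 0) (p (nat_lit 0x160014) (nat_lit 0) (p (nat_lit 0x160004) (nat_lit 0) (p (nat_lit 0x60592) (nat_lit 0) (p (nat_lit 0x48512) (nat_lit 0) (p (nat_lit 0x50392) (nat_lit 0) (p (nat_lit 0x38312) (nat_lit 0) (p (nat_lit 0x40212) (nat_lit 0) (p (nat_lit 0x28192) (nat_lit 0) (p (nat_lit 0x30092) (nat_lit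 0) (p (nat_lit 0x18012) (nat_lit 0) pn))))))))))))))))))))) :=
  Cl.node (nat_lit 0xc1) (nat_lit 2) (by decide +kernel) (ClAll.succ (ClAll.succ ClAll.zero s46) n90)

def n118 : Cl (O (nat_lit 2)) (R (nat_lit 139473))
    (p (nat_lit 0x101) (nat_lit 0) (p (nat_lit 0x119) (nat_lit 0) (p (nat_lit 0xc9) (nat_lit 0) (p (nat_lit 0x89) (nat_lit 1) (p (nat_lit 0x41) (nat_lit 0) (p (nat_lit 0x89080788869a) (nat_lit 0) (p (nat_lit 0x88878706861a) (nat_lit 0) (p (nat_lit 0x80000000080687858a) (nat_lit 0) (p (nat_lit 0x80000000078605850a) (nat_lit 0) (p (nat_lit 0x8605868482) (nat_lit 0) (p (nat_lit 0x8585048402) (nat_lit 0) (p (nat_lit 0x160014) (nat_lit 0) (p (nat_lit 0x160004) (nat_lit 0) (p (nat_lit 0x60592) (nat_lit 0) (p (nat_lit 0x48512) (nat_lit 0) (p (nat_lit 0x50392) (nat_lit 0) (p (nat_lit 0x38312) (nat_lit 0) (p (nat_lit 0x40212) (nat_lit 0) (p (nat_lit 0x28192) (nat_lit 0) (p (nat_lit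 0x30092) (nat_lit 0) (p (nat_lit 0x18012) (nat_lit 0) pn))))))))))))))))))))) :=
  Cl.node (nat_lit 0x109) (nat_lit 2) (by decide +kernel) (ClAll.succ (ClAll.succ ClAll.zero s50) n91)

def n119 : Cl (O (nat_lit 2)) (R (nat_lit 139473))
    (p (nat_lit 0x101) (nat_lit 1) (p (nat_lit 0x119) (nat_lit 0) (p (nat_lit 0xc9) (nat_lit 0) (p (nat_lit 0x89) (nat_lit 1) (p (nat_lit 0x41) (nat_lit 0) (p (nat_lit 0x89080788869a) (nat_lit 0) (p (nat_lit 0x88878706861a) (nat_lit 0) (p (nat_lit 0x80000000080687858a) (nat_lit 0) (p (nat_lit 0x80000000078605850a) (nat_lit 0) (p (nat_lit 0x8605868482) (nat_lit 0) (p (nat_lit 0x8585048402) (nat_lit 0) (p (nat_lit 0x160014) (nat_lit 0) (p (nat_lit 0x160004) (nat_lit 0) (p (nat_lit 0x60592) (nat_lit 0) (p (nat_lit 0x48512) (nat_lit 0) (p (nat_lit 0x50392) (nat_lit 0) (p (nat_lit 0x38312) (nat_lit 0) (p (nat_lit 0x40212) (nat_lit 0) (p (nat_lit 0x28192)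 (nat_lit 0) (p (nat_lit 0x30092) (nat_lit 0) (p (nat_lit 0x18012) (nat_lit 0) pn))))))))))))))))))))) :=
  Cl.node (nat_lit 0xc1) (nat_lit 2) (by decide +kernel) (ClAll.succ (ClAll.succ ClAll.zero n92) s61)

def n120 : Cl (O (nat_lit 2)) (R (nat_lit 139473))
    (p (nat_lit 0xc1) (nat_lit 0) (p (nat_lit 0x119) (nat_lit 1) (p (nat_lit 0xc9) (nat_lit 0) (p (nat_lit 0x89) (nat_lit 1) (p (nat_lit 0x41) (nat_lit 0) (p (nat_lit 0x89080788869a) (nat_lit 0) (p (nat_lit 0x88878706861a) (nat_lit 0) (p (nat_lit 0x80000000080687858a) (nat_lit 0) (p (nat_lit 0x80000000078605850a) (nat_lit 0) (p (nat_lit 0x8605868482) (nat_lit 0) (p (nat_lit 0x8585048402) (nat_lit 0) (p (nat_lit 0x160014) (nat_lit 0) (p (nat_lit 0x160004) (nat_lit 0) (p (nat_lit 0x60592) (nat_lit 0) (p (nat_lit 0x48512) (nat_lit 0) (p (nat_lit 0x50392) (nat_lit 0) (p (nat_lit 0x38312) (nat_lit 0) (p (nat_lit 0x40212) (nat_lit 0)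 (p (nat_lit 0x28192) (nat_lit 0) (p (nat_lit 0x30092) (nat_lit 0) (p (nat_lit 0x18012) (nat_lit 0) pn))))))))))))))))))))) :=
  Cl.node (nat_lit 0xd1) (nat_lit 2) (by decide +kernel) (ClAll.succ (ClAll.succ ClAll.zero s62) s63)

def n121 : Cl (O (nat_lit 2)) (R (nat_lit 139473))
    (p (nat_lit 0xc1) (nat_lit 1) (p (nat_lit 0x119) (nat_lit 1) (p (nat_lit 0xc9) (nat_lit 0) (p (nat_lit 0x89) (nat_lit 1) (p (nat_lit 0x41) (nat_lit 0) (p (nat_lit 0x89080788869a) (nat_lit 0) (p (nat_lit 0x88878706861a) (nat_lit 0) (p (nat_lit 0x80000000080687858a) (nat_lit 0) (p (nat_lit 0x80000000078605850a) (nat_lit 0) (p (nat_lit 0x8605868482) (nat_lit 0) (p (nat_lit 0x8585048402) (nat_lit 0) (p (nat_lit 0x160014) (nat_lit 0) (p (nat_lit 0x160004) (nat_lit 0) (p (nat_lit 0x60592) (nat_lit 0) (p (nat_lit 0x48512) (nat_lit 0) (p (nat_lit 0x50392) (nat_lit 0) (p (nat_lit 0x38312) (nat_lit 0) (p (nat_lit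 0x40212) (nat_lit 0) (p (nat_lit 0x28192) (nat_lit 0) (p (nat_lit 0x30092) (nat_lit 0) (p (nat_lit 0x18012) (nat_lit 0) pn))))))))))))))))))))) :=
  Cl.node (nat_lit 0x101) (nat_lit 2) (by decide +kernel) (ClAll.succ (ClAll.succ ClAll.zero n93) s66)

def n122 : Cl (O (nat_lit 2)) (R (nat_lit 139473))
    (p (nat_lit 0x101) (nat_lit 0) (p (nat_lit 0x109) (nat_lit 0) (p (nat_lit 0xc9) (nat_lit 1) (p (nat_lit 0x89) (nat_lit 1) (p (nat_lit 0x41) (nat_lit 0) (p (nat_lit 0x89080788869a) (nat_lit 0) (p (nat_lit 0x88878706861a) (nat_lit 0) (p (nat_lit 0x80000000080687858a) (nat_lit 0) (p (nat_lit 0x80000000078605850a) (nat_lit 0) (p (nat_lit 0x8605868482) (nat_lit 0) (p (nat_lit 0x8585048402) (nat_lit 0) (p (nat_lit 0x160014) (nat_lit 0) (p (nat_lit 0x160004) (nat_lit 0) (p (nat_lit 0x60592) (nat_lit 0) (p (nat_lit 0x48512) (nat_lit 0) (p (nat_lit 0x50392) (nat_lit 0) (p (nat_lit 0x38312)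 (nat_lit 0) (p (nat_lit 0x40212) (nat_lit 0) (p (nat_lit 0x28192) (nat_lit 0) (p (nat_lit 0x30092) (nat_lit 0) (p (nat_lit 0x18012) (nat_lit 0) pn))))))))))))))))))))) :=
  Cl.node (nat_lit 0x111) (nat_lit 2) (by decide +kernel) (ClAll.succ (ClAll.succ ClAll.zero s67) s68)

def n123 : Cl (O (nat_lit 2)) (R (nat_lit 139473))
    (p (nat_lit 0x101) (nat_lit 0) (p (nat_lit 0x119) (nat_lit 0) (p (nat_lit 0xd1) (nat_lit 0) (p (nat_lit 0x81) (nat_lit 0) (p (nat_lit 0x41) (nat_lit 1) (p (nat_lit 0x89080788869a) (nat_lit 0) (p (nat_lit 0x88878706861a) (nat_lit 0) (p (nat_lit 0x80000000080687858a) (nat_lit 0) (p (nat_lit 0x80000000078605850a) (nat_lit 0) (p (nat_lit 0x8605868482) (nat_lit 0) (p (nat_lit 0x8585048402) (nat_lit 0) (p (nat_lit 0x160014) (nat_lit 0) (p (nat_lit 0x160004) (nat_lit 0) (p (nat_lit 0x60592) (nat_lit 0) (p (nat_lit 0x48512) (nat_lit 0) (p (nat_lit 0x50392) (nat_lit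 0) (p (nat_lit 0x38312) (nat_lit 0) (p (nat_lit 0x40212) (nat_lit 0) (p (nat_lit 0x28192) (nat_lit 0) (p (nat_lit 0x30092) (nat_lit 0) (p (nat_lit 0x18012) (nat_lit 0) pn))))))))))))))))))))) :=
  Cl.node (nat_lit 0x109) (nat_lit 2) (by decide +kernel) (ClAll.succ (ClAll.succ ClAll.zero s71) n94)

def n124 : Cl (O (nat_lit 2)) (R (nat_lit 139473))
    (p (nat_lit 0x101) (nat_lit 1) (p (nat_lit 0x119) (nat_lit 0) (p (nat_lit 0xd1) (nat_lit 0) (p (nat_lit 0x81) (nat_lit 0) (p (nat_lit 0x41) (nat_lit 1) (p (nat_lit 0x89080788869a) (nat_lit 0) (p (nat_lit 0x88878706861a) (nat_lit 0) (p (nat_lit 0x80000000080687858a) (nat_lit 0) (p (nat_lit 0x80000000078605850a) (nat_lit 0) (p (nat_lit 0x8605868482) (nat_lit 0) (p (nat_lit 0x8585048402) (nat_lit 0) (p (nat_lit 0x160014) (nat_lit 0) (p (nat_lit 0x160004) (nat_lit 0) (p (nat_lit 0x60592) (nat_lit 0) (p (nat_lit 0x48512) (nat_lit 0) (p (nat_lit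 0x50392) (nat_lit 0) (p (nat_lit 0x38312) (nat_lit 0) (p (nat_lit 0x40212) (nat_lit 0) (p (nat_lit 0x28192) (nat_lit 0) (p (nat_lit 0x30092) (nat_lit 0) (p (nat_lit 0x18012) (nat_lit 0) pn))))))))))))))))))))) :=
  Cl.node (nat_lit 0xc1) (nat_lit 2) (by decide +kernel) (ClAll.succ (ClAll.succ ClAll.zero n95) n96)

def n125 : Cl (O (nat_lit 2)) (R (nat_lit 139473))
    (p (nat_lit 0xc1) (nat_lit 0) (p (nat_lit 0x119) (nat_lit 1) (p (nat_lit 0xd1) (nat_lit 0) (p (nat_lit 0x81) (nat_lit 0) (p (nat_lit 0x41) (nat_lit 1) (p (nat_lit 0x89080788869a) (nat_lit 0) (p (nat_lit 0x88878706861a) (nat_lit 0) (p (nat_lit 0x80000000080687858a) (nat_lit 0) (p (nat_lit 0x80000000078605850a) (nat_lit 0) (p (nat_lit 0x8605868482) (nat_lit 0) (p (nat_lit 0x8585048402) (nat_lit 0) (p (nat_lit 0x160014) (nat_lit 0) (p (nat_lit 0x160004) (nat_lit 0) (p (nat_lit 0x60592) (nat_lit 0) (p (nat_lit 0x48512) (nat_lit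 0) (p (nat_lit 0x50392) (nat_lit 0) (p (nat_lit 0x38312) (nat_lit 0) (p (nat_lit 0x40212) (nat_lit 0) (p (nat_lit 0x28192) (nat_lit 0) (p (nat_lit 0x30092) (nat_lit 0) (p (nat_lit 0x18012) (nat_lit 0) pn))))))))))))))))))))) :=
  Cl.node (nat_lit 0xc9) (nat_lit 2) (by decide +kernel) (ClAll.succ (ClAll.succ ClAll.zero s88) n97)

def n126 : Cl (O (nat_lit 2)) (R (nat_lit 139473))
    (p (nat_lit 0xc1) (nat_lit 1) (p (nat_lit 0x119) (nat_lit 1) (p (nat_lit 0xd1) (nat_lit 0) (p (nat_lit 0x81) (nat_lit 0) (p (nat_lit 0x41) (nat_lit 1) (p (nat_lit 0x89080788869a) (nat_lit 0) (p (nat_lit 0x88878706861a) (nat_lit 0) (p (nat_lit 0x80000000080687858a) (nat_lit 0) (p (nat_lit 0x80000000078605850a) (nat_lit 0) (p (nat_lit 0x8605868482) (nat_lit 0) (p (nat_lit 0x8585048402) (nat_lit 0) (p (nat_lit 0x160014) (nat_lit 0) (p (nat_lit 0x160004) (nat_lit 0) (p (nat_lit 0x60592) (nat_lit 0) (p (nat_lit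 0x48512) (nat_lit 0) (p (nat_lit 0x50392) (nat_lit 0) (p (nat_lit 0x38312) (nat_lit 0) (p (nat_lit 0x40212) (nat_lit 0) (p (nat_lit 0x28192) (nat_lit 0) (p (nat_lit 0x30092) (nat_lit 0) (p (nat_lit 0x18012) (nat_lit 0) pn))))))))))))))))))))) :=
  Cl.node (nat_lit 0x101) (nat_lit 2) (by decide +kernel) (ClAll.succ (ClAll.succ ClAll.zero n98) n99)

def n127 : Cl (O (nat_lit 2)) (R (nat_lit 139473))
    (p (nat_lit 0x101) (nat_lit 0) (p (nat_lit 0x111) (nat_lit 0) (p (nat_lit 0xd1) (nat_lit 1) (p (nat_lit 0x81) (nat_lit 0) (p (nat_lit 0x41) (nat_lit 1) (p (nat_lit 0x89080788869a) (nat_lit 0) (p (nat_lit 0x88878706861a) (nat_lit 0) (p (nat_lit 0x80000000080687858a) (nat_lit 0) (p (nat_lit 0x80000000078605850a) (nat_lit 0) (p (nat_lit 0x8605868482) (nat_lit 0) (p (nat_lit 0x8585048402) (nat_lit 0) (p (nat_lit 0x160014) (nat_lit 0) (p (nat_lit 0x160004) (nat_lit 0) (p (nat_lit 0x60592)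 (nat_lit 0) (p (nat_lit 0x48512) (nat_lit 0) (p (nat_lit 0x50392) (nat_lit 0) (p (nat_lit 0x38312) (nat_lit 0) (p (nat_lit 0x40212) (nat_lit 0) (p (nat_lit 0x28192) (nat_lit 0) (p (nat_lit 0x30092) (nat_lit 0) (p (nat_lit 0x18012) (nat_lit 0) pn))))))))))))))))))))) :=
  Cl.node (nat_lit 0x109) (nat_lit 2) (by decide +kernel) (ClAll.succ (ClAll.succ ClAll.zero s105) n100)

def n128 : Cl (O (nat_lit 2)) (R (nat_lit 139473))
    (p (nat_lit 0x101) (nat_lit 1) (p (nat_lit 0x111) (nat_lit 0) (p (nat_lit 0xd1) (nat_lit 1) (p (nat_lit 0x81) (nat_lit 0) (p (nat_lit 0x41) (nat_lit 1) (p (nat_lit 0x89080788869a) (nat_lit 0) (p (nat_lit 0x88878706861a) (nat_lit 0) (p (nat_lit 0x80000000080687858a) (nat_lit 0) (p (nat_lit 0x80000000078605850a) (nat_lit 0) (p (nat_lit 0x8605868482) (nat_lit 0) (p (nat_lit 0x8585048402) (nat_lit 0) (p (nat_lit 0x160014) (nat_lit 0) (p (nat_lit 0x160004) (nat_lit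 0) (p (nat_lit 0x60592) (nat_lit 0) (p (nat_lit 0x48512) (nat_lit 0) (p (nat_lit 0x50392) (nat_lit 0) (p (nat_lit 0x38312) (nat_lit 0) (p (nat_lit 0x40212) (nat_lit 0) (p (nat_lit 0x28192) (nat_lit 0) (p (nat_lit 0x30092) (nat_lit 0) (p (nat_lit 0x18012) (nat_lit 0) pn))))))))))))))))))))) :=
  Cl.node (nat_lit 0x89) (nat_lit 2) (by decide +kernel) (ClAll.succ (ClAll.succ ClAll.zero n101) n102)

def n129 : Cl (O (nat_lit 2)) (R (nat_lit 139473))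
    (p (nat_lit 0x101) (nat_lit 0) (p (nat_lit 0x119) (nat_lit 0) (p (nat_lit 0xc1) (nat_lit 0) (p (nat_lit 0x81) (nat_lit 1) (p (nat_lit 0x41) (nat_lit 1) (p (nat_lit 0x89080788869a) (nat_lit 0) (p (nat_lit 0x88878706861a) (nat_lit 0) (p (nat_lit 0x80000000080687858a) (nat_lit 0) (p (nat_lit 0x80000000078605850a) (nat_lit 0) (p (nat_lit 0x8605868482) (nat_lit 0) (p (nat_lit 0x8585048402) (nat_lit 0) (p (nat_lit 0x160014) (nat_lit 0) (p (nat_lit 0x160004) (nat_lit 0) (p (nat_lit 0x60592) (nat_lit 0) (p (nat_lit 0x48512) (nat_lit 0) (p (nat_lit 0x50392) (nat_lit 0) (p (nat_lit 0x38312) (nat_lit 0) (p (nat_lit 0x40212) (nat_lit 0) (p (nat_lit 0x28192) (nat_lit 0) (p (nat_lit 0x30092) (nat_lit 0) (p (nat_lit 0x18012) (nat_lit 0) pn))))))))))))))))))))) :=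
  Cl.node (nat_lit 0x109) (nat_lit 2) (by decide +kernel) (ClAll.succ (ClAll.succ ClAll.zero n103) n104)

def n130 : Cl (O (nat_lit 2)) (R (nat_lit 139473))
    (p (nat_lit 0x101) (nat_lit 1) (p (nat_lit 0x119) (nat_lit 0) (p (nat_lit 0xc1) (nat_lit 0) (p (nat_lit 0x81) (nat_lit 1) (p (nat_lit 0x41) (nat_lit 1) (p (nat_lit 0x89080788869a) (nat_lit 0) (p (nat_lit 0x88878706861a) (nat_lit 0) (p (nat_lit 0x80000000080687858a) (nat_lit 0) (p (nat_lit 0x80000000078605850a) (nat_lit 0) (p (nat_lit 0x8605868482) (nat_lit 0) (p (nat_lit 0x8585048402) (nat_lit 0) (p (nat_lit 0x160014) (nat_lit 0) (p (nat_lit 0x160004) (nat_lit 0) (p (nat_lit 0x60592) (nat_lit 0) (p (nat_lit 0x48512) (nat_lit 0) (p (nat_lit 0x50392) (nat_lit 0) (p (nat_lit 0x38312) (nat_lit 0) (p (nat_lit 0x40212) (nat_lit 0) (p (nat_lit 0x28192) (nat_lit 0) (p (nat_lit 0x30092) (nat_lit 0) (p (nat_lit 0x18012) (nat_lit 0)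 pn))))))))))))))))))))) :=
  Cl.node (nat_lit 0xc9) (nat_lit 2) (by decide +kernel) (ClAll.succ (ClAll.succ ClAll.zero n105) n106)

def n131 : Cl (O (nat_lit 2)) (R (nat_lit 139473))
    (p (nat_lit 0xc9) (nat_lit 0) (p (nat_lit 0x119) (nat_lit 1) (p (nat_lit 0xc1) (nat_lit 0) (p (nat_lit 0x81) (nat_lit 1) (p (nat_lit 0x41) (nat_lit 1) (p (nat_lit 0x89080788869a) (nat_lit 0) (p (nat_lit 0x88878706861a) (nat_lit 0) (p (nat_lit 0x80000000080687858a) (nat_lit 0) (p (nat_lit 0x80000000078605850a) (nat_lit 0) (p (nat_lit 0x8605868482) (nat_lit 0) (p (nat_lit 0x8585048402) (nat_lit 0) (p (nat_lit 0x160014) (nat_lit 0) (p (nat_lit 0x160004) (nat_lit 0) (p (nat_lit 0x60592) (nat_lit 0) (p (nat_lit 0x48512) (nat_lit 0) (p (nat_lit 0x50392) (nat_lit 0) (p (nat_lit 0x38312) (nat_lit 0) (p (nat_lit 0x40212) (nat_lit 0) (p (nat_lit 0x28192) (nat_lit 0) (p (nat_lit 0x30092) (nat_lit 0) (p (nat_lit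 0x18012) (nat_lit 0) pn))))))))))))))))))))) :=
  Cl.node (nat_lit 0xd1) (nat_lit 2) (by decide +kernel) (ClAll.succ (ClAll.succ ClAll.zero s146) n107)

def n132 : Cl (O (nat_lit 2)) (R (nat_lit 139473))
    (p (nat_lit 0xc9) (nat_lit 1) (p (nat_lit 0x119) (nat_lit 1) (p (nat_lit 0xc1) (nat_lit 0) (p (nat_lit 0x81) (nat_lit 1) (p (nat_lit 0x41) (nat_lit 1) (p (nat_lit 0x89080788869a) (nat_lit 0) (p (nat_lit 0x88878706861a) (nat_lit 0) (p (nat_lit 0x80000000080687858a) (nat_lit 0) (p (nat_lit 0x80000000078605850a) (nat_lit 0) (p (nat_lit 0x8605868482) (nat_lit 0) (p (nat_lit 0x8585048402) (nat_lit 0) (p (nat_lit 0x160014) (nat_lit 0) (p (nat_lit 0x160004) (nat_lit 0) (p (nat_lit 0x60592) (nat_lit 0) (p (nat_lit 0x48512) (nat_lit 0) (p (nat_lit 0x50392) (nat_lit 0) (p (nat_lit 0x38312) (nat_lit 0) (p (nat_lit 0x40212) (nat_lit 0) (p (nat_lit 0x28192) (nat_lit 0) (p (nat_lit 0x30092)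 (nat_lit 0) (p (nat_lit 0x18012) (nat_lit 0) pn))))))))))))))))))))) :=
  Cl.node (nat_lit 0x109) (nat_lit 2) (by decide +kernel) (ClAll.succ (ClAll.succ ClAll.zero n108) n109)

def n133 : Cl (O (nat_lit 2)) (R (nat_lit 139473))
    (p (nat_lit 0x109) (nat_lit 0) (p (nat_lit 0x101) (nat_lit 0) (p (nat_lit 0xc1) (nat_lit 1) (p (nat_lit 0x81) (nat_lit 1) (p (nat_lit 0x41) (nat_lit 1) (p (nat_lit 0x89080788869a) (nat_lit 0) (p (nat_lit 0x88878706861a) (nat_lit 0) (p (nat_lit 0x80000000080687858a) (nat_lit 0) (p (nat_lit 0x80000000078605850a) (nat_lit 0) (p (nat_lit 0x8605868482) (nat_lit 0) (p (nat_lit 0x8585048402) (nat_lit 0) (p (nat_lit 0x160014) (nat_lit 0) (p (nat_lit 0x160004) (nat_lit 0) (p (nat_lit 0x60592) (nat_lit 0) (p (nat_lit 0x48512) (nat_lit 0) (p (nat_lit 0x50392) (nat_lit 0) (p (nat_lit 0x38312) (nat_lit 0) (p (nat_lit 0x40212) (nat_lit 0) (p (nat_lit 0x28192) (nat_lit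 0) (p (nat_lit 0x30092) (nat_lit 0) (p (nat_lit 0x18012) (nat_lit 0) pn))))))))))))))))))))) :=
  Cl.node (nat_lit 0x111) (nat_lit 2) (by decide +kernel) (ClAll.succ (ClAll.succ ClAll.zero n110) s161)

def n134 : Cl (O (nat_lit 2)) (R (nat_lit 139473))
    (p (nat_lit 0x119) (nat_lit 0) (p (nat_lit 0xd1) (nat_lit 0) (p (nat_lit 0x89) (nat_lit 0) (p (nat_lit 0x41) (nat_lit 0) (p (nat_lit 0x89080788869a) (nat_lit 0) (p (nat_lit 0x88878706861a) (nat_lit 0) (p (nat_lit 0x80000000080687858a) (nat_lit 0) (p (nat_lit 0x80000000078605850a) (nat_lit 0) (p (nat_lit 0x8605868482) (nat_lit 0) (p (nat_lit 0x8585048402) (nat_lit 0) (p (nat_lit 0x160014) (nat_lit 0) (p (nat_lit 0x160004) (nat_lit 0) (p (nat_lit 0x60592) (nat_lit 0) (p (nat_lit 0x48512) (nat_lit 0) (p (nat_lit 0x50392) (nat_lit 0) (p (nat_lit 0x38312) (nat_lit 0) (p (nat_lit 0x40212) (nat_lit 0) (p (nat_lit 0x28192) (nat_lit 0) (p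 (nat_lit 0x30092) (nat_lit 0) (p (nat_lit 0x18012) (nat_lit 0) pn)))))))))))))))))))) :=
  Cl.node (nat_lit 0x101) (nat_lit 2) (by decide +kernel) (ClAll.succ (ClAll.succ ClAll.zero n111) n112)

def n135 : Cl (O (nat_lit 2)) (R (nat_lit 139473))
    (p (nat_lit 0x119) (nat_lit 1) (p (nat_lit 0xd1) (nat_lit 0) (p (nat_lit 0x89) (nat_lit 0) (p (nat_lit 0x41) (nat_lit 0) (p (nat_lit 0x89080788869a) (nat_lit 0) (p (nat_lit 0x88878706861a) (nat_lit 0) (p (nat_lit 0x80000000080687858a) (nat_lit 0) (p (nat_lit 0x80000000078605850a) (nat_lit 0) (p (nat_lit 0x8605868482) (nat_lit 0) (p (nat_lit 0x8585048402) (nat_lit 0) (p (nat_lit 0x160014) (nat_lit 0) (p (nat_lit 0x160004) (nat_lit 0) (p (nat_lit 0x60592) (nat_lit 0) (p (nat_lit 0x48512) (nat_lit 0) (p (nat_lit 0x50392) (nat_lit 0) (p (nat_lit 0x38312) (nat_lit 0) (p (nat_lit 0x40212) (nat_lit 0) (p (nat_lit 0x28192) (nat_lit 0) (p (nat_lit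 0x30092) (nat_lit 0) (p (nat_lit 0x18012) (nat_lit 0) pn)))))))))))))))))))) :=
  Cl.node (nat_lit 0xc1) (nat_lit 2) (by decide +kernel) (ClAll.succ (ClAll.succ ClAll.zero n113) n114)

def n136 : Cl (O (nat_lit 2)) (R (nat_lit 139473))
    (p (nat_lit 0x111) (nat_lit 0) (p (nat_lit 0xd1) (nat_lit 1) (p (nat_lit 0x89) (nat_lit 0) (p (nat_lit 0x41) (nat_lit 0) (p (nat_lit 0x89080788869a) (nat_lit 0) (p (nat_lit 0x88878706861a) (nat_lit 0) (p (nat_lit 0x80000000080687858a) (nat_lit 0) (p (nat_lit 0x80000000078605850a) (nat_lit 0) (p (nat_lit 0x8605868482) (nat_lit 0) (p (nat_lit 0x8585048402) (nat_lit 0) (p (nat_lit 0x160014) (nat_lit 0) (p (nat_lit 0x160004) (nat_lit 0) (p (nat_lit 0x60592) (nat_lit 0) (p (nat_lit 0x48512) (nat_lit 0) (p (nat_lit 0x50392) (nat_lit 0) (p (nat_lit 0x38312) (nat_lit 0) (p (nat_lit 0x40212) (nat_lit 0) (p (nat_lit 0x28192) (nat_lit 0) (p (nat_lit 0x30092)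 (nat_lit 0) (p (nat_lit 0x18012) (nat_lit 0) pn)))))))))))))))))))) :=
  Cl.node (nat_lit 0x101) (nat_lit 2) (by decide +kernel) (ClAll.succ (ClAll.succ ClAll.zero n115) n116)

def n137 : Cl (O (nat_lit 2)) (R (nat_lit 139473))
    (p (nat_lit 0x111) (nat_lit 1) (p (nat_lit 0xd1) (nat_lit 1) (p (nat_lit 0x89) (nat_lit 0) (p (nat_lit 0x41) (nat_lit 0) (p (nat_lit 0x89080788869a) (nat_lit 0) (p (nat_lit 0x88878706861a) (nat_lit 0) (p (nat_lit 0x80000000080687858a) (nat_lit 0) (p (nat_lit 0x80000000078605850a) (nat_lit 0) (p (nat_lit 0x8605868482) (nat_lit 0) (p (nat_lit 0x8585048402) (nat_lit 0) (p (nat_lit 0x160014) (nat_lit 0) (p (nat_lit 0x160004) (nat_lit 0) (p (nat_lit 0x60592) (nat_lit 0) (p (nat_lit 0x48512) (nat_lit 0) (p (nat_lit 0x50392) (nat_lit 0) (p (nat_lit 0x38312) (nat_lit 0) (p (nat_lit 0x40212) (nat_lit 0) (p (nat_lit 0x28192) (nat_lit 0) (p (nat_lit 0x30092) (nat_lit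 0) (p (nat_lit 0x18012) (nat_lit 0) pn)))))))))))))))))))) :=
  Cl.node (nat_lit 0x81) (nat_lit 2) (by decide +kernel) (ClAll.succ (ClAll.succ ClAll.zero s45) n117)

def n138 : Cl (O (nat_lit 2)) (R (nat_lit 139473))
    (p (nat_lit 0x119) (nat_lit 0) (p (nat_lit 0xc9) (nat_lit 0) (p (nat_lit 0x89) (nat_lit 1) (p (nat_lit 0x41) (nat_lit 0) (p (nat_lit 0x89080788869a) (nat_lit 0) (p (nat_lit 0x88878706861a) (nat_lit 0) (p (nat_lit 0x80000000080687858a) (nat_lit 0) (p (nat_lit 0x80000000078605850a) (nat_lit 0) (p (nat_lit 0x8605868482) (nat_lit 0) (p (nat_lit 0x8585048402) (nat_lit 0) (p (nat_lit 0x160014) (nat_lit 0) (p (nat_lit 0x160004) (nat_lit 0) (p (nat_lit 0x60592) (nat_lit 0) (p (nat_lit 0x48512) (nat_lit 0) (p (nat_lit 0x50392) (nat_lit 0) (p (nat_lit 0x38312) (nat_lit 0) (p (nat_lit 0x40212) (nat_lit 0) (p (nat_lit 0x28192) (nat_lit 0) (p (nat_lit 0x30092) (nat_lit 0) (p (nat_lit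 0x18012) (nat_lit 0) pn)))))))))))))))))))) :=
  Cl.node (nat_lit 0x101) (nat_lit 2) (by decide +kernel) (ClAll.succ (ClAll.succ ClAll.zero n118) n119)

def n139 : Cl (O (nat_lit 2)) (R (nat_lit 139473))
    (p (nat_lit 0x119) (nat_lit 1) (p (nat_lit 0xc9) (nat_lit 0) (p (nat_lit 0x89) (nat_lit 1) (p (nat_lit 0x41) (nat_lit 0) (p (nat_lit 0x89080788869a) (nat_lit 0) (p (nat_lit 0x88878706861a) (nat_lit 0) (p (nat_lit 0x80000000080687858a) (nat_lit 0) (p (nat_lit 0x80000000078605850a) (nat_lit 0) (p (nat_lit 0x8605868482) (nat_lit 0) (p (nat_lit 0x8585048402) (nat_lit 0) (p (nat_lit 0x160014) (nat_lit 0) (p (nat_lit 0x160004) (nat_lit 0) (p (nat_lit 0x60592) (nat_lit 0) (p (nat_lit 0x48512) (nat_lit 0) (p (nat_lit 0x50392) (nat_lit 0) (p (nat_lit 0x38312) (nat_lit 0) (p (nat_lit 0x40212) (nat_lit 0) (p (nat_lit 0x28192) (nat_lit 0) (p (nat_lit 0x30092) (nat_lit 0) (p (nat_lit 0x18012)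 (nat_lit 0) pn)))))))))))))))))))) :=
  Cl.node (nat_lit 0xc1) (nat_lit 2) (by decide +kernel) (ClAll.succ (ClAll.succ ClAll.zero n120) n121)

def n140 : Cl (O (nat_lit 2)) (R (nat_lit 139473))
    (p (nat_lit 0x109) (nat_lit 0) (p (nat_lit 0xc9) (nat_lit 1) (p (nat_lit 0x89) (nat_lit 1) (p (nat_lit 0x41) (nat_lit 0) (p (nat_lit 0x89080788869a) (nat_lit 0) (p (nat_lit 0x88878706861a) (nat_lit 0) (p (nat_lit 0x80000000080687858a) (nat_lit 0) (p (nat_lit 0x80000000078605850a) (nat_lit 0) (p (nat_lit 0x8605868482) (nat_lit 0) (p (nat_lit 0x8585048402) (nat_lit 0) (p (nat_lit 0x160014) (nat_lit 0) (p (nat_lit 0x160004) (nat_lit 0) (p (nat_lit 0x60592) (nat_lit 0) (p (nat_lit 0x48512) (nat_lit 0) (p (nat_lit 0x50392) (nat_lit 0) (p (nat_lit 0x38312) (nat_lit 0) (p (nat_lit 0x40212) (nat_lit 0) (p (nat_lit 0x28192) (nat_lit 0) (p (nat_lit 0x30092) (nat_lit 0) (p (nat_lit 0x18012) (nat_lit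 0) pn)))))))))))))))))))) :=
  Cl.node (nat_lit 0x101) (nat_lit 2) (by decide +kernel) (ClAll.succ (ClAll.succ ClAll.zero n122) s69)

def n141 : Cl (O (nat_lit 2)) (R (nat_lit 139473))
    (p (nat_lit 0x119) (nat_lit 0) (p (nat_lit 0xd1) (nat_lit 0) (p (nat_lit 0x81) (nat_lit 0) (p (nat_lit 0x41) (nat_lit 1) (p (nat_lit 0x89080788869a) (nat_lit 0) (p (nat_lit 0x88878706861a) (nat_lit 0) (p (nat_lit 0x80000000080687858a) (nat_lit 0) (p (nat_lit 0x80000000078605850a) (nat_lit 0) (p (nat_lit 0x8605868482) (nat_lit 0) (p (nat_lit 0x8585048402) (nat_lit 0) (p (nat_lit 0x160014) (nat_lit 0) (p (nat_lit 0x160004) (nat_lit 0) (p (nat_lit 0x60592) (nat_lit 0) (p (nat_lit 0x48512) (nat_lit 0) (p (nat_lit 0x50392) (nat_lit 0) (p (nat_lit 0x38312) (nat_lit 0) (p (nat_lit 0x40212) (nat_lit 0) (p (nat_lit 0x28192) (nat_lit 0) (p (nat_lit 0x30092) (nat_lit 0) (p (nat_lit 0x18012) (nat_lit 0) pn))))))))))))))))))))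 :=
  Cl.node (nat_lit 0x101) (nat_lit 2) (by decide +kernel) (ClAll.succ (ClAll.succ ClAll.zero n123) n124)

def n142 : Cl (O (nat_lit 2)) (R (nat_lit 139473))
    (p (nat_lit 0x119) (nat_lit 1) (p (nat_lit 0xd1) (nat_lit 0) (p (nat_lit 0x81) (nat_lit 0) (p (nat_lit 0x41) (nat_lit 1) (p (nat_lit 0x89080788869a) (nat_lit 0) (p (nat_lit 0x88878706861a) (nat_lit 0) (p (nat_lit 0x80000000080687858a) (nat_lit 0) (p (nat_lit 0x80000000078605850a) (nat_lit 0) (p (nat_lit 0x8605868482) (nat_lit 0) (p (nat_lit 0x8585048402) (nat_lit 0) (p (nat_lit 0x160014) (nat_lit 0) (p (nat_lit 0x160004) (nat_lit 0) (p (nat_lit 0x60592) (nat_lit 0) (p (nat_lit 0x48512) (nat_lit 0) (p (nat_lit 0x50392) (nat_lit 0) (p (nat_lit 0x38312) (nat_lit 0) (p (nat_lit 0x40212) (nat_lit 0) (p (nat_lit 0x28192) (nat_lit 0) (p (nat_lit 0x30092) (nat_lit 0) (p (nat_lit 0x18012) (nat_lit 0) pn)))))))))))))))))))) :=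
  Cl.node (nat_lit 0xc1) (nat_lit 2) (by decide +kernel) (ClAll.succ (ClAll.succ ClAll.zero n125) n126)

def n143 : Cl (O (nat_lit 2)) (R (nat_lit 139473))
    (p (nat_lit 0x111) (nat_lit 0) (p (nat_lit 0xd1) (nat_lit 1) (p (nat_lit 0x81) (nat_lit 0) (p (nat_lit 0x41) (nat_lit 1) (p (nat_lit 0x89080788869a) (nat_lit 0) (p (nat_lit 0x88878706861a) (nat_lit 0) (p (nat_lit 0x80000000080687858a) (nat_lit 0) (p (nat_lit 0x80000000078605850a) (nat_lit 0) (p (nat_lit 0x8605868482) (nat_lit 0) (p (nat_lit 0x8585048402) (nat_lit 0) (p (nat_lit 0x160014) (nat_lit 0) (p (nat_lit 0x160004) (nat_lit 0) (p (nat_lit 0x60592) (nat_lit 0) (p (nat_lit 0x48512) (nat_lit 0) (p (nat_lit 0x50392) (nat_lit 0) (p (nat_lit 0x38312) (nat_lit 0) (p (nat_lit 0x40212) (nat_lit 0) (p (nat_lit 0x28192) (nat_lit 0) (p (nat_lit 0x30092) (nat_lit 0) (p (nat_lit 0x18012) (nat_lit 0) pn)))))))))))))))))))) :=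
  Cl.node (nat_lit 0x101) (nat_lit 2) (by decide +kernel) (ClAll.succ (ClAll.succ ClAll.zero n127) n128)

def n144 : Cl (O (nat_lit 2)) (R (nat_lit 139473))
    (p (nat_lit 0x111) (nat_lit 1) (p (nat_lit 0xd1) (nat_lit 1) (p (nat_lit 0x81) (nat_lit 0) (p (nat_lit 0x41) (nat_lit 1) (p (nat_lit 0x89080788869a) (nat_lit 0) (p (nat_lit 0x88878706861a) (nat_lit 0) (p (nat_lit 0x80000000080687858a) (nat_lit 0) (p (nat_lit 0x80000000078605850a) (nat_lit 0) (p (nat_lit 0x8605868482) (nat_lit 0) (p (nat_lit 0x8585048402) (nat_lit 0) (p (nat_lit 0x160014) (nat_lit 0) (p (nat_lit 0x160004) (nat_lit 0) (p (nat_lit 0x60592) (nat_lit 0) (p (nat_lit 0x48512) (nat_lit 0) (p (nat_lit 0x50392) (nat_lit 0) (p (nat_lit 0x38312) (nat_lit 0) (p (nat_lit 0x40212) (nat_lit 0) (p (nat_lit 0x28192) (nat_lit 0) (p (nat_lit 0x30092) (nat_lit 0) (p (nat_lit 0x18012) (nat_lit 0) pn)))))))))))))))))))) :=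
  Cl.node (nat_lit 0x89) (nat_lit 2) (by decide +kernel) (ClAll.succ (ClAll.succ ClAll.zero s121) s122)

def n145 : Cl (O (nat_lit 2)) (R (nat_lit 139473))
    (p (nat_lit 0x119) (nat_lit 0) (p (nat_lit 0xc1) (nat_lit 0) (p (nat_lit 0x81) (nat_lit 1) (p (nat_lit 0x41) (nat_lit 1) (p (nat_lit 0x89080788869a) (nat_lit 0) (p (nat_lit 0x88878706861a) (nat_lit 0) (p (nat_lit 0x80000000080687858a) (nat_lit 0) (p (nat_lit 0x80000000078605850a) (nat_lit 0) (p (nat_lit 0x8605868482) (nat_lit 0) (p (nat_lit 0x8585048402) (nat_lit 0) (p (nat_lit 0x160014) (nat_lit 0) (p (nat_lit 0x160004) (nat_lit 0) (p (nat_lit 0x60592) (nat_lit 0) (p (nat_lit 0x48512) (nat_lit 0) (p (nat_lit 0x50392) (nat_lit 0) (p (nat_lit 0x38312) (nat_lit 0) (p (nat_lit 0x40212) (nat_lit 0) (p (nat_lit 0x28192) (nat_lit 0) (p (nat_lit 0x30092) (nat_lit 0) (p (nat_lit 0x18012) (nat_lit 0) pn)))))))))))))))))))) :=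
  Cl.node (nat_lit 0x101) (nat_lit 2) (by decide +kernel) (ClAll.succ (ClAll.succ ClAll.zero n129) n130)

def n146 : Cl (O (nat_lit 2)) (R (nat_lit 139473))
    (p (nat_lit 0x119) (nat_lit 1) (p (nat_lit 0xc1) (nat_lit 0) (p (nat_lit 0x81) (nat_lit 1) (p (nat_lit 0x41) (nat_lit 1) (p (nat_lit 0x89080788869a) (nat_lit 0) (p (nat_lit 0x88878706861a) (nat_lit 0) (p (nat_lit 0x80000000080687858a) (nat_lit 0) (p (nat_lit 0x80000000078605850a) (nat_lit 0) (p (nat_lit 0x8605868482) (nat_lit 0) (p (nat_lit 0x8585048402) (nat_lit 0) (p (nat_lit 0x160014) (nat_lit 0) (p (nat_lit 0x160004) (nat_lit 0) (p (nat_lit 0x60592) (nat_lit 0) (p (nat_lit 0x48512) (nat_lit 0) (p (nat_lit 0x50392) (nat_lit 0) (p (nat_lit 0x38312) (nat_lit 0) (p (nat_lit 0x40212) (nat_lit 0) (p (nat_lit 0x28192) (nat_lit 0) (p (nat_lit 0x30092) (nat_lit 0) (p (nat_lit 0x18012) (nat_lit 0) pn)))))))))))))))))))) :=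
  Cl.node (nat_lit 0xc9) (nat_lit 2) (by decide +kernel) (ClAll.succ (ClAll.succ ClAll.zero n131) n132)

def n147 : Cl (O (nat_lit 2)) (R (nat_lit 139473))
    (p (nat_lit 0x101) (nat_lit 0) (p (nat_lit 0xc1) (nat_lit 1) (p (nat_lit 0x81) (nat_lit 1) (p (nat_lit 0x41) (nat_lit 1) (p (nat_lit 0x89080788869a) (nat_lit 0) (p (nat_lit 0x88878706861a) (nat_lit 0) (p (nat_lit 0x80000000080687858a) (nat_lit 0) (p (nat_lit 0x80000000078605850a) (nat_lit 0) (p (nat_lit 0x8605868482) (nat_lit 0) (p (nat_lit 0x8585048402) (nat_lit 0) (p (nat_lit 0x160014) (nat_lit 0) (p (nat_lit 0x160004) (nat_lit 0) (p (nat_lit 0x60592) (nat_lit 0) (p (nat_lit 0x48512) (nat_lit 0) (p (nat_lit 0x50392) (nat_lit 0) (p (nat_lit 0x38312) (nat_lit 0) (p (nat_lit 0x40212) (nat_lit 0) (p (nat_lit 0x28192) (nat_lit 0) (p (nat_lit 0x30092) (nat_lit 0) (p (nat_lit 0x18012) (nat_lit 0) pn)))))))))))))))))))) :=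
  Cl.node (nat_lit 0x109) (nat_lit 2) (by decide +kernel) (ClAll.succ (ClAll.succ ClAll.zero n133) s162)

def n148 : Cl (O (nat_lit 2)) (R (nat_lit 139473))
    (p (nat_lit 0xd1) (nat_lit 0) (p (nat_lit 0x89) (nat_lit 0) (p (nat_lit 0x41) (nat_lit 0) (p (nat_lit 0x89080788869a) (nat_lit 0) (p (nat_lit 0x88878706861a) (nat_lit 0) (p (nat_lit 0x80000000080687858a) (nat_lit 0) (p (nat_lit 0x80000000078605850a) (nat_lit 0) (p (nat_lit 0x8605868482) (nat_lit 0) (p (nat_lit 0x8585048402) (nat_lit 0) (p (nat_lit 0x160014) (nat_lit 0) (p (nat_lit 0x160004) (nat_lit 0) (p (nat_lit 0x60592) (nat_lit 0) (p (nat_lit 0x48512) (nat_lit 0) (p (nat_lit 0x50392) (nat_lit 0) (p (nat_lit 0x38312) (nat_lit 0) (p (nat_lit 0x40212) (nat_lit 0) (p (nat_lit 0x28192) (nat_lit 0) (p (nat_lit 0x30092) (nat_lit 0) (p (nat_lit 0x18012) (nat_lit 0) pn))))))))))))))))))) :=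
  Cl.node (nat_lit 0x119) (nat_lit 2) (by decide +kernel) (ClAll.succ (ClAll.succ ClAll.zero n134) n135)

def n149 : Cl (O (nat_lit 2)) (R (nat_lit 139473))
    (p (nat_lit 0xd1) (nat_lit 1) (p (nat_lit 0x89) (nat_lit 0) (p (nat_lit 0x41) (nat_lit 0) (p (nat_lit 0x89080788869a) (nat_lit 0) (p (nat_lit 0x88878706861a) (nat_lit 0) (p (nat_lit 0x80000000080687858a) (nat_lit 0) (p (nat_lit 0x80000000078605850a) (nat_lit 0) (p (nat_lit 0x8605868482) (nat_lit 0) (p (nat_lit 0x8585048402) (nat_lit 0) (p (nat_lit 0x160014) (nat_lit 0) (p (nat_lit 0x160004) (nat_lit 0) (p (nat_lit 0x60592) (nat_lit 0) (p (nat_lit 0x48512) (nat_lit 0) (p (nat_lit 0x50392) (nat_lit 0) (p (nat_lit 0x38312) (nat_lit 0) (p (nat_lit 0x40212) (nat_lit 0) (p (nat_lit 0x28192) (nat_lit 0) (p (nat_lit 0x30092) (nat_lit 0) (p (nat_lit 0x18012) (nat_lit 0) pn))))))))))))))))))) :=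
  Cl.node (nat_lit 0x111) (nat_lit 2) (by decide +kernel) (ClAll.succ (ClAll.succ ClAll.zero n136) n137)

def n150 : Cl (O (nat_lit 2)) (R (nat_lit 139473))
    (p (nat_lit 0xc9) (nat_lit 0) (p (nat_lit 0x89) (nat_lit 1) (p (nat_lit 0x41) (nat_lit 0) (p (nat_lit 0x89080788869a) (nat_lit 0) (p (nat_lit 0x88878706861a) (nat_lit 0) (p (nat_lit 0x80000000080687858a) (nat_lit 0) (p (nat_lit 0x80000000078605850a) (nat_lit 0) (p (nat_lit 0x8605868482) (nat_lit 0) (p (nat_lit 0x8585048402) (nat_lit 0) (p (nat_lit 0x160014) (nat_lit 0) (p (nat_lit 0x160004) (nat_lit 0) (p (nat_lit 0x60592) (nat_lit 0) (p (nat_lit 0x48512) (nat_lit 0) (p (nat_lit 0x50392) (nat_lit 0) (p (nat_lit 0x38312) (nat_lit 0) (p (nat_lit 0x40212) (nat_lit 0) (p (nat_lit 0x28192) (nat_lit 0) (p (nat_lit 0x30092) (nat_lit 0) (p (nat_lit 0x18012) (nat_lit 0) pn))))))))))))))))))) :=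
  Cl.node (nat_lit 0x119) (nat_lit 2) (by decide +kernel) (ClAll.succ (ClAll.succ ClAll.zero n138) n139)

def n151 : Cl (O (nat_lit 2)) (R (nat_lit 139473))
    (p (nat_lit 0xc9) (nat_lit 1) (p (nat_lit 0x89) (nat_lit 1) (p (nat_lit 0x41) (nat_lit 0) (p (nat_lit 0x89080788869a) (nat_lit 0) (p (nat_lit 0x88878706861a) (nat_lit 0) (p (nat_lit 0x80000000080687858a) (nat_lit 0) (p (nat_lit 0x80000000078605850a) (nat_lit 0) (p (nat_lit 0x8605868482) (nat_lit 0) (p (nat_lit 0x8585048402) (nat_lit 0) (p (nat_lit 0x160014) (nat_lit 0) (p (nat_lit 0x160004) (nat_lit 0) (p (nat_lit 0x60592) (nat_lit 0) (p (nat_lit 0x48512) (nat_lit 0) (p (nat_lit 0x50392) (nat_lit 0) (p (nat_lit 0x38312) (nat_lit 0) (p (nat_lit 0x40212) (nat_lit 0) (p (nat_lit 0x28192) (nat_lit 0) (p (nat_lit 0x30092) (nat_lit 0) (p (nat_lit 0x18012) (nat_lit 0) pn))))))))))))))))))) :=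
  Cl.node (nat_lit 0x109) (nat_lit 2) (by decide +kernel) (ClAll.succ (ClAll.succ ClAll.zero n140) s70)

def n152 : Cl (O (nat_lit 2)) (R (nat_lit 139473))
    (p (nat_lit 0xd1) (nat_lit 0) (p (nat_lit 0x81) (nat_lit 0) (p (nat_lit 0x41) (nat_lit 1) (p (nat_lit 0x89080788869a) (nat_lit 0) (p (nat_lit 0x88878706861a) (nat_lit 0) (p (nat_lit 0x80000000080687858a) (nat_lit 0) (p (nat_lit 0x80000000078605850a) (nat_lit 0) (p (nat_lit 0x8605868482) (nat_lit 0) (p (nat_lit 0x8585048402) (nat_lit 0) (p (nat_lit 0x160014) (nat_lit 0) (p (nat_lit 0x160004) (nat_lit 0) (p (nat_lit 0x60592) (nat_lit 0) (p (nat_lit 0x48512) (nat_lit 0) (p (nat_lit 0x50392) (nat_lit 0) (p (nat_lit 0x38312) (nat_lit 0) (p (nat_lit 0x40212) (nat_lit 0) (p (nat_lit 0x28192) (nat_lit 0) (p (nat_lit 0x30092) (nat_lit 0) (p (nat_lit 0x18012) (nat_lit 0) pn))))))))))))))))))) :=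
  Cl.node (nat_lit 0x119) (nat_lit 2) (by decide +kernel) (ClAll.succ (ClAll.succ ClAll.zero n141) n142)

def n153 : Cl (O (nat_lit 2)) (R (nat_lit 139473))
    (p (nat_lit 0xd1) (nat_lit 1) (p (nat_lit 0x81) (nat_lit 0) (p (nat_lit 0x41) (nat_lit 1) (p (nat_lit 0x89080788869a) (nat_lit 0) (p (nat_lit 0x88878706861a) (nat_lit 0) (p (nat_lit 0x80000000080687858a) (nat_lit 0) (p (nat_lit 0x80000000078605850a) (nat_lit 0) (p (nat_lit 0x8605868482) (nat_lit 0) (p (nat_lit 0x8585048402) (nat_lit 0) (p (nat_lit 0x160014) (nat_lit 0) (p (nat_lit 0x160004) (nat_lit 0) (p (nat_lit 0x60592) (nat_lit 0) (p (nat_lit 0x48512) (nat_lit 0) (p (nat_lit 0x50392) (nat_lit 0) (p (nat_lit 0x38312) (nat_lit 0) (p (nat_lit 0x40212) (nat_lit 0) (p (nat_lit 0x28192) (nat_lit 0) (p (nat_lit 0x30092) (nat_lit 0) (p (nat_lit 0x18012) (nat_lit 0) pn))))))))))))))))))) :=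
  Cl.node (nat_lit 0x111) (nat_lit 2) (by decide +kernel) (ClAll.succ (ClAll.succ ClAll.zero n143) n144)

def n154 : Cl (O (nat_lit 2)) (R (nat_lit 139473))
    (p (nat_lit 0xc1) (nat_lit 0) (p (nat_lit 0x81) (nat_lit 1) (p (nat_lit 0x41) (nat_lit 1) (p (nat_lit 0x89080788869a) (nat_lit 0) (p (nat_lit 0x88878706861a) (nat_lit 0) (p (nat_lit 0x80000000080687858a) (nat_lit 0) (p (nat_lit 0x80000000078605850a) (nat_lit 0) (p (nat_lit 0x8605868482) (nat_lit 0) (p (nat_lit 0x8585048402) (nat_lit 0) (p (nat_lit 0x160014) (nat_lit 0) (p (nat_lit 0x160004) (nat_lit 0) (p (nat_lit 0x60592) (nat_lit 0) (p (nat_lit 0x48512) (nat_lit 0) (p (nat_lit 0x50392) (nat_lit 0) (p (nat_lit 0x38312) (nat_lit 0) (p (nat_lit 0x40212) (nat_lit 0) (p (nat_lit 0x28192) (nat_lit 0) (p (nat_lit 0x30092) (nat_lit 0) (p (nat_lit 0x18012) (nat_lit 0) pn))))))))))))))))))) :=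
  Cl.node (nat_lit 0x119) (nat_lit 2) (by decide +kernel) (ClAll.succ (ClAll.succ ClAll.zero n145) n146)

def n155 : Cl (O (nat_lit 2)) (R (nat_lit 139473))
    (p (nat_lit 0xc1) (nat_lit 1) (p (nat_lit 0x81) (nat_lit 1) (p (nat_lit 0x41) (nat_lit 1) (p (nat_lit 0x89080788869a) (nat_lit 0) (p (nat_lit 0x88878706861a) (nat_lit 0) (p (nat_lit 0x80000000080687858a) (nat_lit 0) (p (nat_lit 0x80000000078605850a) (nat_lit 0) (p (nat_lit 0x8605868482) (nat_lit 0) (p (nat_lit 0x8585048402) (nat_lit 0) (p (nat_lit 0x160014) (nat_lit 0) (p (nat_lit 0x160004) (nat_lit 0) (p (nat_lit 0x60592) (nat_lit 0) (p (nat_lit 0x48512) (nat_lit 0) (p (nat_lit 0x50392) (nat_lit 0) (p (nat_lit 0x38312) (nat_lit 0) (p (nat_lit 0x40212) (nat_lit 0) (p (nat_lit 0x28192) (nat_lit 0) (p (nat_lit 0x30092) (nat_lit 0) (p (nat_lit 0x18012) (nat_lit 0) pn))))))))))))))))))) :=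
  Cl.node (nat_lit 0x101) (nat_lit 2) (by decide +kernel) (ClAll.succ (ClAll.succ ClAll.zero n147) s163)

def n156 : Cl (O (nat_lit 2)) (R (nat_lit 139473))
    (p (nat_lit 0x89) (nat_lit 0) (p (nat_lit 0x41) (nat_lit 0) (p (nat_lit 0x89080788869a) (nat_lit 0) (p (nat_lit 0x88878706861a) (nat_lit 0) (p (nat_lit 0x80000000080687858a) (nat_lit 0) (p (nat_lit 0x80000000078605850a) (nat_lit 0) (p (nat_lit 0x8605868482) (nat_lit 0) (p (nat_lit 0x8585048402) (nat_lit 0) (p (nat_lit 0x160014) (nat_lit 0) (p (nat_lit 0x160004) (nat_lit 0) (p (nat_lit 0x60592) (nat_lit 0) (p (nat_lit 0x48512) (nat_lit 0) (p (nat_lit 0x50392) (nat_lit 0) (p (nat_lit 0x38312) (nat_lit 0) (p (nat_lit 0x40212) (nat_lit 0) (p (nat_lit 0x28192) (nat_lit 0) (p (nat_lit 0x30092) (nat_lit 0) (p (nat_lit 0x18012) (nat_lit 0) pn)))))))))))))))))) :=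
  Cl.node (nat_lit 0xd1) (nat_lit 2) (by decide +kernel) (ClAll.succ (ClAll.succ ClAll.zero n148) n149)

def n157 : Cl (O (nat_lit 2)) (R (nat_lit 139473))
    (p (nat_lit 0x89) (nat_lit 1) (p (nat_lit 0x41) (nat_lit 0) (p (nat_lit 0x89080788869a) (nat_lit 0) (p (nat_lit 0x88878706861a) (nat_lit 0) (p (nat_lit 0x80000000080687858a) (nat_lit 0) (p (nat_lit 0x80000000078605850a) (nat_lit 0) (p (nat_lit 0x8605868482) (nat_lit 0) (p (nat_lit 0x8585048402) (nat_lit 0) (p (nat_lit 0x160014) (nat_lit 0) (p (nat_lit 0x160004) (nat_lit 0) (p (nat_lit 0x60592) (nat_lit 0) (p (nat_lit 0x48512) (nat_lit 0) (p (nat_lit 0x50392) (nat_lit 0) (p (nat_lit 0x38312) (nat_lit 0) (p (nat_lit 0x40212) (nat_lit 0) (p (nat_lit 0x28192) (nat_lit 0) (p (nat_lit 0x30092) (nat_lit 0) (p (nat_lit 0x18012) (nat_lit 0) pn)))))))))))))))))) :=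
  Cl.node (nat_lit 0xc9) (nat_lit 2) (by decide +kernel) (ClAll.succ (ClAll.succ ClAll.zero n150) n151)

def n158 : Cl (O (nat_lit 2)) (R (nat_lit 139473))
    (p (nat_lit 0x81) (nat_lit 0) (p (nat_lit 0x41) (nat_lit 1) (p (nat_lit 0x89080788869a) (nat_lit 0) (p (nat_lit 0x88878706861a) (nat_lit 0) (p (nat_lit 0x80000000080687858a) (nat_lit 0) (p (nat_lit 0x80000000078605850a) (nat_lit 0) (p (nat_lit 0x8605868482) (nat_lit 0) (p (nat_lit 0x8585048402) (nat_lit 0) (p (nat_lit 0x160014) (nat_lit 0) (p (nat_lit 0x160004) (nat_lit 0) (p (nat_lit 0x60592) (nat_lit 0) (p (nat_lit 0x48512) (nat_lit 0) (p (nat_lit 0x50392) (nat_lit 0) (p (nat_lit 0x38312) (nat_lit 0) (p (nat_lit 0x40212) (nat_lit 0) (p (nat_lit 0x28192) (nat_lit 0) (p (nat_lit 0x30092) (nat_lit 0) (p (nat_lit 0x18012) (nat_lit 0) pn)))))))))))))))))) :=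
  Cl.node (nat_lit 0xd1) (nat_lit 2) (by decide +kernel) (ClAll.succ (ClAll.succ ClAll.zero n152) n153)

def n159 : Cl (O (nat_lit 2)) (R (nat_lit 139473))
    (p (nat_lit 0x81) (nat_lit 1) (p (nat_lit 0x41) (nat_lit 1) (p (nat_lit 0x89080788869a) (nat_lit 0) (p (nat_lit 0x88878706861a) (nat_lit 0) (p (nat_lit 0x80000000080687858a) (nat_lit 0) (p (nat_lit 0x80000000078605850a) (nat_lit 0) (p (nat_lit 0x8605868482) (nat_lit 0) (p (nat_lit 0x8585048402) (nat_lit 0) (p (nat_lit 0x160014) (nat_lit 0) (p (nat_lit 0x160004) (nat_lit 0) (p (nat_lit 0x60592) (nat_lit 0) (p (nat_lit 0x48512) (nat_lit 0) (p (nat_lit 0x50392) (nat_lit 0) (p (nat_lit 0x38312) (nat_lit 0) (p (nat_lit 0x40212) (nat_lit 0) (p (nat_lit 0x28192) (nat_lit 0) (p (nat_lit 0x30092) (nat_lit 0) (p (nat_lit 0x18012) (nat_lit 0) pn)))))))))))))))))) :=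
  Cl.node (nat_lit 0xc1) (nat_lit 2) (by decide +kernel) (ClAll.succ (ClAll.succ ClAll.zero n154) n155)

def n160 : Cl (O (nat_lit 2)) (R (nat_lit 139473))
    (p (nat_lit 0x41) (nat_lit 0) (p (nat_lit 0x89080788869a) (nat_lit 0) (p (nat_lit 0x88878706861a) (nat_lit 0) (p (nat_lit 0x80000000080687858a) (nat_lit 0) (p (nat_lit 0x80000000078605850a) (nat_lit 0) (p (nat_lit 0x8605868482) (nat_lit 0) (p (nat_lit 0x8585048402) (nat_lit 0) (p (nat_lit 0x160014) (nat_lit 0) (p (nat_lit 0x160004) (nat_lit 0) (p (nat_lit 0x60592) (nat_lit 0) (p (nat_lit 0x48512) (nat_lit 0) (p (nat_lit 0x50392) (nat_lit 0) (p (nat_lit 0x38312) (nat_lit 0) (p (nat_lit 0x40212) (nat_lit 0) (p (nat_lit 0x28192) (nat_lit 0) (p (nat_lit 0x30092) (nat_lit 0) (p (nat_lit 0x18012) (nat_lit 0) pn))))))))))))))))) :=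
  Cl.node (nat_lit 0x89) (nat_lit 2) (by decide +kernel) (ClAll.succ (ClAll.succ ClAll.zero n156) n157)

def n161 : Cl (O (nat_lit 2)) (R (nat_lit 139473))
    (p (nat_lit 0x41) (nat_lit 1) (p (nat_lit 0x89080788869a) (nat_lit 0) (p (nat_lit 0x88878706861a) (nat_lit 0) (p (nat_lit 0x80000000080687858a) (nat_lit 0) (p (nat_lit 0x80000000078605850a) (nat_lit 0) (p (nat_lit 0x8605868482) (nat_lit 0) (p (nat_lit 0x8585048402) (nat_lit 0) (p (nat_lit 0x160014) (nat_lit 0) (p (nat_lit 0x160004) (nat_lit 0) (p (nat_lit 0x60592) (nat_lit 0) (p (nat_lit 0x48512) (nat_lit 0) (p (nat_lit 0x50392) (nat_lit 0) (p (nat_lit 0x38312) (nat_lit 0) (p (nat_lit 0x40212) (nat_lit 0) (p (nat_lit 0x28192) (nat_lit 0) (p (nat_lit 0x30092) (nat_lit 0) (p (nat_lit 0x18012) (nat_lit 0) pn))))))))))))))))) :=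
  Cl.node (nat_lit 0x81) (nat_lit 2) (by decide +kernel) (ClAll.succ (ClAll.succ ClAll.zero n158) n159)

def n162 : Cl (O (nat_lit 2)) (R (nat_lit 139473))
    (p (nat_lit 0x89080788869a) (nat_lit 0) (p (nat_lit 0x88878706861a) (nat_lit 0) (p (nat_lit 0x80000000080687858a) (nat_lit 0) (p (nat_lit 0x80000000078605850a) (nat_lit 0) (p (nat_lit 0x8605868482) (nat_lit 0) (p (nat_lit 0x8585048402) (nat_lit 0) (p (nat_lit 0x160014) (nat_lit 0) (p (nat_lit 0x160004) (nat_lit 0) (p (nat_lit 0x60592) (nat_lit 0) (p (nat_lit 0x48512) (nat_lit 0) (p (nat_lit 0x50392) (nat_lit 0) (p (nat_lit 0x38312) (nat_lit 0) (p (nat_lit 0x40212) (nat_lit 0) (p (nat_lit 0x28192) (nat_lit 0) (p (nat_lit 0x30092) (nat_lit 0) (p (nat_lit 0x18012) (nat_lit 0) pn)))))))))))))))) :=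
  Cl.node (nat_lit 0x41) (nat_lit 2) (by decide +kernel) (ClAll.succ (ClAll.succ ClAll.zero n160) n161)

def n163 : Cl (O (nat_lit 2)) (R (nat_lit 139473))
    (p (nat_lit 0x88878706861a) (nat_lit 0) (p (nat_lit 0x80000000080687858a) (nat_lit 0) (p (nat_lit 0x80000000078605850a) (nat_lit 0) (p (nat_lit 0x8605868482) (nat_lit 0) (p (nat_lit 0x8585048402) (nat_lit 0) (p (nat_lit 0x160014) (nat_lit 0) (p (nat_lit 0x160004) (nat_lit 0) (p (nat_lit 0x60592) (nat_lit 0) (p (nat_lit 0x48512) (nat_lit 0) (p (nat_lit 0x50392) (nat_lit 0) (p (nat_lit 0x38312) (nat_lit 0) (p (nat_lit 0x40212) (nat_lit 0) (p (nat_lit 0x28192) (nat_lit 0) (p (nat_lit 0x30092) (nat_lit 0) (p (nat_lit 0x18012) (nat_lit 0) pn))))))))))))))) :=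
  Cl.node (nat_lit 0x89080788869a) (nat_lit 1) (by decide +kernel) (ClAll.succ ClAll.zero n162)

def n164 : Cl (O (nat_lit 2)) (R (nat_lit 139473))
    (p (nat_lit 0x80000000080687858a) (nat_lit 0) (p (nat_lit 0x80000000078605850a) (nat_lit 0) (p (nat_lit 0x8605868482) (nat_lit 0) (p (nat_lit 0x8585048402) (nat_lit 0) (p (nat_lit 0x160014) (nat_lit 0) (p (nat_lit 0x160004) (nat_lit 0) (p (nat_lit 0x60592) (nat_lit 0) (p (nat_lit 0x48512) (nat_lit 0) (p (nat_lit 0x50392) (nat_lit 0) (p (nat_lit 0x38312) (nat_lit 0) (p (nat_lit 0x40212) (nat_lit 0) (p (nat_lit 0x28192) (nat_lit 0) (p (nat_lit 0x30092) (nat_lit 0) (p (nat_lit 0x18012) (nat_lit 0) pn)))))))))))))) :=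
  Cl.node (nat_lit 0x88878706861a) (nat_lit 1) (by decide +kernel) (ClAll.succ ClAll.zero n163)

def n165 : Cl (O (nat_lit 2)) (R (nat_lit 139473))
    (p (nat_lit 0x80000000078605850a) (nat_lit 0) (p (nat_lit 0x8605868482) (nat_lit 0) (p (nat_lit 0x8585048402) (nat_lit 0) (p (nat_lit 0x160014) (nat_lit 0) (p (nat_lit 0x160004) (nat_lit 0) (p (nat_lit 0x60592) (nat_lit 0) (p (nat_lit 0x48512) (nat_lit 0) (p (nat_lit 0x50392) (nat_lit 0) (p (nat_lit 0x38312) (nat_lit 0) (p (nat_lit 0x40212) (nat_lit 0) (p (nat_lit 0x28192) (nat_lit 0) (p (nat_lit 0x30092) (nat_lit 0) (p (nat_lit 0x18012) (nat_lit 0) pn))))))))))))) :=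
  Cl.node (nat_lit 0x80000000080687858a) (nat_lit 1) (by decide +kernel) (ClAll.succ ClAll.zero n164)

def n166 : Cl (O (nat_lit 2)) (R (nat_lit 139473))
    (p (nat_lit 0x8605868482) (nat_lit 0) (p (nat_lit 0x8585048402) (nat_lit 0) (p (nat_lit 0x160014) (nat_lit 0) (p (nat_lit 0x160004) (nat_lit 0) (p (nat_lit 0x60592) (nat_lit 0) (p (nat_lit 0x48512) (nat_lit 0) (p (nat_lit 0x50392) (nat_lit 0) (p (nat_lit 0x38312) (nat_lit 0) (p (nat_lit 0x40212) (nat_lit 0) (p (nat_lit 0x28192) (nat_lit 0) (p (nat_lit 0x30092) (nat_lit 0) (p (nat_lit 0x18012) (nat_lit 0) pn)))))))))))) :=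
  Cl.node (nat_lit 0x80000000078605850a) (nat_lit 1) (by decide +kernel) (ClAll.succ ClAll.zero n165)

def n167 : Cl (O (nat_lit 2)) (R (nat_lit 139473))
    (p (nat_lit 0x8585048402) (nat_lit 0) (p (nat_lit 0x160014) (nat_lit 0) (p (nat_lit 0x160004) (nat_lit 0) (p (nat_lit 0x60592) (nat_lit 0) (p (nat_lit 0x48512) (nat_lit 0) (p (nat_lit 0x50392) (nat_lit 0) (p (nat_lit 0x38312) (nat_lit 0) (p (nat_lit 0x40212) (nat_lit 0) (p (nat_lit 0x28192) (nat_lit 0) (p (nat_lit 0x30092) (nat_lit 0) (p (nat_lit 0x18012) (nat_lit 0) pn))))))))))) :=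
  Cl.node (nat_lit 0x8605868482) (nat_lit 1) (by decide +kernel) (ClAll.succ ClAll.zero n166)

def n168 : Cl (O (nat_lit 2)) (R (nat_lit 139473))
    (p (nat_lit 0x160014) (nat_lit 0) (p (nat_lit 0x160004) (nat_lit 0) (p (nat_lit 0x60592) (nat_lit 0) (p (nat_lit 0x48512) (nat_lit 0) (p (nat_lit 0x50392) (nat_lit 0) (p (nat_lit 0x38312) (nat_lit 0) (p (nat_lit 0x40212) (nat_lit 0) (p (nat_lit 0x28192) (nat_lit 0) (p (nat_lit 0x30092) (nat_lit 0) (p (nat_lit 0x18012) (nat_lit 0) pn)))))))))) :=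
  Cl.node (nat_lit 0x8585048402) (nat_lit 1) (by decide +kernel) (ClAll.succ ClAll.zero n167)

def n169 : Cl (O (nat_lit 2)) (R (nat_lit 139473))
    (p (nat_lit 0x160004) (nat_lit 0) (p (nat_lit 0x60592) (nat_lit 0) (p (nat_lit 0x48512) (nat_lit 0) (p (nat_lit 0x50392) (nat_lit 0) (p (nat_lit 0x38312) (nat_lit 0) (p (nat_lit 0x40212) (nat_lit 0) (p (nat_lit 0x28192) (nat_lit 0) (p (nat_lit 0x30092) (nat_lit 0) (p (nat_lit 0x18012) (nat_lit 0) pn))))))))) :=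
  Cl.node (nat_lit 0x160014) (nat_lit 2) (by decide +kernel) (ClAll.succ (ClAll.succ ClAll.zero n168) s164)

def n170 : Cl (O (nat_lit 2)) (R (nat_lit 139473))
    (p (nat_lit 0x60592) (nat_lit 0) (p (nat_lit 0x48512) (nat_lit 0) (p (nat_lit 0x50392) (nat_lit 0) (p (nat_lit 0x38312) (nat_lit 0) (p (nat_lit 0x40212) (nat_lit 0) (p (nat_lit 0x28192) (nat_lit 0) (p (nat_lit 0x30092) (nat_lit 0) (p (nat_lit 0x18012) (nat_lit 0) pn)))))))) :=
  Cl.node (nat_lit 0x160004) (nat_lit 2) (by decide +kernel) (ClAll.succ (ClAll.succ ClAll.zero n169) s165)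

def n171 : Cl (O (nat_lit 2)) (R (nat_lit 139473))
    (p (nat_lit 0x48512) (nat_lit 0) (p (nat_lit 0x50392) (nat_lit 0) (p (nat_lit 0x38312) (nat_lit 0) (p (nat_lit 0x40212) (nat_lit 0) (p (nat_lit 0x28192) (nat_lit 0) (p (nat_lit 0x30092) (nat_lit 0) (p (nat_lit 0x18012) (nat_lit 0) pn))))))) :=
  Cl.node (nat_lit 0x60592) (nat_lit 1) (by decide +kernel) (ClAll.succ ClAll.zero n170)

def n172 : Cl (O (nat_lit 2)) (R (nat_lit 139473))
    (p (nat_lit 0x50392) (nat_lit 0) (p (nat_lit 0x38312) (nat_lit 0) (p (nat_lit 0x40212) (nat_lit 0) (p (nat_lit 0x28192) (nat_lit 0) (p (nat_lit 0x30092) (nat_lit 0) (p (nat_lit 0x18012) (nat_lit 0) pn)))))) :=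
  Cl.node (nat_lit 0x48512) (nat_lit 1) (by decide +kernel) (ClAll.succ ClAll.zero n171)

def n173 : Cl (O (nat_lit 2)) (R (nat_lit 139473))
    (p (nat_lit 0x38312) (nat_lit 0) (p (nat_lit 0x40212) (nat_lit 0) (p (nat_lit 0x28192) (nat_lit 0) (p (nat_lit 0x30092) (nat_lit 0) (p (nat_lit 0x18012) (nat_lit 0) pn))))) :=
  Cl.node (nat_lit 0x50392) (nat_lit 1) (by decide +kernel) (ClAll.succ ClAll.zero n172)

def n174 : Cl (O (nat_lit 2)) (R (nat_lit 139473))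
    (p (nat_lit 0x40212) (nat_lit 0) (p (nat_lit 0x28192) (nat_lit 0) (p (nat_lit 0x30092) (nat_lit 0) (p (nat_lit 0x18012) (nat_lit 0) pn)))) :=
  Cl.node (nat_lit 0x38312) (nat_lit 1) (by decide +kernel) (ClAll.succ ClAll.zero n173)

def n175 : Cl (O (nat_lit 2)) (R (nat_lit 139473))
    (p (nat_lit 0x28192) (nat_lit 0) (p (nat_lit 0x30092) (nat_lit 0) (p (nat_lit 0x18012) (nat_lit 0) pn))) :=
  Cl.node (nat_lit 0x40212) (nat_lit 1) (by decide +kernel) (ClAll.succ ClAll.zero n174)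

def n176 : Cl (O (nat_lit 2)) (R (nat_lit 139473))
    (p (nat_lit 0x30092) (nat_lit 0) (p (nat_lit 0x18012) (nat_lit 0) pn)) :=
  Cl.node (nat_lit 0x28192) (nat_lit 1) (by decide +kernel) (ClAll.succ ClAll.zero n175)

def n177 : Cl (O (nat_lit 2)) (R (nat_lit 139473))
    (p (nat_lit 0x18012) (nat_lit 0) pn) :=
  Cl.node (nat_lit 0x30092) (nat_lit 1) (by decide +kernel) (ClAll.succ ClAll.zero n176)

def n178 : Cl (O (nat_lit 2)) (R (nat_lit 139473))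
    pn :=
  Cl.node (nat_lit 0x18012) (nat_lit 1) (by decide +kernel) (ClAll.succ ClAll.zero n177)

theorem top : Cl (O (nat_lit 2)) (R (nat_lit 139473)) pn := n178

end Pool.Agent.Gen.F5.X123C2Dm2
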